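import Pool.Agent.H419Z.Cov

/-! The covariance bound for Gibbs measures on compact groups. -/

open MeasureTheory

noncomputable section

namespace Pool.Agent.H419Z

variable {V : Type*} [NormedRing V] [NormedAlgebra ℝ V] {ι κ : Type*} [Fintype κ] [Fintype ι]
  {Ω : Type*} [Group Ω] [TopologicalSpace Ω] [CompactSpace Ω]
  [MeasurableSpace Ω] [BorelSpace Ω] (μ : Measure Ω) [IsProbabilityMeasure μ]
  (emb : Ω →ₜ* V)

theorem EG_mono' (S : Sm V) (F G : Sm V) (h : ∀ U ∈ Set.range emb, F U ≤ G U) :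
    EG μ emb S F ≤ EG μ emb S G := EG_mono μ emb S fun g => h _ ⟨g, rfl⟩

theorem abs_le_sqrt_sum {α : Type*} [Fintype α] (y : α → ℝ) (a : α) : |y a| ≤ √(∑ a, y a ^ 2) :=
  Real.abs_le_sqrt (Finset.single_le_sum (f := fun a => y a ^ 2) (fun _ _ => sq_nonneg _)
    (Finset.mem_univ a))

theorem tt_crude (S : Sm V) (T : ι → κ → V) : ∃ C, 0 ≤ C ∧ ∀ u e f,
    |tt (EG μ emb S) T S u e f| ≤ C * (√(gr (EG μ emb S) T u e) * √(gr (EG μ emb S) T u f)) := by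
  choose B hB0 hB using fun (q : ι × ι) (a b : κ) =>
    exists_bound emb (DD (T q.1 a) (DD (T q.2 b) S))
  have h0 : ∀ q, 0 ≤ ∑ a, ∑ b, B q a b := fun q =>
    Finset.sum_nonneg fun _ _ => Finset.sum_nonneg fun _ _ => hB0 _ _ _
  refine ⟨∑ q, ∑ a, ∑ b, B q a b, Finset.sum_nonneg fun q _ => h0 q, fun u e f => ?_⟩
  refine (tt_le (EG_mono' μ emb S) u (h0 (e, f)) ?_).trans (mul_le_mul_of_nonneg_right
    (Finset.single_le_sum (fun q _ => h0 q) (Finset.mem_univ (e, f))) (by positivity))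
  rintro _ ⟨g, rfl⟩ y z
  refine (Finset.abs_sum_le_sum_abs _ _).trans ?_
  rw [Finset.sum_mul]
  refine Finset.sum_le_sum fun a _ => (Finset.abs_sum_le_sum_abs _ _).trans ?_
  rw [Finset.sum_mul]
  refine Finset.sum_le_sum fun b _ => ?_
  rw [abs_mul, abs_mul, mul_assoc]
  exact mul_le_mul (hB (e, f) a b g) (mul_le_mul (abs_le_sqrt_sum y a) (abs_le_sqrt_sum z b)
    (abs_nonneg _) (Real.sqrt_nonneg _)) (by positivity) (hB0 _ _ _)

variable [IsTopologicalGroup Ω] [μ.IsMulLeftInvariant] [μ.IsMulRightInvariant]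
  [SecondCountableTopology Ω] [FiniteDimensional ℝ V]

theorem poincare (S : Sm V) (T : ι → κ → V) {R : ℝ}
    (hsurj : ∀ h, ∃ x : ι → κ → ℝ, (∀ e a, |x e a| ≤ R) ∧ Tan emb (∑ e, ∑ a, x e a • T e a) ∧
      emb h = NormedSpace.exp (∑ e, ∑ a, x e a • T e a)) :
    ∃ C, 0 ≤ C ∧ ∀ u, ∃ m : ℝ,
      nr (EG μ emb S) (u - algebraMap ℝ _ m) ≤ C * √(∑ e, gr (EG μ emb S) T u e) := by
  have : CompleteSpace V := FiniteDimensional.complete ℝ V
  obtain ⟨K, hK, h1, h2⟩ := nr_equiv μ emb S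
  refine ⟨K * ∑ _e : ι, ∑ _a : κ, |R| * K, by positivity, fun u => ⟨E0 μ emb u, ?_⟩⟩
  refine (h1 _).trans ?_
  rw [mul_assoc]
  refine mul_le_mul_of_nonneg_left (var_le μ emb u fun h => ?_) hK.le
  obtain ⟨x, hx, hT, he⟩ := hsurj h
  rw [he]
  refine (nr_lsh_sub μ emb hT u).trans ?_
  simp only [map_sum, map_smul, LinearMap.sum_apply, LinearMap.smul_apply, Finset.sum_mul]
  refine (nr_sum_le (E0_pos μ emb) _ _).trans (Finset.sum_le_sum fun e _ => ?_)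
  refine (nr_sum_le (E0_pos μ emb) _ _).trans (Finset.sum_le_sum fun a _ => ?_)
  rw [nr_smul, mul_assoc]
  refine mul_le_mul ((hx e a).trans (le_abs_self R)) ((h2 _).trans
    (mul_le_mul_of_nonneg_left (Real.sqrt_le_sqrt ?_) hK.le)) (nr_nonneg _ _) (abs_nonneg _)
  exact (Finset.single_le_sum (f := fun a => EG μ emb S (DD (T e a) u * DD (T e a) u))
    (fun a _ => EG_pos μ emb S _) (Finset.mem_univ a)).trans
    (Finset.single_le_sum (fun e _ => gr_nonneg (EG_pos μ emb S) T u e) (Finset.mem_univ e))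

theorem abs_main [μ.IsOpenPosMeasure] [DecidableEq ι] (hinj : Function.Injective emb)
    {T : ι → κ → V} (hT : ∀ e a, Tan emb (T e a)) {R : ℝ}
    (hsurj : ∀ h, ∃ x : ι → κ → ℝ, (∀ e a, |x e a| ≤ R) ∧ Tan emb (∑ e, ∑ a, x e a • T e a) ∧
      emb h = NormedSpace.exp (∑ e, ∑ a, x e a • T e a))
    (hcomm : ∀ e f, e ≠ f → ∀ a b, T e a * T f b = T f b * T e a)
    (fs : κ → κ → κ → ℝ)
    (hf : ∀ e a b, T e a * T e b - T e b * T e a = ∑ c, fs a b c • T e c)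
    (h1 : ∀ a b c, fs a b c = fs b c a) (h2 : ∀ a b c, fs a b c = -fs b a c) {ρ : ℝ}
    (hK : ∀ e, ∀ l : V →ₗ[ℝ] ℝ,
      4 * ρ * ∑ a, l (T e a) ^ 2 ≤ ∑ a, ∑ b, l (T e a * T e b - T e b * T e a) ^ 2)
    {π : Type*} (P : Finset π) (Ψ : π → Sm V) (I : π → Finset ι) {β : ℝ} {S : Sm V}
    (hS : S = β • ∑ p ∈ P, Ψ p)
    {c σ γ : ℝ} (hc : 0 < c) (hσ : 0 ≤ σ) (hγ : 0 ≤ γ)
    (h : ∀ p ∈ P, PlaqOK (Set.range emb) T S (Ψ p) (I p) c σ γ) {M : ℝ}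
    (hM : ∀ e, ((P.filter fun p => e ∈ I p).card : ℝ) ≤ M)
    (hM1 : ∀ e f, e ≠ f → (P.filter fun p => e ∈ I p ∧ f ∈ I p).card ≤ 1)
    {w : ι → ℝ} (hw : ∀ e, 0 < w e) {r : ℝ} (hr0 : 0 ≤ r)
    (hr : ∀ p ∈ P, ∀ e ∈ I p, ∀ f ∈ I p, w e ≤ r * w f)
    {θ : ℝ} (hθ4 : 4 * (|β| * r * σ / c) + 16 / 3 * (|β| * r * γ / c) ^ 2 ≤ θ)
    (hθ2 : |β| * r + |β| * r * σ / c + (|β| * r * γ / c) ^ 2 ≤ θ) (hpos : 0 < ρ - M * θ)
    (f g : Sm V) :
    |EG μ emb S (f * g) - EG μ emb S f * EG μ emb S g| ≤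
      √(∑ e, w e ^ 2 * gr (EG μ emb S) T f e) * √(∑ e, (w e)⁻¹ ^ 2 * gr (EG μ emb S) T g e) /
        (ρ - M * θ) := by
  have : CompleteSpace V := FiniteDimensional.complete ℝ V
  have hI : ∀ e a F, EG μ emb S (DD (T e a) F) = -EG μ emb S (DD (T e a) S * F) :=
    fun e a F => EG_DD μ emb (hT e a) S F
  obtain ⟨C, hC0, hC⟩ := tt_crude μ emb S T
  obtain ⟨CP, hCP0, hCP⟩ := poincare μ emb S T hsurj
  obtain ⟨l0, hl0, hR⟩ := range_dense μ emb (T := fun p : ι × κ => T p.1 p.2) hinj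
    (fun p => hT p.1 p.2) S
  refine cov_bound (EG_pos μ emb S) (EG_one μ emb S) hI hw hpos
    (weighted_bochner (EG_mono' μ emb S) hI hcomm
      (fun u e => LL_diag (EG_mono' μ emb S) hI u e fs (hf e) h1 h2 (hK e)) P Ψ I hS hc hσ hγ h
      hM hM1 hw hr0 hr hθ4 hθ2) hC0 (fun u e f hef => ?_) hCP0 hCP hl0 hR f g
  rw [LL_off hI u (hcomm e f hef)]
  have h3 := le_of_abs_le (hC u e f)
  have h4 := hs_nonneg (EG_pos μ emb S) T u f e
  linarith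

end Pool.Agent.H419Z
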