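import Mathlib

/-! Elementary real inequalities. -/

namespace Pool.Agent.H419Z

theorem le_sqrt_mul_sqrt {x y z : ℝ} (hy : 0 ≤ y) (hz : 0 ≤ z)
    (h : ∀ t : ℝ, 0 < t → x ≤ (t * y + z / t) / 2) : x ≤ √y * √z := by
  have h1 : ∀ ε : ℝ, 0 < ε → x ≤ √(y + ε) * √(z + ε) := by
    intro ε hε
    have ha : 0 < √(y + ε) := Real.sqrt_pos.2 (by linarith)
    have hb : 0 < √(z + ε) := Real.sqrt_pos.2 (by linarith)
    have ea : √(y + ε) ^ 2 = y + ε := Real.sq_sqrt (by linarith)
    have eb : √(z + ε) ^ 2 = z + ε := Real.sq_sqrt (by linarith)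
    set a := √(y + ε)
    set b := √(z + ε)
    refine (h (b / a) (by positivity)).trans ?_
    have h2 : b / a * y ≤ a * b := by
      rw [div_mul_eq_mul_div, div_le_iff₀ ha]
      nlinarith
    have h3 : z / (b / a) ≤ a * b := by
      rw [div_div_eq_mul_div, div_le_iff₀ hb]
      nlinarith
    linarith
  have hc : Continuous fun ε : ℝ => √(y + ε) * √(z + ε) := by fun_prop
  have ht := (hc.tendsto 0).mono_left (nhdsWithin_le_nhds (s := Set.Ioi 0))
  simp only [add_zero] at ht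
  exact ge_of_tendsto ht (eventually_nhdsWithin_of_forall fun ε hε => h1 ε hε)

theorem sqrt_mul_sqrt_le {y z t : ℝ} (hy : 0 ≤ y) (hz : 0 ≤ z) (ht : 0 < t) :
    √y * √z ≤ (t * y + z / t) / 2 := by
  have ea := Real.sq_sqrt hy
  have eb := Real.sq_sqrt hz
  set a := √y
  set b := √z
  rw [← ea, ← eb]
  have : (t * a ^ 2 + b ^ 2 / t) / 2 - a * b = (t * a - b) ^ 2 / (2 * t) := by
    field_simp
    ring
  have h2 : 0 ≤ (t * a - b) ^ 2 / (2 * t) := by positivity
  linarith

theorem aux4 (q x a b c : ℝ) : q * x * (2 / 3 * a + b + c) ≤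
    x ^ 2 + q ^ 2 * (2 / 3) * (2 / 3 * a ^ 2 + b ^ 2 + c ^ 2) := by
  have h1 := sq_nonneg (x - q * (2 / 3 * a + b + c) / 2)
  have h2 := mul_nonneg (sq_nonneg q) (sq_nonneg (a - b))
  have h3 := mul_nonneg (sq_nonneg q) (sq_nonneg (a - c))
  have h4 := mul_nonneg (sq_nonneg q) (sq_nonneg (b - c))
  nlinarith

theorem aux3 (q x a b : ℝ) : q * x * (a + 2 * b) ≤
    x ^ 2 + q ^ 2 * (3 / 4) * (a ^ 2 + 2 * b ^ 2) := by
  have h1 := sq_nonneg (x - q * (a + 2 * b) / 2)
  have h2 := mul_nonneg (sq_nonneg q) (sq_nonneg (a - b))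
  nlinarith

theorem plaq_ineq {ι : Type*} [DecidableEq ι] (I : Finset ι) (hI : I.card ≤ 4) (A : ι → ℝ)
    (x t : ι → ι → ℝ) {b p q θ : ℝ} (hb : 0 ≤ b) (hp : 0 ≤ p)
    (h1 : ∀ i ∈ I, ∀ j ∈ I, t i j ≤ b * (A i * A j))
    (h2 : ∀ i ∈ I, ∀ j ∈ I, ∀ g ∈ I, g ≠ i → g ≠ j →
      t i j ≤ p * (A i * A j) + q * (x i g * A j + x j g * A i))
    (hθ4 : 4 * p + 16 / 3 * q ^ 2 ≤ θ) (hθ2 : b + p + q ^ 2 ≤ θ) :
    ∑ i ∈ I, ∑ j ∈ I, t i j ≤ θ * ∑ i ∈ I, A i ^ 2 + ∑ i ∈ I, ∑ g ∈ I.erase i, x i g ^ 2 := by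
  have hq := sq_nonneg q
  have key : ∀ θ', θ' ≤ θ → ∑ i ∈ I, ∑ j ∈ I, t i j ≤
      θ' * ∑ i ∈ I, A i ^ 2 + ∑ i ∈ I, ∑ g ∈ I.erase i, x i g ^ 2 → ∑ i ∈ I, ∑ j ∈ I, t i j ≤
      θ * ∑ i ∈ I, A i ^ 2 + ∑ i ∈ I, ∑ g ∈ I.erase i, x i g ^ 2 := by
    intro θ' h h'
    have := mul_le_mul_of_nonneg_right h (Finset.sum_nonneg (s := I) fun i _ => sq_nonneg (A i))
    linarith
  have er : ∀ i ∈ I, ∑ g ∈ I.erase i, x i g ^ 2 = ∑ g ∈ I, x i g ^ 2 - x i i ^ 2 := by
    intro i hi
    rw [← Finset.add_sum_erase I (fun g => x i g ^ 2) hi]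
    ring
  have hc : I.card = 0 ∨ I.card = 1 ∨ I.card = 2 ∨ I.card = 3 ∨ I.card = 4 := by omega
  rcases hc with h | h | h | h | h
  · rw [Finset.card_eq_zero] at h
    subst h
    simp
  · obtain ⟨i, rfl⟩ := Finset.card_eq_one.1 h
    apply key b (by linarith)
    have := h1 i (by simp) i (by simp)
    simp only [Finset.sum_singleton, Finset.erase_singleton, Finset.sum_empty]
    linarith
  · obtain ⟨i, j, hij, rfl⟩ := Finset.card_eq_two.1 h
    apply key (b + p + q ^ 2) hθ2
    rw [Finset.sum_congr rfl er]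
    simp only [Finset.sum_pair hij]
    have a1 := h2 i (by simp) i (by simp) j (by simp) hij.symm hij.symm
    have a2 := h2 j (by simp) j (by simp) i (by simp) hij hij
    have a3 := h1 i (by simp) j (by simp)
    have a4 := h1 j (by simp) i (by simp)
    have b1 := mul_nonneg hb (sq_nonneg (A i - A j))
    have b2 := sq_nonneg (x i j - q * A i)
    have b3 := sq_nonneg (x j i - q * A j)
    linarith
  · obtain ⟨i, j, k, hij, hik, hjk, rfl⟩ := Finset.card_eq_three.1 h
    apply key (3 * p + 9 / 2 * q ^ 2) (by linarith)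
    rw [Finset.sum_congr rfl er]
    have hs : ∀ F : ι → ℝ, ∑ a ∈ ({i, j, k} : Finset ι), F a = F i + F j + F k := by
      intro F
      rw [Finset.sum_insert (by simp [hij, hik]), Finset.sum_pair hjk, add_assoc]
    simp only [hs]
    have hi : i ∈ ({i, j, k} : Finset ι) := by simp
    have hj : j ∈ ({i, j, k} : Finset ι) := by simp
    have hk : k ∈ ({i, j, k} : Finset ι) := by simp
    have := h2 i hi i hi j hj hij.symm hij.symm
    have := h2 i hi i hi k hk hik.symm hik.symm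
    have := h2 j hj j hj i hi hij hij
    have := h2 j hj j hj k hk hjk.symm hjk.symm
    have := h2 k hk k hk i hi hik hik
    have := h2 k hk k hk j hj hjk hjk
    have := h2 i hi j hj k hk hik.symm hjk.symm
    have := h2 j hj i hi k hk hjk.symm hik.symm
    have := h2 i hi k hk j hj hij.symm hjk
    have := h2 k hk i hi j hj hjk hij.symm
    have := h2 j hj k hk i hi hij hik
    have := h2 k hk j hj i hi hik hij
    have := aux3 q (x i j) (A i) (A k)
    have := aux3 q (x i k) (A i) (A j)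
    have := aux3 q (x j i) (A j) (A k)
    have := aux3 q (x j k) (A j) (A i)
    have := aux3 q (x k i) (A k) (A j)
    have := aux3 q (x k j) (A k) (A i)
    have := mul_nonneg hp (sq_nonneg (A i - A j))
    have := mul_nonneg hp (sq_nonneg (A i - A k))
    have := mul_nonneg hp (sq_nonneg (A j - A k))
    linarith
  · obtain ⟨i, J, hiJ, rfl, hJ⟩ := Finset.card_eq_succ.1 h
    obtain ⟨j, k, l, hjk, hjl, hkl, rfl⟩ := Finset.card_eq_three.1 hJ
    simp only [Finset.mem_insert, Finset.mem_singleton, not_or] at hiJ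
    obtain ⟨hij, hik, hil⟩ := hiJ
    replace hij : i ≠ j := hij
    replace hik : i ≠ k := hik
    replace hil : i ≠ l := hil
    apply key _ hθ4
    rw [Finset.sum_congr rfl er]
    have hs : ∀ F : ι → ℝ, ∑ a ∈ ({i, j, k, l} : Finset ι), F a = F i + F j + F k + F l := by
      intro F
      rw [Finset.sum_insert (by simp [hij, hik, hil]), Finset.sum_insert (by simp [hjk, hjl]),
        Finset.sum_pair hkl]
      ring
    simp only [hs]
    have hi : i ∈ ({i, j, k, l} : Finset ι) := by simp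
    have hj : j ∈ ({i, j, k, l} : Finset ι) := by simp
    have hk : k ∈ ({i, j, k, l} : Finset ι) := by simp
    have hl : l ∈ ({i, j, k, l} : Finset ι) := by simp
    have dg : ∀ a ∈ ({i, j, k, l} : Finset ι), ∀ b ∈ ({i, j, k, l} : Finset ι),
        ∀ c ∈ ({i, j, k, l} : Finset ι), ∀ d ∈ ({i, j, k, l} : Finset ι), b ≠ a → c ≠ a → d ≠ a →
        t a a ≤ p * A a ^ 2 + 2 / 3 * q * (x a b + x a c + x a d) * A a := by
      intro a ha b hb c hc d hd h3 h4 h5
      have := h2 a ha a ha b hb h3 h3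
      have := h2 a ha a ha c hc h4 h4
      have := h2 a ha a ha d hd h5 h5
      linarith
    have og : ∀ a ∈ ({i, j, k, l} : Finset ι), ∀ b ∈ ({i, j, k, l} : Finset ι),
        ∀ c ∈ ({i, j, k, l} : Finset ι), ∀ d ∈ ({i, j, k, l} : Finset ι),
        c ≠ a → c ≠ b → d ≠ a → d ≠ b → t a b + t b a ≤ p * (A a ^ 2 + A b ^ 2) +
          q * ((x a c + x a d) * A b + (x b c + x b d) * A a) := by
      intro a ha b hb c hc d hd h3 h4 h5 h6
      have := h2 a ha b hb c hc h3 h4
      have := h2 a ha b hb d hd h5 h6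
      have := h2 b hb a ha c hc h4 h3
      have := h2 b hb a ha d hd h6 h5
      have := mul_nonneg hp (sq_nonneg (A a - A b))
      linarith
    have := dg i hi j hj k hk l hl hij.symm hik.symm hil.symm
    have := dg j hj i hi k hk l hl hij hjk.symm hjl.symm
    have := dg k hk i hi j hj l hl hik hjk hkl.symm
    have := dg l hl i hi j hj k hk hil hjl hkl
    have := og i hi j hj k hk l hl hik.symm hjk.symm hil.symm hjl.symm
    have := og i hi k hk j hj l hl hij.symm hjk hil.symm hkl.symm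
    have := og i hi l hl j hj k hk hij.symm hjl hik.symm hkl
    have := og j hj k hk i hi l hl hij hik hjl.symm hkl.symm
    have := og j hj l hl i hi k hk hij hil hjk.symm hkl
    have := og k hk l hl i hi j hj hik hil hjk hjl
    have := aux4 q (x i j) (A i) (A k) (A l)
    have := aux4 q (x i k) (A i) (A j) (A l)
    have := aux4 q (x i l) (A i) (A j) (A k)
    have := aux4 q (x j i) (A j) (A k) (A l)
    have := aux4 q (x j k) (A j) (A i) (A l)
    have := aux4 q (x j l) (A j) (A i) (A k)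
    have := aux4 q (x k i) (A k) (A j) (A l)
    have := aux4 q (x k j) (A k) (A i) (A l)
    have := aux4 q (x k l) (A k) (A i) (A j)
    have := aux4 q (x l i) (A l) (A j) (A k)
    have := aux4 q (x l j) (A l) (A i) (A k)
    have := aux4 q (x l k) (A l) (A i) (A j)
    linarith

end Pool.Agent.H419Z
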