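import Pool.Agent.H419Z.Range
import Pool.Agent.H419Z.Ineq

/-! Bochner identities and the spectator integration by parts. -/

noncomputable section

namespace Pool.Agent.H419Z

variable {V : Type*} [NormedRing V] [NormedAlgebra ℝ V]

theorem pair_id {E : Sm V →ₗ[ℝ] ℝ} {S : Sm V} {X Y : V}
    (hX : ∀ F, E (DD X F) = -E (DD X S * F)) (hY : ∀ F, E (DD Y F) = -E (DD Y S * F))
    (u : Sm V) : E (Ds S X (DD X u) * Ds S Y (DD Y u)) =
      E (DD Y (DD X u) * DD X (DD Y u) + DD X u * DD (X * Y - Y * X) (DD Y u)) -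
        E (DD X (DD Y S) * DD X u * DD Y u) := by
  rw [Ds_adj hX]
  have e : DD X u * DD X (Ds S Y (DD Y u)) = Ds S Y (DD X (DD Y u)) * DD X u -
      DD X u * DD (X * Y - Y * X) (DD Y u) + DD X (DD Y S) * DD X u * DD Y u := by
    rw [Ds_apply, Ds_apply, map_add, DD_mul, DD_comm X Y (DD Y u)]
    ring
  rw [e, map_add, map_sub, Ds_adj hY, map_add, mul_comm (DD X (DD Y u))]
  ring

theorem pos_of_mono {E : Sm V →ₗ[ℝ] ℝ} {Pt : Set V}
    (hm : ∀ F G : Sm V, (∀ U ∈ Pt, F U ≤ G U) → E F ≤ E G) (F : Sm V) : 0 ≤ E (F * F) := by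
  have := hm 0 (F * F) fun U _ => mul_self_nonneg _
  rwa [map_zero] at this

theorem abs_E_le {E : Sm V →ₗ[ℝ] ℝ} {Pt : Set V}
    (hm : ∀ F G : Sm V, (∀ U ∈ Pt, F U ≤ G U) → E F ≤ E G) {α β : Type*} [Fintype α] [Fintype β]
    (F : Sm V) (y : α → Sm V) (z : β → Sm V) {C : ℝ} (hC : 0 ≤ C)
    (h : ∀ U ∈ Pt, |F U| ≤ C * (√(∑ a, y a U ^ 2) * √(∑ b, z b U ^ 2))) :
    |E F| ≤ C * (√(∑ a, E (y a * y a)) * √(∑ b, E (z b * z b))) := by
  have hy : 0 ≤ ∑ a, E (y a * y a) := Finset.sum_nonneg fun _ _ => pos_of_mono hm _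
  have hz : 0 ≤ ∑ a, E (z a * z a) := Finset.sum_nonneg fun _ _ => pos_of_mono hm _
  have key : ∀ t : ℝ, 0 < t →
      |E F| ≤ C * ((t * ∑ a, E (y a * y a) + (∑ b, E (z b * z b)) / t) / 2) := by
    intro t ht
    set G : Sm V := (C * t / 2) • ∑ a, y a * y a + (C / t / 2) • ∑ b, z b * z b with hG
    have e : C * ((t * ∑ a, E (y a * y a) + (∑ b, E (z b * z b)) / t) / 2) = E G := by
      rw [hG, map_add, map_smul, map_smul, map_sum, map_sum, smul_eq_mul, smul_eq_mul]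
      ring
    have hp : ∀ U ∈ Pt, |F U| ≤ G U := by
      intro U hU
      refine (h U hU).trans ?_
      have := sqrt_mul_sqrt_le (y := ∑ a, y a U ^ 2) (z := ∑ b, z b U ^ 2)
        (Finset.sum_nonneg fun _ _ => sq_nonneg _) (Finset.sum_nonneg fun _ _ => sq_nonneg _) ht
      refine (mul_le_mul_of_nonneg_left this hC).trans (le_of_eq ?_)
      simp only [hG, Sm.coe_add, Sm.coe_smul, Pi.add_apply, Pi.smul_apply, Sm.sum_apply,
        Sm.coe_mul, Pi.mul_apply, smul_eq_mul, sq]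
      ring
    rw [e, abs_le]
    refine ⟨?_, hm _ _ fun U hU => le_of_abs_le (hp U hU)⟩
    rw [← map_neg]
    exact hm _ _ fun U hU => neg_le_of_abs_le (hp U hU)
  rcases hC.eq_or_lt with h0 | h0
  · have := key 1 one_pos
    rw [← h0, zero_mul] at this ⊢
    exact this
  · rw [← div_le_iff₀' h0]
    apply le_sqrt_mul_sqrt hy hz
    intro t ht
    rw [div_le_iff₀' h0]
    exact key t ht

variable {ι κ : Type*} [Fintype κ]

/-- squared gradient norm in the link `e` -/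
def gr (E : Sm V →ₗ[ℝ] ℝ) (T : ι → κ → V) (u : Sm V) (e : ι) : ℝ :=
  ∑ a, E (DD (T e a) u * DD (T e a) u)

/-- squared mixed Hessian norm -/
def hs (E : Sm V →ₗ[ℝ] ℝ) (T : ι → κ → V) (u : Sm V) (g e : ι) : ℝ :=
  ∑ p : κ × κ, E (DD (T g p.1) (DD (T e p.2) u) * DD (T g p.1) (DD (T e p.2) u))

/-- Hessian of `Ψ` evaluated on the gradient of `u` -/
def tt (E : Sm V →ₗ[ℝ] ℝ) (T : ι → κ → V) (Ψ u : Sm V) (e f : ι) : ℝ :=
  E (∑ a, ∑ b, DD (T e a) (DD (T f b) Ψ) * DD (T e a) u * DD (T f b) u)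

theorem gr_nonneg {E : Sm V →ₗ[ℝ] ℝ} (hE : ∀ F, 0 ≤ E (F * F)) (T : ι → κ → V) (u : Sm V)
    (e : ι) : 0 ≤ gr E T u e := Finset.sum_nonneg fun _ _ => hE _

theorem hs_nonneg {E : Sm V →ₗ[ℝ] ℝ} (hE : ∀ F, 0 ≤ E (F * F)) (T : ι → κ → V) (u : Sm V)
    (g e : ι) : 0 ≤ hs E T u g e := Finset.sum_nonneg fun _ _ => hE _

theorem LL_id {E : Sm V →ₗ[ℝ] ℝ} {S : Sm V} {T : ι → κ → V}
    (hI : ∀ e a F, E (DD (T e a) F) = -E (DD (T e a) S * F)) (u : Sm V) (e f : ι) :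
    E (Gen S (T e) u * Gen S (T f) u) =
      E (∑ a, ∑ b, (DD (T f b) (DD (T e a) u) * DD (T e a) (DD (T f b) u) +
        DD (T e a) u * DD (T e a * T f b - T f b * T e a) (DD (T f b) u))) - tt E T S u e f := by
  rw [Gen_apply, Gen_apply, Finset.sum_mul_sum, tt]
  simp only [map_sum, ← Finset.sum_sub_distrib]
  exact Finset.sum_congr rfl fun a _ => Finset.sum_congr rfl fun b _ =>
    pair_id (hI e a) (hI f b) u

theorem LL_off {E : Sm V →ₗ[ℝ] ℝ} {S : Sm V} {T : ι → κ → V}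
    (hI : ∀ e a F, E (DD (T e a) F) = -E (DD (T e a) S * F)) (u : Sm V) {e f : ι}
    (hc : ∀ a b, T e a * T f b = T f b * T e a) :
    E (Gen S (T e) u * Gen S (T f) u) = hs E T u f e - tt E T S u e f := by
  rw [LL_id hI, hs, Fintype.sum_prod_type_right]
  simp only [map_sum]
  congr 1
  refine Finset.sum_congr rfl fun a _ => Finset.sum_congr rfl fun b _ => ?_
  rw [hc a b, sub_self, map_zero, LinearMap.zero_apply, mul_zero, add_zero,
    DD_comm_of _ _ (hc a b)]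

theorem lie_id {T : κ → V} (f : κ → κ → κ → ℝ)
    (hf : ∀ a b, T a * T b - T b * T a = ∑ c, f a b c • T c)
    (h1 : ∀ a b c, f a b c = f b c a) (h2 : ∀ a b c, f a b c = -f b a c) (u : Sm V) :
    ∑ a, ∑ b, (DD (T b) (DD (T a) u) * DD (T a) (DD (T b) u) +
        DD (T a) u * DD (T a * T b - T b * T a) (DD (T b) u)) =
      ∑ a, ∑ b, (DD (T b) (DD (T a) u) - (1 / 2 : ℝ) • DD (T a * T b - T b * T a) u) ^ 2 +
        (1 / 4 : ℝ) • ∑ a, ∑ b, DD (T a * T b - T b * T a) u ^ 2 := by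
  set C : κ → κ → Sm V := fun a b => DD (T a * T b - T b * T a) u with hC
  have hD : ∀ a b v, DD (T a * T b - T b * T a) v = ∑ c, f a b c • DD (T c) v := by
    intro a b v
    rw [hf, map_sum, LinearMap.sum_apply]
    simp only [map_smul, LinearMap.smul_apply]
  set Q : Sm V := ∑ a, ∑ b, DD (T a) u * DD (T a * T b - T b * T a) (DD (T b) u) with hQ
  have q1 : Q = ∑ a, ∑ b, ∑ c, f a b c • (DD (T a) u * DD (T c) (DD (T b) u)) := by
    simp only [hQ, hD, Finset.mul_sum, mul_smul_comm]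
  have q2 : Q = -∑ a, ∑ b, ∑ c, f a b c • (DD (T a) u * DD (T b) (DD (T c) u)) := by
    rw [q1, ← Finset.sum_neg_distrib]
    refine Finset.sum_congr rfl fun a _ => ?_
    rw [Finset.sum_comm, ← Finset.sum_neg_distrib]
    refine Finset.sum_congr rfl fun b _ => ?_
    rw [← Finset.sum_neg_distrib]
    refine Finset.sum_congr rfl fun c _ => ?_
    rw [← neg_smul, h1 a c b, h2 c b a, ← h1 a b c]
  have q3 : Q + Q = ∑ b, ∑ c, C b c ^ 2 := by
    nth_rewrite 1 [q1]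
    rw [q2, ← sub_eq_add_neg]
    simp only [← Finset.sum_sub_distrib, ← smul_sub, ← mul_sub]
    rw [Finset.sum_comm]
    refine Finset.sum_congr rfl fun b _ => ?_
    rw [Finset.sum_comm]
    refine Finset.sum_congr rfl fun c _ => ?_
    have : DD (T c) (DD (T b) u) - DD (T b) (DD (T c) u) = C b c := by
      rw [DD_comm (T b) (T c)]
      simp [hC]
    rw [this, sq]
    conv_rhs => rw [show C b c * C b c = (∑ a, f b c a • DD (T a) u) * C b c by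
      rw [← hD]]
    rw [Finset.sum_mul]
    refine Finset.sum_congr rfl fun a _ => ?_
    rw [h1 a b c, smul_mul_assoc]
  have q4 : Q = (1 / 2 : ℝ) • ∑ b, ∑ c, C b c ^ 2 := by
    rw [← q3, ← two_smul ℝ Q, smul_smul]
    norm_num
  have q5 : ∀ a b, DD (T b) (DD (T a) u) * DD (T a) (DD (T b) u) =
      (DD (T b) (DD (T a) u) - (1 / 2 : ℝ) • C a b) ^ 2 - (1 / 4 : ℝ) • C a b ^ 2 := by
    intro a b
    rw [DD_comm (T a) (T b)]
    ext U
    simp only [hC, sq, Sm.coe_mul, Sm.coe_sub, Sm.coe_smul, Pi.mul_apply, Pi.sub_apply,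
      Pi.smul_apply, smul_eq_mul]
    ring
  simp only [Finset.sum_add_distrib]
  rw [← hQ, q4]
  simp only [q5, Finset.sum_sub_distrib, ← Finset.smul_sum]
  change _ = ∑ a, ∑ b, (DD (T b) (DD (T a) u) - (1 / 2 : ℝ) • C a b) ^ 2 +
    (1 / 4 : ℝ) • ∑ a, ∑ b, C a b ^ 2
  module

theorem LL_diag {E : Sm V →ₗ[ℝ] ℝ} {Pt : Set V}
    (hm : ∀ F G : Sm V, (∀ U ∈ Pt, F U ≤ G U) → E F ≤ E G) {S : Sm V} {T : ι → κ → V}
    (hI : ∀ e a F, E (DD (T e a) F) = -E (DD (T e a) S * F)) (u : Sm V) (e : ι)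
    (f : κ → κ → κ → ℝ) (hf : ∀ a b, T e a * T e b - T e b * T e a = ∑ c, f a b c • T e c)
    (h1 : ∀ a b c, f a b c = f b c a) (h2 : ∀ a b c, f a b c = -f b a c) {ρ : ℝ}
    (hK : ∀ l : V →ₗ[ℝ] ℝ,
      4 * ρ * ∑ a, l (T e a) ^ 2 ≤ ∑ a, ∑ b, l (T e a * T e b - T e b * T e a) ^ 2) :
    ρ * gr E T u e - tt E T S u e e ≤ E (Gen S (T e) u * Gen S (T e) u) := by
  rw [LL_id hI, lie_id f hf h1 h2, gr, ← map_sum, ← smul_eq_mul, ← map_smul]
  apply sub_le_sub_right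
  apply hm
  intro U _
  have := hK ((fderiv ℝ (u : V → ℝ) U).toLinearMap ∘ₗ LinearMap.mulRight ℝ U)
  simp only [sq, Sm.coe_mul, Sm.coe_add, Sm.coe_smul, Pi.mul_apply, Pi.add_apply,
    Pi.smul_apply, smul_eq_mul, Sm.sum_apply]
  have h3 : 0 ≤ ∑ a, ∑ b, (DD (T e b) (DD (T e a) u) -
      (1 / 2 : ℝ) • DD (T e a * T e b - T e b * T e a) u : Sm V) U *
      (DD (T e b) (DD (T e a) u) - (1 / 2 : ℝ) • DD (T e a * T e b - T e b * T e a) u : Sm V) U :=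
    Finset.sum_nonneg fun _ _ => Finset.sum_nonneg fun _ _ => mul_self_nonneg _
  simp only [sq] at this
  change 4 * ρ * ∑ a, (DD (T e a) u) U * (DD (T e a) u) U ≤
    ∑ a, ∑ b, (DD (T e a * T e b - T e b * T e a) u) U *
      (DD (T e a * T e b - T e b * T e a) u) U at this
  linarith

theorem tt_le {E : Sm V →ₗ[ℝ] ℝ} {Pt : Set V}
    (hm : ∀ F G : Sm V, (∀ U ∈ Pt, F U ≤ G U) → E F ≤ E G) {T : ι → κ → V} {Ψ : Sm V}
    (u : Sm V) {e f : ι} {C : ℝ} (hC : 0 ≤ C)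
    (h : ∀ U ∈ Pt, ∀ y z : κ → ℝ, |∑ a, ∑ b, DD (T e a) (DD (T f b) Ψ) U * y a * z b| ≤
      C * (√(∑ a, y a ^ 2) * √(∑ b, z b ^ 2))) :
    |tt E T Ψ u e f| ≤ C * (√(gr E T u e) * √(gr E T u f)) := by
  apply abs_E_le hm _ _ _ hC
  intro U hU
  simp only [Sm.sum_apply, Sm.coe_mul, Pi.mul_apply]
  exact h U hU _ _

theorem spectator {E : Sm V →ₗ[ℝ] ℝ} {Pt : Set V}
    (hm : ∀ F G : Sm V, (∀ U ∈ Pt, F U ≤ G U) → E F ≤ E G) {S : Sm V} {T : ι → κ → V}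
    (hI : ∀ e a F, E (DD (T e a) F) = -E (DD (T e a) S * F)) {Ψ : Sm V} (u : Sm V) {e f g : ι}
    {c σ γ : ℝ} (hσ : 0 ≤ σ) (hγ : 0 ≤ γ)
    (H2 : ∀ a b, ∑ k, DD (T g k) (DD (T g k) (DD (T e a) (DD (T f b) Ψ))) =
      -c • DD (T e a) (DD (T f b) Ψ))
    (H3 : ∀ U ∈ Pt, ∀ y z : κ → ℝ,
      |∑ k, ∑ a, ∑ b, DD (T g k) (DD (T e a) (DD (T f b) Ψ)) U * DD (T g k) S U * y a * z b| ≤
        σ * (√(∑ a, y a ^ 2) * √(∑ b, z b ^ 2)))
    (H4 : ∀ U ∈ Pt, ∀ (y : κ × κ → ℝ) (z : κ → ℝ),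
      |∑ k, ∑ a, ∑ b, DD (T g k) (DD (T e a) (DD (T f b) Ψ)) U * y (k, a) * z b| ≤
        γ * (√(∑ p, y p ^ 2) * √(∑ b, z b ^ 2)))
    (H5 : ∀ U ∈ Pt, ∀ (y : κ → ℝ) (z : κ × κ → ℝ),
      |∑ k, ∑ a, ∑ b, DD (T g k) (DD (T e a) (DD (T f b) Ψ)) U * y a * z (k, b)| ≤
        γ * (√(∑ a, y a ^ 2) * √(∑ p, z p ^ 2))) :
    |c * tt E T Ψ u e f| ≤ σ * (√(gr E T u e) * √(gr E T u f)) +
      γ * (√(hs E T u g e) * √(gr E T u f) + √(hs E T u g f) * √(gr E T u e)) := by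
  set h : κ → κ → Sm V := fun a b => DD (T e a) (DD (T f b) Ψ) with hh
  have k1 : ∀ a b, c * E (h a b * DD (T e a) u * DD (T f b) u) =
      ∑ k, (E (DD (T g k) (h a b) * DD (T g k) S * DD (T e a) u * DD (T f b) u) +
        E (DD (T g k) (h a b) * DD (T g k) (DD (T e a) u) * DD (T f b) u) +
        E (DD (T g k) (h a b) * DD (T e a) u * DD (T g k) (DD (T f b) u))) := by
    intro a b
    have e1 : c * E (h a b * DD (T e a) u * DD (T f b) u) =
        -E ((∑ k, DD (T g k) (DD (T g k) (h a b))) * (DD (T e a) u * DD (T f b) u)) := by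
      rw [H2, smul_mul_assoc, map_smul, smul_eq_mul, mul_assoc]
      ring
    rw [e1, Finset.sum_mul, map_sum, ← Finset.sum_neg_distrib]
    refine Finset.sum_congr rfl fun k _ => ?_
    rw [mul_comm, ← Ds_adj (hI g k), Ds_apply, DD_mul, ← map_add, ← map_add]
    congr 1
    ring
  have k2 : c * tt E T Ψ u e f =
      E (∑ k, ∑ a, ∑ b, DD (T g k) (h a b) * DD (T g k) S * DD (T e a) u * DD (T f b) u) +
      E (∑ k, ∑ a, ∑ b, DD (T g k) (h a b) * DD (T g k) (DD (T e a) u) * DD (T f b) u) +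
      E (∑ k, ∑ a, ∑ b, DD (T g k) (h a b) * DD (T e a) u * DD (T g k) (DD (T f b) u)) := by
    simp only [tt, map_sum, Finset.mul_sum, ← Finset.sum_add_distrib]
    rw [Finset.sum_comm (s := Finset.univ) (t := Finset.univ) (f := fun k a => ∑ b, (_ + _ + _))]
    refine Finset.sum_congr rfl fun a _ => ?_
    rw [Finset.sum_comm (s := Finset.univ) (t := Finset.univ) (f := fun k b => (_ + _ + _))]
    exact Finset.sum_congr rfl fun b _ => k1 a b
  have b1 := abs_E_le hm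
    (∑ k, ∑ a, ∑ b, DD (T g k) (h a b) * DD (T g k) S * DD (T e a) u * DD (T f b) u)
    (fun a => DD (T e a) u) (fun b => DD (T f b) u) hσ (fun U hU => by
      simp only [Sm.sum_apply, Sm.coe_mul, Pi.mul_apply]
      exact H3 U hU _ _)
  have b2 := abs_E_le hm
    (∑ k, ∑ a, ∑ b, DD (T g k) (h a b) * DD (T g k) (DD (T e a) u) * DD (T f b) u)
    (fun p : κ × κ => DD (T g p.1) (DD (T e p.2) u)) (fun b => DD (T f b) u) hγ (fun U hU => by
      simp only [Sm.sum_apply, Sm.coe_mul, Pi.mul_apply]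
      exact H4 U hU (fun p : κ × κ => DD (T g p.1) (DD (T e p.2) u) U) _)
  have b3 := abs_E_le hm
    (∑ k, ∑ a, ∑ b, DD (T g k) (h a b) * DD (T e a) u * DD (T g k) (DD (T f b) u))
    (fun a => DD (T e a) u) (fun p : κ × κ => DD (T g p.1) (DD (T f p.2) u)) hγ (fun U hU => by
      simp only [Sm.sum_apply, Sm.coe_mul, Pi.mul_apply]
      exact H5 U hU _ (fun p : κ × κ => DD (T g p.1) (DD (T f p.2) u) U))
  rw [k2]
  refine (abs_add_three _ _ _).trans ?_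
  simp only [gr, hs]
  linarith

end Pool.Agent.H419Z
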