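import Mathlib

/-! Smooth functions on a normed algebra and right-invariant vector fields. -/

open scoped ContDiff
open MeasureTheory

noncomputable section

namespace Pool.Agent.H419Z

section PosFun

variable {A : Type*} [CommRing A] [Algebra ℝ A]

/-- seminorm of a positive functional -/
def nr (E : A →ₗ[ℝ] ℝ) (F : A) : ℝ := Real.sqrt (E (F * F))

theorem nr_nonneg (E : A →ₗ[ℝ] ℝ) (F : A) : 0 ≤ nr E F := Real.sqrt_nonneg _

theorem nr_sq {E : A →ₗ[ℝ] ℝ} (hE : ∀ F, 0 ≤ E (F * F)) (F : A) : nr E F ^ 2 = E (F * F) :=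
  Real.sq_sqrt (hE F)

theorem sq_le_cs {E : A →ₗ[ℝ] ℝ} (hE : ∀ F, 0 ≤ E (F * F)) (F G : A) :
    E (F * G) ^ 2 ≤ E (F * F) * E (G * G) := by
  have h : ∀ t : ℝ, 0 ≤ E (G * G) * (t * t) + (2 * E (F * G)) * t + E (F * F) := by
    intro t
    have := hE (F + t • G)
    have e : (F + t • G) * (F + t • G) = (t * t) • (G * G) + (2 * t) • (F * G) + F * F := by
      simp only [Algebra.smul_def, map_mul, map_ofNat]
      ring
    rw [e] at this
    simp only [map_add, map_smul, smul_eq_mul] at this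
    linarith
  have := discrim_le_zero h
  unfold discrim at this
  nlinarith

theorem abs_le_nr {E : A →ₗ[ℝ] ℝ} (hE : ∀ F, 0 ≤ E (F * F)) (F G : A) :
    |E (F * G)| ≤ nr E F * nr E G := by
  unfold nr
  rw [← Real.sqrt_mul (hE F)]
  exact Real.abs_le_sqrt (sq_le_cs hE F G)

theorem le_nr {E : A →ₗ[ℝ] ℝ} (hE : ∀ F, 0 ≤ E (F * F)) (F G : A) :
    E (F * G) ≤ nr E F * nr E G := (le_abs_self _).trans (abs_le_nr hE F G)

theorem nr_add_le {E : A →ₗ[ℝ] ℝ} (hE : ∀ F, 0 ≤ E (F * F)) (F G : A) :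
    nr E (F + G) ≤ nr E F + nr E G := by
  apply Real.sqrt_le_iff.2
  refine ⟨add_nonneg (nr_nonneg _ _) (nr_nonneg _ _), ?_⟩
  have e : (F + G) * (F + G) = F * F + (2:ℝ) • (F * G) + G * G := by
    simp only [Algebra.smul_def, map_ofNat]
    ring
  rw [e]
  simp only [map_add, map_smul, smul_eq_mul]
  have h1 := nr_sq hE F
  have h2 := nr_sq hE G
  have h3 := le_nr hE F G
  nlinarith

theorem nr_smul (E : A →ₗ[ℝ] ℝ) (c : ℝ) (F : A) : nr E (c • F) = |c| * nr E F := by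
  unfold nr
  have e : (c • F) * (c • F) = (c * c) • (F * F) := by
    simp only [Algebra.smul_def, map_mul]
    ring
  rw [e, map_smul, smul_eq_mul, Real.sqrt_mul (mul_self_nonneg c), Real.sqrt_mul_self_eq_abs]

theorem nr_neg (E : A →ₗ[ℝ] ℝ) (F : A) : nr E (-F) = nr E F := by
  unfold nr
  rw [neg_mul_neg]

theorem nr_sub_le {E : A →ₗ[ℝ] ℝ} (hE : ∀ F, 0 ≤ E (F * F)) (F G : A) :
    nr E (F - G) ≤ nr E F + nr E G := by
  rw [sub_eq_add_neg, ← nr_neg E G]
  exact nr_add_le hE _ _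

theorem nr_sum_le {E : A →ₗ[ℝ] ℝ} (hE : ∀ F, 0 ≤ E (F * F)) {ι : Type*} (s : Finset ι)
    (F : ι → A) : nr E (∑ i ∈ s, F i) ≤ ∑ i ∈ s, nr E (F i) := by
  classical
  induction s using Finset.induction_on with
  | empty => simp [nr]
  | insert a s ha ih =>
    rw [Finset.sum_insert ha, Finset.sum_insert ha]
    exact (nr_add_le hE _ _).trans (by linarith)

/-- dense range is stable under contracting perturbations -/
theorem dense_perturb {E : A →ₗ[ℝ] ℝ} (hE : ∀ F, 0 ≤ E (F * F)) (P Q : A →ₗ[ℝ] A) {θ : ℝ}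
    (hθ0 : 0 ≤ θ) (hθ : θ < 1) (hQ : ∀ u, nr E (Q u) ≤ θ * nr E (P u))
    (hP : ∀ f ε, 0 < ε → ∃ u, nr E (f - P u) ≤ ε) :
    ∀ f ε, 0 < ε → ∃ u, nr E (f - (P + Q) u) ≤ ε := by
  have step : ∀ n : ℕ, ∀ f ε, 0 < ε → ∃ u, nr E (f - (P + Q) u) ≤ θ ^ n * nr E f + ε := by
    intro n
    induction n with
    | zero =>
      intro f ε hε
      refine ⟨0, ?_⟩
      simp only [map_zero, sub_zero, pow_zero, one_mul]
      linarith
    | succ n ih =>
      intro f ε hε
      obtain ⟨u, hu⟩ := ih f (ε / 3) (by linarith)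
      obtain ⟨v, hv⟩ := hP (f - (P + Q) u) (ε / 3) (by linarith)
      refine ⟨u + v, ?_⟩
      have e : f - (P + Q) (u + v) = (f - (P + Q) u - P v) - Q v := by
        simp only [map_add, LinearMap.add_apply]
        ring
      have e2 : P v = (f - (P + Q) u) - (f - (P + Q) u - P v) := by ring
      have h1 : nr E (P v) ≤ θ ^ n * nr E f + ε / 3 + ε / 3 := by
        rw [e2]
        exact (nr_sub_le hE _ _).trans (by linarith)
      rw [e]
      refine (nr_sub_le hE _ _).trans ?_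
      have h2 := hQ v
      have h3 : θ * nr E (P v) ≤ θ * (θ ^ n * nr E f + ε / 3 + ε / 3) :=
        mul_le_mul_of_nonneg_left h1 hθ0
      have h4 : θ * (ε / 3) ≤ ε / 3 := by nlinarith
      rw [pow_succ]
      nlinarith
  intro f ε hε
  have ht := (tendsto_pow_atTop_nhds_zero_of_lt_one hθ0 hθ).mul_const (nr E f)
  rw [zero_mul] at ht
  obtain ⟨n, hn⟩ := (ht.eventually (gt_mem_nhds (half_pos hε))).exists
  obtain ⟨u, hu⟩ := step n f (ε / 2) (half_pos hε)
  exact ⟨u, by linarith⟩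

end PosFun

variable (V : Type*) [NormedRing V] [NormedAlgebra ℝ V]

/-- smooth real functions on `V`, as a subalgebra -/
def SmA : Subalgebra ℝ (V → ℝ) where
  carrier := {F | ContDiff ℝ ∞ F}
  mul_mem' := fun {F G} hF hG => ContDiff.mul (𝕜 := ℝ) (n := ∞) (f := F) (g := G) hF hG
  add_mem' := fun {F G} hF hG => ContDiff.add (𝕜 := ℝ) (n := ∞) (f := F) (g := G) hF hG
  algebraMap_mem' := fun c => (contDiff_const : ContDiff ℝ ∞ (fun _ : V => c))

/-- smooth real functions on `V` -/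
def Sm : Type _ := SmA V

instance : CommRing (Sm V) := inferInstanceAs (CommRing (SmA V))

instance : Algebra ℝ (Sm V) := inferInstanceAs (Algebra ℝ (SmA V))

variable {V}

/-- underlying function -/
def Sm.fn (F : Sm V) : V → ℝ := (show SmA V from F).1

instance : CoeFun (Sm V) (fun _ => V → ℝ) := ⟨Sm.fn⟩

/-- constructor -/
def Sm.mk (F : V → ℝ) (h : ContDiff ℝ ∞ F) : Sm V := (⟨F, h⟩ : SmA V)

@[simp] theorem Sm.coe_mk (F : V → ℝ) (h : ContDiff ℝ ∞ F) : (Sm.mk F h : V → ℝ) = F := rfl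

@[ext] theorem Sm.ext {F G : Sm V} (h : ∀ U, F U = G U) : F = G := Subtype.ext (funext h)

@[simp] theorem Sm.coe_add (F G : Sm V) : ((F + G : Sm V) : V → ℝ) = (F : V → ℝ) + G := rfl

@[simp] theorem Sm.coe_sub (F G : Sm V) : ((F - G : Sm V) : V → ℝ) = (F : V → ℝ) - G := rfl

@[simp] theorem Sm.coe_mul (F G : Sm V) : ((F * G : Sm V) : V → ℝ) = (F : V → ℝ) * G := rfl

@[simp] theorem Sm.coe_neg (F : Sm V) : ((-F : Sm V) : V → ℝ) = -(F : V → ℝ) := rfl

@[simp] theorem Sm.coe_smul (c : ℝ) (F : Sm V) : ((c • F : Sm V) : V → ℝ) = c • (F : V → ℝ) :=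
  rfl

@[simp] theorem Sm.coe_zero : ((0 : Sm V) : V → ℝ) = 0 := rfl

@[simp] theorem Sm.coe_one : ((1 : Sm V) : V → ℝ) = 1 := rfl

theorem Sm.smooth (F : Sm V) : ContDiff ℝ ∞ (F : V → ℝ) := (show SmA V from F).2

theorem Sm.diff (F : Sm V) : Differentiable ℝ (F : V → ℝ) :=
  (Sm.smooth F).differentiable (by simp)

theorem Sm.cont (F : Sm V) : Continuous (F : V → ℝ) := (Sm.smooth F).continuous

theorem Sm.sum_apply {ι : Type*} (s : Finset ι) (F : ι → Sm V) (U : V) :
    ((∑ i ∈ s, F i : Sm V) : V → ℝ) U = ∑ i ∈ s, (F i : V → ℝ) U := by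
  classical
  induction s using Finset.induction_on with
  | empty => simp
  | insert a s ha ih => simp [Finset.sum_insert ha, ih]

theorem smooth_DD (X : V) (F : Sm V) : ContDiff ℝ ∞ (fun U => fderiv ℝ (F : V → ℝ) U (X * U)) :=
  ((Sm.smooth F).fderiv_right (m := ∞) (by simp)).clm_apply (contDiff_const.mul contDiff_id)

/-- derivative along the vector field `U ↦ X U` -/
def DD : V →ₗ[ℝ] Sm V →ₗ[ℝ] Sm V :=
  LinearMap.mk₂ ℝ (fun X F => Sm.mk (fun U => fderiv ℝ (F : V → ℝ) U (X * U)) (smooth_DD X F))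
    (fun X Y F => by
      ext U
      simp [add_mul])
    (fun c X F => by
      ext U
      simp)
    (fun X F G => by
      ext U
      simp [fderiv_add (Sm.diff F U) (Sm.diff G U)])
    (fun c X F => by
      ext U
      simp [fderiv_const_smul (Sm.diff F U)])

theorem DD_apply (X : V) (F : Sm V) (U : V) :
    (DD X F : V → ℝ) U = fderiv ℝ (F : V → ℝ) U (X * U) := rfl

theorem DD_mul (X : V) (F G : Sm V) : DD X (F * G) = DD X F * G + F * DD X G := by
  ext U
  simp only [DD_apply, Sm.coe_mul, Sm.coe_add, Pi.add_apply, Pi.mul_apply]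
  rw [fderiv_mul (Sm.diff F U) (Sm.diff G U)]
  simp
  ring

theorem DD_one (X : V) : DD X (1 : Sm V) = 0 := by
  ext U
  simp [DD_apply, Pi.one_def]

theorem DD_algebraMap (X : V) (c : ℝ) : DD X (algebraMap ℝ (Sm V) c) = 0 := by
  rw [Algebra.algebraMap_eq_smul_one, map_smul, DD_one, smul_zero]

theorem DD_DD_apply (X Y : V) (F : Sm V) (U : V) :
    (DD X (DD Y F) : V → ℝ) U = fderiv ℝ (fderiv ℝ (F : V → ℝ)) U (X * U) (Y * U) +
      fderiv ℝ (F : V → ℝ) U (Y * (X * U)) := by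
  have h1 : DifferentiableAt ℝ (fderiv ℝ (F : V → ℝ)) U :=
    (((Sm.smooth F).fderiv_right (m := ∞) (by simp)).differentiable (by simp)) U
  have h2 : HasFDerivAt (fun U : V => Y * U) (ContinuousLinearMap.mul ℝ V Y) U :=
    (ContinuousLinearMap.mul ℝ V Y).hasFDerivAt
  have h3 := h1.hasFDerivAt.clm_apply h2
  rw [DD_apply]
  change fderiv ℝ (fun U => fderiv ℝ (F : V → ℝ) U (Y * U)) U (X * U) = _
  rw [h3.fderiv]
  simp [add_comm]

theorem DD_comm (X Y : V) (F : Sm V) :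
    DD X (DD Y F) = DD Y (DD X F) - DD (X * Y - Y * X) F := by
  ext U
  simp only [Sm.coe_sub, Pi.sub_apply]
  rw [DD_DD_apply, DD_DD_apply, DD_apply]
  have hs : IsSymmSndFDerivAt ℝ (F : V → ℝ) U :=
    (Sm.smooth F).contDiffAt.isSymmSndFDerivAt (by
      simp only [minSmoothness_of_isRCLikeNormedField]
      exact WithTop.coe_le_coe.2 (le_top : (2 : ℕ∞) ≤ ⊤))
  rw [hs.eq (X * U) (Y * U), sub_mul, map_sub, mul_assoc, mul_assoc]
  ring

theorem DD_comm_of (X Y : V) (h : X * Y = Y * X) (F : Sm V) :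
    DD X (DD Y F) = DD Y (DD X F) := by
  rw [DD_comm, h, sub_self, map_zero, LinearMap.zero_apply, sub_zero]

theorem DD_eq_of_hasDerivAt {X : V} {F : Sm V} {U : V} {y : ℝ}
    (h : HasDerivAt (fun t : ℝ => (F : V → ℝ) (U + t • (X * U))) y 0) :
    (DD X F : V → ℝ) U = y := by
  have h1 : HasDerivAt (fun t : ℝ => U + t • (X * U)) (X * U) 0 := by
    simpa using ((hasDerivAt_id (0:ℝ)).smul_const (X * U)).const_add U
  have h2 := (Sm.diff F (U + (0:ℝ) • (X * U))).hasFDerivAt.comp_hasDerivAt (0:ℝ) h1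
  simp only [zero_smul, add_zero] at h2
  exact h2.unique h

/-- the exponential of a smooth function -/
def Sm.exp (S : Sm V) : Sm V := Sm.mk (fun U => Real.exp ((S : V → ℝ) U)) (Sm.smooth S).exp

theorem DD_exp (X : V) (S : Sm V) : DD X (Sm.exp S) = DD X S * Sm.exp S := by
  ext U
  simp only [DD_apply, Sm.coe_mul, Pi.mul_apply]
  change fderiv ℝ (fun U => Real.exp ((S : V → ℝ) U)) U (X * U) = _ * Real.exp ((S : V → ℝ) U)
  rw [fderiv_exp (Sm.diff S U)]
  simp [mul_comm]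

theorem hasDerivAt_flow [CompleteSpace V] (X W : V) (F : Sm V) (t : ℝ) :
    HasDerivAt (fun t : ℝ => (F : V → ℝ) (NormedSpace.exp (t • X) * W))
      ((DD X F : V → ℝ) (NormedSpace.exp (t • X) * W)) t := by
  have h1 : HasDerivAt (fun t : ℝ => NormedSpace.exp (t • X) * W)
      (X * (NormedSpace.exp (t • X) * W)) t := by
    rw [← mul_assoc]
    exact (hasDerivAt_exp_smul_const' X t).mul_const W
  exact (Sm.diff F _).hasFDerivAt.comp_hasDerivAt t h1

end Pool.Agent.H419Z
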