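import Pool.Agent.H419Z.Bochner

/-! Weighted Bochner inequality and the covariance bound. -/

noncomputable section

namespace Pool.Agent.H419Z

variable {V : Type*} [NormedRing V] [NormedAlgebra ℝ V] {ι κ : Type*} [Fintype κ]

/-- the pointwise estimates satisfied by a plaquette function -/
structure PlaqOK (Pt : Set V) (T : ι → κ → V) (S Ψ : Sm V) (I : Finset ι) (c σ γ : ℝ) : Prop where
  card : I.card ≤ 4
  zero : ∀ e ∉ I, ∀ a, DD (T e a) Ψ = 0
  H1 : ∀ e ∈ I, ∀ f ∈ I, ∀ U ∈ Pt, ∀ y z : κ → ℝ,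
    |∑ a, ∑ b, DD (T e a) (DD (T f b) Ψ) U * y a * z b| ≤ 1 * (√(∑ a, y a ^ 2) * √(∑ b, z b ^ 2))
  H2 : ∀ e ∈ I, ∀ f ∈ I, ∀ g ∈ I, g ≠ e → g ≠ f → ∀ a b,
    ∑ k, DD (T g k) (DD (T g k) (DD (T e a) (DD (T f b) Ψ))) = -c • DD (T e a) (DD (T f b) Ψ)
  H3 : ∀ e ∈ I, ∀ f ∈ I, ∀ g ∈ I, g ≠ e → g ≠ f → ∀ U ∈ Pt, ∀ y z : κ → ℝ,
    |∑ k, ∑ a, ∑ b, DD (T g k) (DD (T e a) (DD (T f b) Ψ)) U * DD (T g k) S U * y a * z b| ≤
      σ * (√(∑ a, y a ^ 2) * √(∑ b, z b ^ 2))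
  H4 : ∀ e ∈ I, ∀ f ∈ I, ∀ g ∈ I, g ≠ e → g ≠ f → ∀ U ∈ Pt, ∀ (y : κ × κ → ℝ) (z : κ → ℝ),
    |∑ k, ∑ a, ∑ b, DD (T g k) (DD (T e a) (DD (T f b) Ψ)) U * y (k, a) * z b| ≤
      γ * (√(∑ p, y p ^ 2) * √(∑ b, z b ^ 2))
  H5 : ∀ e ∈ I, ∀ f ∈ I, ∀ g ∈ I, g ≠ e → g ≠ f → ∀ U ∈ Pt, ∀ (y : κ → ℝ) (z : κ × κ → ℝ),
    |∑ k, ∑ a, ∑ b, DD (T g k) (DD (T e a) (DD (T f b) Ψ)) U * y a * z (k, b)| ≤
      γ * (√(∑ a, y a ^ 2) * √(∑ p, z p ^ 2))

theorem count_le {π α : Type*} (P : Finset π) (s : Finset α) (J : π → α → Prop)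
    [∀ p a, Decidable (J p a)] (F : α → ℝ) (hF : ∀ a, 0 ≤ F a) {M : ℝ}
    (h : ∀ a ∈ s, ((P.filter fun p => J p a).card : ℝ) ≤ M) :
    ∑ p ∈ P, ∑ a ∈ s, (if J p a then F a else 0) ≤ M * ∑ a ∈ s, F a := by
  rw [Finset.sum_comm, Finset.mul_sum]
  refine Finset.sum_le_sum fun a ha => ?_
  rw [← Finset.sum_filter, Finset.sum_const, nsmul_eq_mul]
  exact mul_le_mul_of_nonneg_right (h a ha) (hF a)

theorem plaq_bound [DecidableEq ι] {E : Sm V →ₗ[ℝ] ℝ} {Pt : Set V}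
    (hm : ∀ F G : Sm V, (∀ U ∈ Pt, F U ≤ G U) → E F ≤ E G) {S : Sm V} {T : ι → κ → V}
    (hI : ∀ e a F, E (DD (T e a) F) = -E (DD (T e a) S * F)) {Ψ : Sm V} {I : Finset ι}
    {c σ γ : ℝ} (hc : 0 < c) (hσ : 0 ≤ σ) (hγ : 0 ≤ γ) (h : PlaqOK Pt T S Ψ I c σ γ)
    {w : ι → ℝ} (hw : ∀ e, 0 < w e) {r : ℝ} (hr0 : 0 ≤ r) (hr : ∀ e ∈ I, ∀ f ∈ I, w e ≤ r * w f)
    {β θ : ℝ} (hθ4 : 4 * (|β| * r * σ / c) + 16 / 3 * (|β| * r * γ / c) ^ 2 ≤ θ)
    (hθ2 : |β| * r + |β| * r * σ / c + (|β| * r * γ / c) ^ 2 ≤ θ) (u : Sm V) :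
    ∑ e ∈ I, ∑ f ∈ I, β * w e ^ 2 * tt E T Ψ u e f ≤
      θ * ∑ e ∈ I, w e ^ 2 * gr E T u e + ∑ e ∈ I, ∑ g ∈ I.erase e, w e ^ 2 * hs E T u g e := by
  have hE := pos_of_mono hm
  have key := plaq_ineq I h.card (fun e => w e * √(gr E T u e)) (fun e g => w e * √(hs E T u g e))
    (fun e f => β * w e ^ 2 * tt E T Ψ u e f) (b := |β| * r) (p := |β| * r * σ / c)
    (q := |β| * r * γ / c) (by positivity) (by positivity) ?_ ?_ hθ4 hθ2
  · simpa only [mul_pow, Real.sq_sqrt (gr_nonneg hE _ _ _), Real.sq_sqrt (hs_nonneg hE _ _ _ _)]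
      using key
  · intro e he f hf
    have h1 := tt_le hm u zero_le_one (h.H1 e he f hf)
    have h2 : β * w e ^ 2 * tt E T Ψ u e f ≤ |β| * w e ^ 2 * |tt E T Ψ u e f| := by
      refine (le_abs_self _).trans (le_of_eq ?_)
      rw [abs_mul, abs_mul, abs_sq]
    have h3 := mul_le_mul_of_nonneg_left h1 (by positivity : 0 ≤ |β| * w e ^ 2)
    have h4 := mul_le_mul_of_nonneg_left (hr e he f hf)
      (by have := hw e; positivity : 0 ≤ |β| * w e * √(gr E T u e) * √(gr E T u f))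
    nlinarith
  · intro e he f hf g hg h5 h6
    have h1 := spectator hm hI u hσ hγ (h.H2 e he f hf g hg h5 h6) (h.H3 e he f hf g hg h5 h6)
      (h.H4 e he f hf g hg h5 h6) (h.H5 e he f hf g hg h5 h6)
    rw [abs_mul, abs_of_pos hc, ← le_div_iff₀' hc] at h1
    have h2 : β * w e ^ 2 * tt E T Ψ u e f ≤ |β| * w e ^ 2 * |tt E T Ψ u e f| := by
      refine (le_abs_self _).trans (le_of_eq ?_)
      rw [abs_mul, abs_mul, abs_sq]
    have h3 := mul_le_mul_of_nonneg_left h1 (by positivity : 0 ≤ |β| * w e ^ 2)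
    have h4 := mul_le_mul_of_nonneg_left (hr e he f hf)
      (by have := hw e; positivity : 0 ≤ |β| * w e * ((σ * (√(gr E T u e) * √(gr E T u f)) +
        γ * (√(hs E T u g e) * √(gr E T u f) + √(hs E T u g f) * √(gr E T u e))) / c))
    refine h2.trans (h3.trans ?_)
    calc _ = _ := by ring
      _ ≤ _ := h4
      _ = _ := by ring

theorem tt_sum {π : Type*} (E : Sm V →ₗ[ℝ] ℝ) (T : ι → κ → V) (P : Finset π) (Ψ : π → Sm V)
    (β : ℝ) (u : Sm V) (e f : ι) :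
    tt E T (β • ∑ p ∈ P, Ψ p) u e f = ∑ p ∈ P, β * tt E T (Ψ p) u e f := by
  simp only [tt, map_smul, map_sum, smul_mul_assoc, Finset.sum_mul, smul_eq_mul, Finset.mul_sum]
  rw [Finset.sum_comm (s := P)]
  refine Finset.sum_congr rfl fun a _ => ?_
  rw [Finset.sum_comm (s := P)]

theorem weighted_bochner [Fintype ι] [DecidableEq ι] {E : Sm V →ₗ[ℝ] ℝ} {Pt : Set V}
    (hm : ∀ F G : Sm V, (∀ U ∈ Pt, F U ≤ G U) → E F ≤ E G) {S : Sm V} {T : ι → κ → V}
    (hI : ∀ e a F, E (DD (T e a) F) = -E (DD (T e a) S * F))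
    (hcomm : ∀ e f, e ≠ f → ∀ a b, T e a * T f b = T f b * T e a) {ρ : ℝ}
    (hd : ∀ u e, ρ * gr E T u e - tt E T S u e e ≤ E (Gen S (T e) u * Gen S (T e) u))
    {π : Type*} (P : Finset π) (Ψ : π → Sm V) (I : π → Finset ι) {β : ℝ}
    (hS : S = β • ∑ p ∈ P, Ψ p)
    {c σ γ : ℝ} (hc : 0 < c) (hσ : 0 ≤ σ) (hγ : 0 ≤ γ)
    (h : ∀ p ∈ P, PlaqOK Pt T S (Ψ p) (I p) c σ γ) {M : ℝ}
    (hM : ∀ e, ((P.filter fun p => e ∈ I p).card : ℝ) ≤ M)
    (hM1 : ∀ e f, e ≠ f → (P.filter fun p => e ∈ I p ∧ f ∈ I p).card ≤ 1)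
    {w : ι → ℝ} (hw : ∀ e, 0 < w e) {r : ℝ} (hr0 : 0 ≤ r)
    (hr : ∀ p ∈ P, ∀ e ∈ I p, ∀ f ∈ I p, w e ≤ r * w f)
    {θ : ℝ} (hθ4 : 4 * (|β| * r * σ / c) + 16 / 3 * (|β| * r * γ / c) ^ 2 ≤ θ)
    (hθ2 : |β| * r + |β| * r * σ / c + (|β| * r * γ / c) ^ 2 ≤ θ) (u : Sm V) :
    (ρ - M * θ) * ∑ e, w e ^ 2 * gr E T u e ≤
      E ((∑ e, w e ^ 2 • Gen S (T e) u) * ∑ e, Gen S (T e) u) := by
  have hE := pos_of_mono hm
  have hθ0 : 0 ≤ θ := le_trans (by positivity) hθ4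
  have a1 : ∑ e, ∑ f, w e ^ 2 * tt E T S u e f =
      ∑ p ∈ P, ∑ e ∈ I p, ∑ f ∈ I p, β * w e ^ 2 * tt E T (Ψ p) u e f := by
    have : ∀ e f, w e ^ 2 * tt E T S u e f = ∑ p ∈ P, β * w e ^ 2 * tt E T (Ψ p) u e f := by
      intro e f
      conv_lhs => rw [hS, tt_sum, Finset.mul_sum]
      exact Finset.sum_congr rfl fun p _ => by ring
    simp only [this]
    rw [Finset.sum_congr rfl fun e _ => Finset.sum_comm, Finset.sum_comm]
    refine Finset.sum_congr rfl fun p hp => ?_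
    symm
    have z1 : ∀ e f, f ∉ I p → tt E T (Ψ p) u e f = 0 := by
      intro e f hf
      simp [tt, (h p hp).zero f hf]
    rw [Finset.sum_subset (Finset.subset_univ (I p))]
    · refine Finset.sum_congr rfl fun e _ => Finset.sum_subset (Finset.subset_univ _) ?_
      intro f _ hf
      rw [z1 e f hf, mul_zero]
    · intro e _ he
      refine Finset.sum_eq_zero fun f hf => ?_
      have hef : e ≠ f := fun h => he (h ▸ hf)
      have : tt E T (Ψ p) u e f = 0 := by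
        simp [tt, DD_comm_of _ _ (hcomm e f hef _ _), (h p hp).zero e he]
      rw [this, mul_zero]
  have a2 : ∑ p ∈ P, ∑ e ∈ I p, w e ^ 2 * gr E T u e ≤ M * ∑ e, w e ^ 2 * gr E T u e := by
    have := count_le P Finset.univ (fun p e => e ∈ I p) (fun e => w e ^ 2 * gr E T u e)
      (fun e => mul_nonneg (sq_nonneg _) (gr_nonneg hE _ _ _)) (fun e _ => hM e)
    simpa using this
  have a3 : ∑ p ∈ P, ∑ e ∈ I p, ∑ g ∈ (I p).erase e, w e ^ 2 * hs E T u g e ≤
      ∑ e, ∑ g ∈ Finset.univ.erase e, w e ^ 2 * hs E T u g e := by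
    have e1 : ∀ p, ∑ e ∈ I p, ∑ g ∈ (I p).erase e, w e ^ 2 * hs E T u g e =
        ∑ e, ∑ g ∈ Finset.univ.erase e,
          if e ∈ I p ∧ g ∈ I p then w e ^ 2 * hs E T u g e else 0 := by
      intro p
      rw [← Finset.sum_subset (Finset.subset_univ (I p))]
      · refine Finset.sum_congr rfl fun e he => ?_
        rw [← Finset.sum_filter]
        refine Finset.sum_congr ?_ fun _ _ => rfl
        ext g
        simp [he]
      · intro e _ he
        simp [he]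
    simp only [e1]
    rw [Finset.sum_comm]
    refine Finset.sum_le_sum fun e _ => ?_
    have := count_le P (Finset.univ.erase e) (fun p g => e ∈ I p ∧ g ∈ I p)
      (fun g => w e ^ 2 * hs E T u g e) (M := 1)
      (fun g => mul_nonneg (sq_nonneg _) (hs_nonneg hE _ _ _ _))
      (fun g hg => by exact_mod_cast hM1 e g (Finset.ne_of_mem_erase hg).symm)
    simpa using this
  have a4 : ∑ e, ∑ f, w e ^ 2 * tt E T S u e f ≤ θ * (M * ∑ e, w e ^ 2 * gr E T u e) +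
      ∑ e, ∑ g ∈ Finset.univ.erase e, w e ^ 2 * hs E T u g e := by
    rw [a1]
    refine (Finset.sum_le_sum fun p hp =>
      plaq_bound hm hI hc hσ hγ (h p hp) hw hr0 (hr p hp) hθ4 hθ2 u).trans ?_
    rw [Finset.sum_add_distrib, ← Finset.mul_sum]
    exact add_le_add (mul_le_mul_of_nonneg_left a2 hθ0) a3
  have a5 : ∀ e, ρ * (w e ^ 2 * gr E T u e) + ∑ g ∈ Finset.univ.erase e, w e ^ 2 * hs E T u g e -
      ∑ f, w e ^ 2 * tt E T S u e f ≤ ∑ f, w e ^ 2 * E (Gen S (T e) u * Gen S (T f) u) := by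
    intro e
    rw [← Finset.add_sum_erase _ _ (Finset.mem_univ e),
      ← Finset.add_sum_erase _ (fun f => w e ^ 2 * E (Gen S (T e) u * Gen S (T f) u))
        (Finset.mem_univ e)]
    have h1 := mul_le_mul_of_nonneg_left (hd u e) (sq_nonneg (w e))
    have h2 : ∑ f ∈ Finset.univ.erase e, w e ^ 2 * E (Gen S (T e) u * Gen S (T f) u) =
        ∑ g ∈ Finset.univ.erase e, w e ^ 2 * hs E T u g e -
          ∑ f ∈ Finset.univ.erase e, w e ^ 2 * tt E T S u e f := by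
      rw [← Finset.sum_sub_distrib]
      refine Finset.sum_congr rfl fun f hf => ?_
      rw [LL_off hI u (hcomm e f (Finset.ne_of_mem_erase hf).symm), mul_sub]
    linarith
  have a6 := Finset.sum_le_sum fun e (_ : e ∈ Finset.univ) => a5 e
  rw [Finset.sum_sub_distrib, Finset.sum_add_distrib, ← Finset.mul_sum] at a6
  rw [Finset.sum_mul_sum]
  simp only [map_sum, smul_mul_assoc, map_smul, smul_eq_mul]
  linarith

theorem cs_sum [Fintype ι] {E : Sm V →ₗ[ℝ] ℝ} (hE : ∀ F, 0 ≤ E (F * F)) (T : ι → κ → V)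
    (c d : ι → ℝ) (u v : Sm V) :
    |∑ e, c e * d e * ∑ a, E (DD (T e a) u * DD (T e a) v)| ≤
      √(∑ e, c e ^ 2 * gr E T u e) * √(∑ e, d e ^ 2 * gr E T v e) := by
  have h1 : ∀ e, |∑ a, E (DD (T e a) u * DD (T e a) v)| ≤ √(gr E T u e) * √(gr E T v e) := by
    intro e
    refine (Finset.abs_sum_le_sum_abs _ _).trans ?_
    refine (Finset.sum_le_sum fun a _ => abs_le_nr hE _ _).trans ?_
    refine (Real.sum_mul_le_sqrt_mul_sqrt _ _ _).trans (le_of_eq ?_)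
    simp only [nr_sq hE, gr]
  refine (Finset.abs_sum_le_sum_abs _ _).trans ?_
  have h2 : ∀ e, |c e * d e * ∑ a, E (DD (T e a) u * DD (T e a) v)| ≤
      (|c e| * √(gr E T u e)) * (|d e| * √(gr E T v e)) := by
    intro e
    rw [abs_mul, abs_mul]
    have := mul_le_mul_of_nonneg_left (h1 e) (by positivity : 0 ≤ |c e| * |d e|)
    linarith
  refine (Finset.sum_le_sum fun e _ => h2 e).trans ?_
  refine (Real.sum_mul_le_sqrt_mul_sqrt _ _ _).trans (le_of_eq ?_)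
  simp only [mul_pow, sq_abs, Real.sq_sqrt (gr_nonneg hE _ _ _)]

theorem le_of_quad {K A F B : ℝ} (hK : 0 < K) (hF : 0 ≤ F) (hB : 0 ≤ B)
    (h : K * A ^ 2 ≤ A * F + B) : A ≤ F / K + √(B / K) := by
  by_contra hc
  push Not at hc
  have h1 := Real.sq_sqrt (div_nonneg hB hK.le)
  have h2 := Real.sqrt_nonneg (B / K)
  set s := √(B / K)
  have h3 : B = K * s ^ 2 := by rw [h1]; field_simp
  have h4 : F = K * (F / K) := by field_simp
  have h5 : 0 ≤ F / K := by positivity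
  set t := F / K
  rw [h3, h4] at h
  have h6 : A ^ 2 ≤ A * t + s ^ 2 := by
    apply le_of_mul_le_mul_left _ hK
    linarith
  nlinarith

theorem cov_bound [Fintype ι] [DecidableEq ι] {E : Sm V →ₗ[ℝ] ℝ} (hE : ∀ F, 0 ≤ E (F * F))
    (hE1 : E 1 = 1) {S : Sm V} {T : ι → κ → V}
    (hI : ∀ e a F, E (DD (T e a) F) = -E (DD (T e a) S * F)) {w : ι → ℝ} (hw : ∀ e, 0 < w e)
    {K : ℝ} (hK : 0 < K)
    (hB : ∀ u, K * ∑ e, w e ^ 2 * gr E T u e ≤
      E ((∑ e, w e ^ 2 • Gen S (T e) u) * ∑ e, Gen S (T e) u))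
    {C : ℝ} (hC0 : 0 ≤ C) (hC : ∀ u e f, e ≠ f →
      -(C * (√(gr E T u e) * √(gr E T u f))) ≤ E (Gen S (T e) u * Gen S (T f) u))
    {CP : ℝ} (hCP : 0 ≤ CP)
    (hP : ∀ u, ∃ m : ℝ, nr E (u - algebraMap ℝ _ m) ≤ CP * √(∑ e, gr E T u e))
    {l0 : ℝ} (hl0 : 0 < l0) (hR : ∀ l, 0 < l → l ≤ l0 → ∀ f ε, 0 < ε →
      ∃ u, nr E (f - Res S (fun p : ι × κ => T p.1 p.2) l u) ≤ ε) (f g : Sm V) :
    |E (f * g) - E f * E g| ≤
      √(∑ e, w e ^ 2 * gr E T f e) * √(∑ e, (w e)⁻¹ ^ 2 * gr E T g e) / K := by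
  set F := √(∑ e, w e ^ 2 * gr E T f e) with hF
  set G := √(∑ e, (w e)⁻¹ ^ 2 * gr E T g e) with hG
  have hF0 : 0 ≤ F := Real.sqrt_nonneg _
  set g0 := g - algebraMap ℝ _ (E g) with hg0
  have hI' : ∀ (p : ι × κ) F, E (DD (T p.1 p.2) F) = -E (DD (T p.1 p.2) S * F) :=
    fun p => hI p.1 p.2
  have hc1 : ∀ (m : ℝ) (v : Sm V), E (algebraMap ℝ _ m * v) = m * E v := by
    intro m v
    rw [← Algebra.smul_def, map_smul, smul_eq_mul]
  have hEg0 : E g0 = 0 := by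
    rw [hg0, map_sub, ← mul_one (algebraMap ℝ (Sm V) (E g)), hc1, hE1, mul_one, sub_self]
  have hcov : E (f * g) - E f * E g = E (f * g0) := by
    rw [hg0, mul_sub, map_sub, mul_comm f (algebraMap ℝ _ _), hc1, mul_comm (E f)]
  have hGen : ∀ u, Gen S (fun p : ι × κ => T p.1 p.2) u = ∑ e, Gen S (T e) u := by
    intro u
    simp only [Gen_apply, Fintype.sum_prod_type]
  set W := √(∑ e, (w e)⁻¹ ^ 2) with hW
  have main : ∀ l, 0 < l → l ≤ l0 → ∃ B, 0 ≤ B ∧ ∀ ε, 0 < ε → ε ≤ 1 →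
      |E (f * g0)| ≤ (l * (CP * W * nr E g0) + G) * (F / K + √(B * ε / K)) + ε * nr E g0 := by
    intro l hl hl1
    set n := nr E f + 1 with hn
    have hn0 : 0 ≤ n := by have := nr_nonneg E f; positivity
    set Γ := n ^ 2 / (4 * l) with hΓ
    set D := √((2 * n) ^ 2 + ∑ _e : ι, ∑ _f : ι, C * Γ) with hD
    refine ⟨∑ e, w e ^ 2 * D, by positivity, fun ε hε hε1 => ?_⟩
    obtain ⟨u, hu⟩ := hR l hl hl1 f ε hε
    set R := Res S (fun p : ι × κ => T p.1 p.2) l u with hRu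
    set A := √(∑ e, w e ^ 2 * gr E T u e) with hA
    have hA0 : 0 ≤ A := Real.sqrt_nonneg _
    have hA2 : A ^ 2 = ∑ e, w e ^ 2 * gr E T u e := Real.sq_sqrt
      (Finset.sum_nonneg fun e _ => mul_nonneg (sq_nonneg _) (gr_nonneg hE _ _ _))
    have r1 : nr E R ≤ n := by
      have : R = f - (f - R) := by ring
      rw [this]
      exact (nr_sub_le hE _ _).trans (by linarith)
    have r2 : ∑ e, gr E T u e ≤ Γ := by
      have := grad_le_Res hE hI' hl u
      rw [Fintype.sum_prod_type] at this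
      rw [hΓ, le_div_iff₀ (by positivity), mul_comm]
      exact this.trans (pow_le_pow_left₀ (nr_nonneg _ _) r1 2)
    have r3 : nr E (∑ e, Gen S (T e) u) ≤ 2 * n := by
      have : ∑ e, Gen S (T e) u = l • u - R := by
        rw [hRu, Res_apply, hGen]
        ring
      rw [this]
      refine (nr_sub_le hE _ _).trans ?_
      rw [nr_smul, abs_of_pos hl]
      have := nr_le_Res hE hI' l u
      linarith
    have r4 : ∀ e, nr E (Gen S (T e) u) ≤ D := by
      intro e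
      apply Real.sqrt_le_sqrt
      have h1 := pow_le_pow_left₀ (nr_nonneg _ _) r3 2
      rw [nr_sq hE, Finset.sum_mul_sum] at h1
      simp only [map_sum] at h1
      have hg : ∀ e, √(gr E T u e) ≤ √Γ := fun e => Real.sqrt_le_sqrt
        ((Finset.single_le_sum (fun e _ => gr_nonneg hE T u e) (Finset.mem_univ e)).trans r2)
      have h2 : ∀ e f, 0 ≤ E (Gen S (T e) u * Gen S (T f) u) + C * Γ := by
        intro e f
        by_cases hef : e = f
        · subst hef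
          have := hE (Gen S (T e) u)
          positivity
        · have h3 := hC u e f hef
          have h4 : √(gr E T u e) * √(gr E T u f) ≤ Γ :=
            (mul_le_mul (hg e) (hg f) (Real.sqrt_nonneg _) (Real.sqrt_nonneg _)).trans
              (le_of_eq (Real.mul_self_sqrt (by positivity)))
          have := mul_le_mul_of_nonneg_left h4 hC0
          linarith
      have h3 := Finset.single_le_sum
        (f := fun e => ∑ f, (E (Gen S (T e) u * Gen S (T f) u) + C * Γ))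
        (fun e _ => Finset.sum_nonneg fun f _ => h2 e f) (Finset.mem_univ e)
      have h4 := Finset.single_le_sum
        (f := fun f => E (Gen S (T e) u * Gen S (T f) u) + C * Γ)
        (fun f _ => h2 e f) (Finset.mem_univ e)
      have h5 : 0 ≤ C * Γ := by positivity
      simp only [Finset.sum_add_distrib] at h3 h4
      linarith
    have r5 : nr E (∑ e, w e ^ 2 • Gen S (T e) u) ≤ ∑ e, w e ^ 2 * D := by
      refine (nr_sum_le hE _ _).trans (Finset.sum_le_sum fun e _ => ?_)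
      rw [nr_smul, abs_sq]
      exact mul_le_mul_of_nonneg_left (r4 e) (sq_nonneg _)
    have adj : ∀ v, E ((∑ e, w e ^ 2 • Gen S (T e) u) * v) =
        -∑ e, w e * w e * ∑ a, E (DD (T e a) u * DD (T e a) v) := by
      intro v
      rw [Finset.sum_mul, map_sum, ← Finset.sum_neg_distrib]
      refine Finset.sum_congr rfl fun e _ => ?_
      rw [smul_mul_assoc, map_smul, Gen_adj (hI e), smul_eq_mul]
      ring
    have r6 : K * A ^ 2 ≤ A * F + (∑ e, w e ^ 2 * D) * ε := by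
      have h1 := hB u
      have h2 : ∑ e, Gen S (T e) u = l • u - f + (f - R) := by
        rw [hRu, Res_apply, hGen]
        ring
      rw [h2, mul_add, mul_sub, map_add, map_sub, mul_smul_comm, map_smul, adj u, adj f,
        ← hA2, smul_eq_mul] at h1
      have h3 := le_of_abs_le (cs_sum hE T w w u f)
      have h4 := le_nr hE (∑ e, w e ^ 2 • Gen S (T e) u) (f - R)
      have h5 := mul_le_mul r5 hu (nr_nonneg _ _) (by positivity)
      have h6 : 0 ≤ l * ∑ e, w e * w e * ∑ a, E (DD (T e a) u * DD (T e a) u) :=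
        mul_nonneg hl.le (Finset.sum_nonneg fun e _ =>
          mul_nonneg (mul_self_nonneg _) (gr_nonneg hE T u e))
      linarith
    have r7 := le_of_quad hK hF0 (by positivity) r6
    have r8 : √(∑ e, gr E T u e) ≤ W * A := by
      rw [hW, hA, ← Real.sqrt_mul (by positivity)]
      apply Real.sqrt_le_sqrt
      rw [Finset.sum_mul]
      refine Finset.sum_le_sum fun e _ => ?_
      have h1 := Finset.single_le_sum (f := fun e => w e ^ 2 * gr E T u e)
        (fun e _ => mul_nonneg (sq_nonneg _) (gr_nonneg hE T u e)) (Finset.mem_univ e)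
      have h2 := mul_le_mul_of_nonneg_left h1 (sq_nonneg (w e)⁻¹)
      rwa [← mul_assoc, ← mul_pow, inv_mul_cancel₀ (hw e).ne', one_pow, one_mul] at h2
    obtain ⟨m, hm⟩ := hP u
    have r9 : |E (u * g0)| ≤ CP * (W * A) * nr E g0 := by
      have : E (u * g0) = E ((u - algebraMap ℝ _ m) * g0) := by
        rw [sub_mul, map_sub, hc1, hEg0, mul_zero, sub_zero]
      rw [this]
      refine (abs_le_nr hE _ _).trans (mul_le_mul_of_nonneg_right ?_ (nr_nonneg _ _))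
      exact hm.trans (mul_le_mul_of_nonneg_left r8 hCP)
    have r10 : |∑ p : ι × κ, E (DD (T p.1 p.2) u * DD (T p.1 p.2) g0)| ≤ A * G := by
      have := cs_sum hE T w (fun e => (w e)⁻¹) u g
      rw [Fintype.sum_prod_type]
      simpa only [hg0, map_sub, DD_algebraMap, sub_zero, mul_inv_cancel₀ (hw _).ne', one_mul]
        using this
    have r11 : |E ((f - R) * g0)| ≤ ε * nr E g0 :=
      (abs_le_nr hE _ _).trans (mul_le_mul_of_nonneg_right hu (nr_nonneg _ _))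
    have r12 : E (f * g0) = l * E (u * g0) +
        ∑ p : ι × κ, E (DD (T p.1 p.2) u * DD (T p.1 p.2) g0) + E ((f - R) * g0) := by
      rw [← Res_form hI', ← map_add]
      congr 1
      ring
    rw [r12]
    refine (abs_add_three _ _ _).trans ?_
    rw [abs_mul, abs_of_pos hl]
    have h1 := mul_le_mul_of_nonneg_left r9 hl.le
    have h2 := mul_le_mul_of_nonneg_left r7 (by
      have := nr_nonneg E g0
      positivity : 0 ≤ l * (CP * W * nr E g0) + G)
    nlinarith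
  have main2 : ∀ l, 0 < l → l ≤ l0 → |E (f * g0)| ≤ (l * (CP * W * nr E g0) + G) * (F / K) := by
    intro l hl hl1
    obtain ⟨B, -, hB⟩ := main l hl hl1
    have hc : Continuous fun ε : ℝ =>
        (l * (CP * W * nr E g0) + G) * (F / K + √(B * ε / K)) + ε * nr E g0 := by fun_prop
    have ht := (hc.tendsto 0).mono_left (nhdsWithin_le_nhds (s := Set.Ioi 0))
    simp only [mul_zero, zero_div, Real.sqrt_zero, add_zero, zero_mul] at ht
    refine ge_of_tendsto ht ?_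
    filter_upwards [Ioc_mem_nhdsGT zero_lt_one] with ε hε using hB ε hε.1 hε.2
  have hc : Continuous fun l : ℝ => (l * (CP * W * nr E g0) + G) * (F / K) := by fun_prop
  have ht := (hc.tendsto 0).mono_left (nhdsWithin_le_nhds (s := Set.Ioi 0))
  simp only [zero_mul, zero_add] at ht
  rw [hcov]
  refine (ge_of_tendsto ht ?_).trans (le_of_eq (by ring))
  filter_upwards [Ioc_mem_nhdsGT hl0] with l hl using main2 l hl.1 hl.2

end Pool.Agent.H419Z
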