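import Mathlib

/-!
Wilson lattice Yang-Mills theory with gauge group `SU(N)` on `ℤ^d`: definitions.
-/

open MeasureTheory Matrix
open scoped Matrix.Norms.Frobenius ContDiff

noncomputable section

namespace Pool.Agent.H419Z

/-- complex `N × N` matrices, with the Frobenius (Hilbert-Schmidt) norm -/
abbrev Mat (N : ℕ) := Matrix (Fin N) (Fin N) ℂ

/-- the special unitary group `SU(N)` -/
abbrev SU (N : ℕ) := Matrix.specialUnitaryGroup (Fin N) ℂ

instance instTopGroupSU (N : ℕ) : IsTopologicalGroup (SU N) where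
  continuous_mul := continuous_mul
  continuous_inv := Continuous.subtype_mk (continuous_star.comp continuous_subtype_val) _

instance instCompactSU (N : ℕ) : CompactSpace (SU N) := by
  have h0 : IsClosed ((Matrix.unitaryGroup (Fin N) ℂ : Submonoid (Mat N)) : Set (Mat N)) :=
    isClosed_unitary
  have h1 : IsClosed ((Matrix.specialUnitaryGroup (Fin N) ℂ : Submonoid (Mat N)) :
      Set (Mat N)) :=
    h0.inter (isClosed_eq (continuous_id.matrix_det) continuous_const)
  have h2 : IsCompact (Set.pi Set.univ fun _ : Fin N => Set.pi Set.univ fun _ : Fin N =>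
      Metric.closedBall (0 : ℂ) 1) :=
    isCompact_univ_pi fun _ => isCompact_univ_pi fun _ => isCompact_closedBall _ _
  refine isCompact_iff_compactSpace.mp (h2.of_isClosed_subset h1 ?_)
  intro u hu i _ j _
  rw [mem_closedBall_zero_iff]
  exact entry_norm_bound_of_unitary hu.1 i j

/-- the Borel sigma-algebra of `SU(N)` -/
instance instMeasSU (N : ℕ) : MeasurableSpace (SU N) := borel _

instance instBorelSU (N : ℕ) : BorelSpace (SU N) := ⟨rfl⟩

/-- normalised Haar measure of `SU(N)` -/
def haar (N : ℕ) : Measure (SU N) := Measure.haarMeasure ⊤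

/-- sites of `ℤ^d` -/
abbrev Site (d : ℕ) := Fin d → ℤ

/-- positively oriented edges: `(x, i)` goes from `x` to `x + e_i` -/
abbrev Link (d : ℕ) := Site d × Fin d

/-- plaquettes: `(x, i, j)` with `i < j` has corners `x`, `x + e_i`, `x + e_i + e_j`, `x + e_j` -/
abbrev Plaq (d : ℕ) := {p : Site d × Fin d × Fin d // p.2.1 < p.2.2}

variable {d N : ℕ}

/-- the plaquette variable `U_p = U(x,i) U(x+e_i,j) U(x+e_j,i)⁻¹ U(x,j)⁻¹` -/
def plaqVar (U : Link d → SU N) (p : Plaq d) : SU N :=
  U (p.1.1, p.1.2.1) * U (p.1.1 + Pi.single p.1.2.1 1, p.1.2.2) *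
    (U (p.1.1 + Pi.single p.1.2.2 1, p.1.2.1))⁻¹ * (U (p.1.1, p.1.2.2))⁻¹

/-- Wilson action `b ∑_{p ∈ P} Re Tr U_p` -/
def action (b : ℝ) (P : Finset (Plaq d)) (U : Link d → SU N) : ℝ :=
  b * ∑ p ∈ P, (plaqVar U p : Mat N).trace.re

/-- the configuration equal to `U` on `Λ` and to the boundary condition `η` off `Λ` -/
def glue (Λ : Finset (Link d)) (η : Link d → SU N) (U : Λ → SU N) : Link d → SU N :=
  fun e => if h : e ∈ Λ then U ⟨e, h⟩ else η e

/-- Gibbs expectation: the links of `Λ` are integrated against product Haar measure with weight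
`exp (b ∑_{p ∈ P} Re Tr U_p)`, the other links are frozen to `η`. -/
def gibbs (b : ℝ) (P : Finset (Plaq d)) (Λ : Finset (Link d)) (η : Link d → SU N)
    (F : (Link d → SU N) → ℝ) : ℝ :=
  (∫ U, F (glue Λ η U) * Real.exp (action b P (glue Λ η U)) ∂(Measure.pi fun _ => haar N)) /
    ∫ U, Real.exp (action b P (glue Λ η U)) ∂(Measure.pi fun _ => haar N)

/-- covariance under the Gibbs measure -/
def cov (b : ℝ) (P : Finset (Plaq d)) (Λ : Finset (Link d)) (η : Link d → SU N)
    (F G : (Link d → SU N) → ℝ) : ℝ :=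
  gibbs b P Λ η (fun U => F U * G U) - gibbs b P Λ η F * gibbs b P Λ η G

/-- `F` is a smooth function of the links in `A`, whose gradient along `SU(N)` in the link `e`
has Hilbert-Schmidt norm at most `a e`. -/
def IsObs (A : Finset (Link d)) (a : Link d → ℝ) (F : (Link d → SU N) → ℝ) : Prop :=
  ∃ φ : (A → Mat N) → ℝ, ContDiff ℝ ∞ φ ∧ (∀ U, F U = φ fun e => U e) ∧
    ∀ (U : Link d → SU N) (e : A) (X : Mat N), Xᴴ = -X → X.trace = 0 →
      |fderiv ℝ φ (fun e => U e) (Pi.single e (X * U e))| ≤ a e * ‖X‖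

end Pool.Agent.H419Z
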