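import Pool.Agent.H419Z.Lattice

/-! Exponential decay of correlations. -/

open Matrix MeasureTheory
open scoped Matrix.Norms.Frobenius ContDiff

set_option maxHeartbeats 400000

noncomputable section

namespace Pool.Agent.H419Z

theorem consts {n s β ρ : ℝ} (hn : 2 ≤ n) (hs : 1 ≤ s) (hρ : 7 / 8 ≤ ρ) (hρ1 : ρ ≤ 1)
    (h : β ^ 2 * s * (64 * s * n / (n + 1) + 64 / 3 * n ^ 2 / (n ^ 2 - 1)) ≤ ρ) {r c σ : ℝ}
    (hr : 1 ≤ r) (hc : c = n - n⁻¹) (hσ : σ = |n * β| * (2 * s) * (2 - 2 / n)) :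
    4 * (|n * β| * r * σ / c) + 16 / 3 * (|n * β| * r * √c / c) ^ 2 ≤ r ^ 2 * ρ * n / (4 * s) ∧
    |n * β| * r + |n * β| * r * σ / c + (|n * β| * r * √c / c) ^ 2 ≤ r ^ 2 * ρ * n / (4 * s) := by
  have hn0 : 0 < n := by linarith
  have h1 : 0 < n ^ 2 - 1 := by nlinarith
  have h1' : n - 1 ≠ 0 := by linarith
  have hc' : c = (n ^ 2 - 1) / n := by rw [hc]; field_simp
  have hc0 : 0 < c := by rw [hc']; positivity
  set y := |β| with hy
  have hy0 : 0 ≤ y := abs_nonneg β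
  rw [← sq_abs β, ← hy] at h
  rw [abs_mul, abs_of_pos hn0, ← hy] at hσ ⊢
  set A := n / (n + 1) with hA
  set B := n ^ 2 / (n ^ 2 - 1) with hB
  have hA0 : 2 / 3 ≤ A := by
    rw [hA, le_div_iff₀ (by linarith)]
    linarith
  have hB0 : 0 ≤ B := by positivity
  have e1 : n * y * r * σ / c = r * n * (4 * s * y ^ 2 * A) := by
    rw [hσ, hc', hA, show n ^ 2 - 1 = (n - 1) * (n + 1) by ring]
    field_simp
    ring
  have e2 : (n * y * r * √c / c) ^ 2 = r ^ 2 * n * (y ^ 2 * B) := by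
    rw [div_pow, mul_pow, Real.sq_sqrt hc0.le, hc', hB]
    field_simp
  have h2 : y ^ 2 * s * (64 * s * A + 64 / 3 * B) ≤ ρ := by
    convert h using 3 <;> simp only [hA, hB] <;> ring
  have hr2 : r ≤ r ^ 2 := by nlinarith
  have hQ1 : 0 ≤ 4 * s * y ^ 2 * A := by positivity
  have hQ2 : 0 ≤ y ^ 2 * B * s := by positivity
  have h3 : 4 * s * y ≤ 5 / 8 := by
    have : (4 * s * y) ^ 2 * (2 / 3) ≤ (4 * s * y) ^ 2 * A :=
      mul_le_mul_of_nonneg_left hA0 (sq_nonneg _)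
    nlinarith
  rw [e1, e2]
  have k1 := mul_le_mul_of_nonneg_right hr2 (by positivity : 0 ≤ n * (4 * s * y ^ 2 * A) * s)
  have k2 := mul_le_mul_of_nonneg_right hr2 (by positivity : 0 ≤ n * y * s)
  have k3 := mul_le_mul_of_nonneg_left h2 (by positivity : 0 ≤ r ^ 2 * n)
  have k4 := mul_le_mul_of_nonneg_left h3 (by positivity : 0 ≤ r ^ 2 * n)
  have k5 := mul_le_mul_of_nonneg_left hρ (by positivity : 0 ≤ r ^ 2 * n)
  have k6 := mul_le_mul_of_nonneg_left hρ1 (by positivity : 0 ≤ r ^ 2 * n)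
  have k7 := mul_nonneg (by positivity : 0 ≤ r ^ 2 * n) hQ2
  constructor
  · rw [le_div_iff₀ (by linarith)]
    linarith
  · rw [le_div_iff₀ (by linarith)]
    linarith

theorem mass_gap (ρ : ℝ) (hρ : ρ < 1) : ∃ C κ : ℝ, 0 < κ ∧ ∀ (d N : ℕ) (β : ℝ), 2 ≤ d → 2 ≤ N →
    β ^ 2 * (d - 1) * (64 * (d - 1) * N / (N + 1) + 64 / 3 * N ^ 2 / (N ^ 2 - 1)) ≤ ρ →
    ∀ (P : Finset (Plaq d)) (Λ : Finset (Link d)) (η : Link d → SU N) (A B : Finset (Link d))
      (a b : Link d → ℝ) (F G : (Link d → SU N) → ℝ) (R : ℝ), IsObs A a F → IsObs B b G →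
      (∀ e ∈ A, ∀ f ∈ B, R ≤ dist e.1 f.1) →
      |cov (N * β) P Λ η F G| ≤
        C / N * Real.exp (-κ * R) * √(∑ e ∈ A, a e ^ 2) * √(∑ e ∈ B, b e ^ 2) := by
  set ρ1 := max ρ (7 / 8) with hρ1
  have h1 : 7 / 8 ≤ ρ1 := le_max_right _ _
  have h2 : ρ1 < 1 := max_lt hρ (by norm_num)
  set r := √((1 + ρ1) / (2 * ρ1)) with hr
  have hr2 : r ^ 2 = (1 + ρ1) / (2 * ρ1) := Real.sq_sqrt (by positivity)
  have hr1 : 1 < r := by
    rw [hr, Real.lt_sqrt zero_le_one, lt_div_iff₀ (by positivity)]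
    linarith
  refine ⟨4 / (1 - ρ1), Real.log r, Real.log_pos hr1, ?_⟩
  intro d N β hd hN hβ P Λ η A B a b F G R hF hG hR
  classical
  have : NeZero N := ⟨by omega⟩
  have hN2 : (2 : ℝ) ≤ N := by exact_mod_cast hN
  have hd2 : (1 : ℝ) ≤ d - 1 := by
    have : (2 : ℝ) ≤ d := by exact_mod_cast hd
    linarith
  obtain ⟨F', hF1, hF2⟩ := obs_lift Λ η hF
  obtain ⟨G', hG1, hG2⟩ := obs_lift Λ η hG
  obtain ⟨c1, c2⟩ := consts hN2 hd2 h1 h2.le (hβ.trans (le_max_left _ _)) hr1.le rfl rfl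
  set κ := Real.log r with hκ
  have hκ0 : 0 < κ := Real.log_pos hr1
  set T : Set (Site d) := Prod.fst '' (A : Set (Link d)) with hT
  have hK : (N : ℝ) / 2 - 2 * (d - 1) * (r ^ 2 * ρ1 * N / (4 * (d - 1))) = N * (1 - ρ1) / 4 := by
    rw [hr2]
    field_simp
    ring
  have key := su_main hN P (fun p k => sl Λ η (pl p k)) (fun p _ => inj_sl Λ η p) (N * β)
    (M := 2 * (d - 1)) (by linarith) (fun e => ?_) (fun e f hef => ?_)
    (w := fun e => Real.exp (κ * Metric.infDist e.1.1 T)) (fun e => Real.exp_pos _) (r := r)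
    (by linarith) (fun p _ e he f hf => ?_) rfl rfl c1 c2 (by rw [hK]; nlinarith)
    (S := actS Λ η (N * β) P) rfl F' G'
  · rw [cov, gibbs_eq Λ η _ P F F' hF1, gibbs_eq Λ η _ P G G' hG1,
      gibbs_eq Λ η _ P _ (F' * G') (fun U => by rw [← hF1, ← hG1]; rfl)]
    refine key.trans ?_
    rw [hK]
    have a1 : ∑ e : Λ, Real.exp (κ * Metric.infDist e.1.1 T) ^ 2 *
        gr (EG (haarPi Λ N) embSU (actS Λ η (N * β) P)) TT F' e ≤ ∑ e ∈ A, a e ^ 2 := by
      refine le_trans (Finset.sum_le_sum fun e _ => ?_) (sum_ite_le Λ A a)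
      refine (mul_le_mul_of_nonneg_left (gr_le _ _ e (hF2 e)) (sq_nonneg _)).trans ?_
      split_ifs with he
      · rw [Metric.infDist_zero_of_mem (show e.1.1 ∈ T from ⟨e.1, he, rfl⟩)]
        simp
      · simp
    rcases A.eq_empty_or_nonempty with hA | hA
    · subst hA
      rw [Finset.sum_empty] at a1 ⊢
      rw [Real.sqrt_eq_zero_of_nonpos a1]
      simp
    have a2 : ∑ e : Λ, (Real.exp (κ * Metric.infDist e.1.1 T))⁻¹ ^ 2 *
        gr (EG (haarPi Λ N) embSU (actS Λ η (N * β) P)) TT G' e ≤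
          Real.exp (-κ * R) ^ 2 * ∑ e ∈ B, b e ^ 2 := by
      refine le_trans ?_ (mul_le_mul_of_nonneg_left (sum_ite_le Λ B b) (sq_nonneg _))
      rw [Finset.mul_sum]
      refine Finset.sum_le_sum fun e _ => ?_
      refine (mul_le_mul_of_nonneg_left (gr_le _ _ e (hG2 e)) (sq_nonneg _)).trans ?_
      split_ifs with he
      · refine mul_le_mul_of_nonneg_right (pow_le_pow_left₀ (by positivity) ?_ 2) (sq_nonneg _)
        rw [← Real.exp_neg, Real.exp_le_exp, neg_mul, neg_le_neg_iff]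
        refine mul_le_mul_of_nonneg_left ?_ hκ0.le
        rw [Metric.le_infDist (hA.to_set.image _)]
        rintro _ ⟨f, hf, rfl⟩
        rw [dist_comm]
        exact hR f hf e he
      · simp
    have a3 := Real.sqrt_le_sqrt a2
    rw [Real.sqrt_mul (sq_nonneg _), Real.sqrt_sq (Real.exp_pos _).le] at a3
    have h3 : 0 < 1 - ρ1 := by linarith
    refine (div_le_div_of_nonneg_right (mul_le_mul (Real.sqrt_le_sqrt a1) a3
      (Real.sqrt_nonneg _) (Real.sqrt_nonneg _)) (by positivity)).trans (le_of_eq ?_)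
    field_simp
  · simp only [mem_lks_sl]
    have := card_pl P e.1
    have h3 : ((2 * (d - 1) : ℕ) : ℝ) = 2 * (d - 1) := by
      rw [Nat.cast_mul, Nat.cast_sub (by omega)]
      simp
    rw [← h3]
    exact_mod_cast this
  · simp only [mem_lks_sl]
    exact card_pl2 P fun h => hef (Subtype.ext h)
  · obtain ⟨k, hk⟩ := (mem_lks_sl Λ η).1 he
    obtain ⟨l, hl⟩ := (mem_lks_sl Λ η).1 hf
    have h3 := dist_pl p k l
    rw [hk, hl] at h3
    have h4 := Metric.infDist_le_infDist_add_dist (x := e.1.1) (y := f.1.1) (s := T)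
    rw [← Real.exp_log (by linarith : 0 < r), ← hκ, ← Real.exp_add, Real.exp_le_exp]
    nlinarith

end Pool.Agent.H419Z
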