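import Pool.Agent.H419Z.Defs

/-! A Parseval frame of `su(N)` and its identities. -/

open Matrix
open scoped Matrix.Norms.Frobenius

noncomputable section

namespace Pool.Agent.H419Z

variable {N : ℕ}

/-- real part of the trace -/
def rt : Mat N →ₗ[ℝ] ℝ where
  toFun A := A.trace.re
  map_add' A B := by simp
  map_smul' c A := by simp

theorem rt_apply (A : Mat N) : rt A = A.trace.re := rfl

theorem rt_comm (A B : Mat N) : rt (A * B) = rt (B * A) := by
  rw [rt_apply, trace_mul_comm, rt_apply]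

theorem rt_star (A : Mat N) : rt Aᴴ = rt A := by
  rw [rt_apply, trace_conjTranspose, rt_apply]
  rfl

theorem norm_sq_sum (A : Mat N) : ‖A‖ ^ 2 = ∑ i, ∑ j, ‖A i j‖ ^ 2 := by
  rw [frobenius_norm_def, ← Real.sqrt_eq_rpow, Real.sq_sqrt (by positivity)]
  simp

theorem norm_sq_rt (A : Mat N) : ‖A‖ ^ 2 = rt (Aᴴ * A) := by
  rw [norm_sq_sum, rt_apply, Finset.sum_comm]
  simp only [trace, diag_apply, Matrix.mul_apply, conjTranspose_apply, Complex.re_sum]
  refine Finset.sum_congr rfl fun i _ => Finset.sum_congr rfl fun j _ => ?_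
  rw [Complex.sq_norm, Complex.normSq_apply]
  simp

theorem abs_rt_mul (A B : Mat N) : |rt (A * B)| ≤ ‖A‖ * ‖B‖ := by
  have h1 : ‖A‖ = √(∑ p : Fin N × Fin N, ‖A p.1 p.2‖ ^ 2) := by
    rw [Fintype.sum_prod_type, ← norm_sq_sum, Real.sqrt_sq (norm_nonneg _)]
  have h2 : ‖B‖ = √(∑ p : Fin N × Fin N, ‖B p.2 p.1‖ ^ 2) := by
    rw [Fintype.sum_prod_type_right, ← norm_sq_sum, Real.sqrt_sq (norm_nonneg _)]
  rw [h1, h2]
  refine le_trans ?_ (Real.sum_mul_le_sqrt_mul_sqrt _ _ _)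
  rw [rt_apply, Fintype.sum_prod_type]
  refine (Complex.abs_re_le_norm _).trans ?_
  simp only [trace, diag_apply, Matrix.mul_apply]
  refine (norm_sum_le _ _).trans (Finset.sum_le_sum fun i _ => ?_)
  exact (norm_sum_le _ _).trans (Finset.sum_le_sum fun j _ => norm_mul_le _ _)

/-- unitary matrices -/
def Uni (M : Mat N) : Prop := Mᴴ * M = 1 ∧ M * Mᴴ = 1

theorem Uni.mul {A B : Mat N} (hA : Uni A) (hB : Uni B) : Uni (A * B) := by
  constructor
  · rw [conjTranspose_mul, mul_assoc, ← mul_assoc Aᴴ, hA.1, one_mul, hB.1]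
  · rw [conjTranspose_mul, mul_assoc, ← mul_assoc B, hB.2, one_mul, hA.2]

theorem Uni.star {A : Mat N} (hA : Uni A) : Uni Aᴴ := by
  constructor
  · rw [conjTranspose_conjTranspose, hA.2]
  · rw [conjTranspose_conjTranspose, hA.1]

theorem Uni.neg {A : Mat N} (hA : Uni A) : Uni (-A) := by
  constructor
  · rw [conjTranspose_neg, neg_mul_neg, hA.1]
  · rw [conjTranspose_neg, neg_mul_neg, hA.2]

theorem uni_one : Uni (1 : Mat N) := by simp [Uni]

theorem uni_of_mem {A : Mat N} (h : A ∈ Matrix.unitaryGroup (Fin N) ℂ) : Uni A := ⟨h.1, h.2⟩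

theorem uni_SU (g : SU N) : Uni (g : Mat N) := uni_of_mem g.2.1

theorem Uni.norm_mul {M : Mat N} (hM : Uni M) (A : Mat N) : ‖M * A‖ = ‖A‖ := by
  rw [← sq_eq_sq₀ (norm_nonneg _) (norm_nonneg _), norm_sq_rt, norm_sq_rt, conjTranspose_mul,
    mul_assoc, ← mul_assoc Mᴴ, hM.1, one_mul]

theorem Uni.mul_norm {M : Mat N} (hM : Uni M) (A : Mat N) : ‖A * M‖ = ‖A‖ := by
  rw [← frobenius_norm_conjTranspose, conjTranspose_mul, hM.star.norm_mul,
    frobenius_norm_conjTranspose]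

/-- membership in `su(N)` -/
def IsSu (X : Mat N) : Prop := Xᴴ = -X ∧ X.trace = 0

theorem IsSu.brk {A B : Mat N} (hA : IsSu A) (hB : IsSu B) : IsSu (A * B - B * A) := by
  refine ⟨?_, ?_⟩
  · rw [conjTranspose_sub, conjTranspose_mul, conjTranspose_mul, hA.1, hB.1]
    simp only [Matrix.neg_mul, Matrix.mul_neg, neg_neg]
    exact (neg_sub _ _).symm
  · rw [trace_sub, trace_mul_comm, sub_self]

theorem IsSu.smul {A : Mat N} (hA : IsSu A) (c : ℝ) : IsSu (c • A) :=
  ⟨by rw [conjTranspose_smul, hA.1, star_trivial, smul_neg], by rw [trace_smul, hA.2, smul_zero]⟩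

theorem IsSu.norm_sq {X : Mat N} (hX : IsSu X) : ‖X‖ ^ 2 = -rt (X * X) := by
  rw [norm_sq_rt, hX.1, Matrix.neg_mul, map_neg]

/-- orthogonal projection onto `su(N)` -/
def Pr : Mat N →ₗ[ℝ] Mat N where
  toFun Z := (1 / 2 : ℂ) • (Z - Zᴴ) - ((Z - Zᴴ).trace / (2 * N)) • (1 : Mat N)
  map_add' A B := by
    simp only [conjTranspose_add, trace_sub, trace_add]
    module
  map_smul' c A := by
    simp only [conjTranspose_smul, trace_sub, trace_smul, star_trivial, RingHom.id_apply]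
    ext i j
    simp only [Matrix.sub_apply, Matrix.smul_apply, smul_eq_mul, Complex.real_smul]
    ring

theorem Pr_apply (Z : Mat N) :
    Pr Z = (1 / 2 : ℂ) • (Z - Zᴴ) - ((Z - Zᴴ).trace / (2 * N)) • (1 : Mat N) := rfl

theorem isSu_Pr [NeZero N] (Z : Mat N) : IsSu (Pr Z) := by
  have hN : (N : ℂ) ≠ 0 := Nat.cast_ne_zero.2 (NeZero.ne N)
  constructor
  · simp only [Pr_apply, conjTranspose_sub, conjTranspose_smul, conjTranspose_conjTranspose,
      conjTranspose_one, trace_sub, trace_conjTranspose]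
    simp only [star_div₀, star_sub, star_star, star_mul', star_natCast, star_ofNat, star_one]
    module
  · simp only [Pr_apply, trace_sub, trace_smul, trace_one, Fintype.card_fin, smul_eq_mul]
    field_simp
    ring

theorem IsSu.Pr_eq {X : Mat N} (hX : IsSu X) : Pr X = X := by
  rw [Pr_apply, hX.1, trace_sub, trace_neg, hX.2]
  simp only [neg_zero, sub_zero, zero_div, zero_smul]
  module

theorem IsSu.rt_Pr {X : Mat N} (hX : IsSu X) (Z : Mat N) : rt (X * Pr Z) = rt (X * Z) := by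
  have h1 : rt (X * Zᴴ) = -rt (X * Z) := by
    rw [← rt_star, conjTranspose_mul, conjTranspose_conjTranspose, hX.1, Matrix.mul_neg, map_neg,
      rt_comm]
  have h2 : (1 / 2 : ℂ) • (Z - Zᴴ) = (1 / 2 : ℝ) • (Z - Zᴴ) := by
    rw [← Complex.coe_smul]
    norm_num
  rw [Pr_apply, h2, mul_sub, mul_smul_comm, mul_smul_comm, map_sub, map_smul, mul_sub, map_sub, h1,
    mul_one, rt_apply (_ • X), trace_smul, hX.2]
  simp only [smul_eq_mul, mul_zero, Complex.zero_re]
  ring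

theorem norm_Pr_le [NeZero N] (Z : Mat N) : ‖Pr Z‖ ≤ ‖Z‖ := by
  have h1 := (isSu_Pr Z).norm_sq
  rw [(isSu_Pr Z).rt_Pr] at h1
  have h2 := neg_le_of_abs_le (abs_rt_mul (Pr Z) Z)
  by_contra hc
  push Not at hc
  nlinarith [norm_nonneg Z]

/-- index set of the frame -/
abbrev Ix (N : ℕ) := (Fin N × Fin N) × Bool

/-- orthonormal real basis of the matrices -/
def Bs (a : Ix N) : Mat N := single a.1.1 a.1.2 (if a.2 then 1 else Complex.I)

/-- coordinates -/
def co (Z : Mat N) (a : Ix N) : ℝ := if a.2 then (Z a.1.1 a.1.2).re else (Z a.1.1 a.1.2).im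

/-- the frame -/
def Tf (a : Ix N) : Mat N := Pr (Bs a)

theorem sum_Bs_apply (y : Ix N → ℝ) (i j : Fin N) :
    (∑ a, y a • Bs a) i j = y ((i, j), true) + y ((i, j), false) * Complex.I := by
  simp only [Matrix.sum_apply, Fintype.sum_prod_type, Fintype.sum_bool, Bs, Matrix.smul_apply,
    single_apply]
  rw [Finset.sum_eq_single i, Finset.sum_eq_single j] <;> simp +contextual

theorem sum_co (Z : Mat N) : ∑ a, co Z a • Bs a = Z := by
  ext i j
  rw [sum_Bs_apply]
  simp [co]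

theorem co_sum (y : Ix N → ℝ) (a : Ix N) : co (∑ a, y a • Bs a) a = y a := by
  obtain ⟨⟨i, j⟩, b⟩ := a
  cases b <;> simp [co, sum_Bs_apply]

theorem sum_co_sq (Z : Mat N) : ∑ a, co Z a ^ 2 = ‖Z‖ ^ 2 := by
  rw [norm_sq_sum]
  simp only [Fintype.sum_prod_type, Fintype.sum_bool, co, Complex.sq_norm, Complex.normSq_apply]
  simp [sq]

theorem co_eq (Z : Mat N) (a : Ix N) : co Z a = rt ((Bs a)ᴴ * Z) := by
  obtain ⟨⟨i, j⟩, b⟩ := a
  cases b <;> simp [co, Bs, rt_apply, conjTranspose_single, trace_single_mul]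

variable [NeZero N]

theorem isSu_Tf (a : Ix N) : IsSu (Tf a) := isSu_Pr _

omit [NeZero N] in
theorem sum_Tf (y : Ix N → ℝ) : ∑ a, y a • Tf a = Pr (∑ a, y a • Bs a) := by
  simp [Tf]

theorem isSu_sum (y : Ix N → ℝ) : IsSu (∑ a, y a • Tf a) := by
  rw [sum_Tf]
  exact isSu_Pr _

theorem norm_sum_Tf (y : Ix N → ℝ) : ‖∑ a, y a • Tf a‖ ≤ √(∑ a, y a ^ 2) := by
  rw [sum_Tf]
  refine (norm_Pr_le _).trans (le_of_eq ?_)
  rw [← Real.sqrt_sq (norm_nonneg _), ← sum_co_sq]
  simp only [co_sum]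

omit [NeZero N] in
theorem IsSu.rt_Tf {X : Mat N} (hX : IsSu X) (a : Ix N) : rt (X * Tf a) = -co X a := by
  rw [Tf, hX.rt_Pr, co_eq, ← rt_star, conjTranspose_mul, hX.1, Matrix.mul_neg, map_neg]

omit [NeZero N] in
theorem IsSu.expand {X : Mat N} (hX : IsSu X) : ∑ a, co X a • Tf a = X := by
  have : ∑ a, co X a • Tf a = Pr (∑ a, co X a • Bs a) := by simp [Tf]
  rw [this, sum_co, hX.Pr_eq]

theorem sum_rt_Tf (W : Mat N) : ∑ a, rt (Tf a * W) • Tf a = -Pr W := by
  rw [← (isSu_Pr W).expand, ← Finset.sum_neg_distrib]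
  refine Finset.sum_congr rfl fun a _ => ?_
  rw [← (isSu_Tf a).rt_Pr, rt_comm, (isSu_Pr W).rt_Tf, neg_smul]

theorem sum_tr_Tf (W : Mat N) :
    ∑ a, (Tf a * W).trace • Tf a = -W + (W.trace / N) • (1 : Mat N) := by
  have h1 : ∀ a, (Tf a * W).trace • Tf a = rt (Tf a * W) • Tf a +
      Complex.I • (rt (Tf a * ((-Complex.I) • W)) • Tf a) := by
    intro a
    rw [← Complex.coe_smul, ← Complex.coe_smul, smul_smul, ← add_smul]
    congr 1
    rw [rt_apply, rt_apply, mul_smul_comm, trace_smul]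
    apply Complex.ext <;> simp
  simp only [h1, Finset.sum_add_distrib, ← Finset.smul_sum, sum_rt_Tf, Pr_apply]
  have hN : (N : ℂ) ≠ 0 := Nat.cast_ne_zero.2 (NeZero.ne N)
  ext i j
  simp only [conjTranspose_smul, trace_sub, trace_smul, Matrix.add_apply, Matrix.neg_apply, Matrix.sub_apply,
    Matrix.smul_apply, smul_eq_mul, star_neg, Complex.star_def, Complex.conj_I]
  field_simp
  ring_nf
  simp only [Complex.I_sq]
  ring

theorem fierz (A : Mat N) :
    ∑ a, Tf a * A * Tf a = -(A.trace • (1 : Mat N)) + ((N : ℂ)⁻¹) • A := by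
  have h : ∀ m p q n : Fin N, ∑ a, Tf a m p * Tf a q n =
      -(single p m (1 : ℂ) : Mat N) q n + (if p = m then 1 else 0) / N * (1 : Mat N) q n := by
    intro m p q n
    have := congrFun (congrFun (sum_tr_Tf (single p m (1 : ℂ))) q) n
    simp only [Matrix.sum_apply, Matrix.smul_apply, trace_mul_single, smul_eq_mul, Matrix.add_apply,
      Matrix.neg_apply, MulOpposite.op_one, one_smul] at this
    rw [this]
    congr 2
    by_cases hp : p = m
    · subst hp
      simp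
    · simp [hp]
  ext m n
  simp only [Matrix.sum_apply, Matrix.mul_apply, Finset.sum_mul]
  have : ∀ (a : Ix N) (p q : Fin N), Tf a m p * A p q * Tf a q n = A p q * (Tf a m p * Tf a q n) :=
    fun a p q => by ring
  simp only [this]
  rw [Finset.sum_comm]
  simp only [fun q => Finset.sum_comm (s := Finset.univ) (t := Finset.univ)
    (f := fun (a : Ix N) (p : Fin N) => A p q * (Tf a m p * Tf a q n)), ← Finset.mul_sum, h]
  simp only [mul_add, Finset.sum_add_distrib, single_apply, Matrix.one_apply, Matrix.add_apply, Matrix.neg_apply,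
    Matrix.smul_apply, smul_eq_mul, trace, diag_apply]
  congr 1
  · by_cases hmn : m = n
    · simp [hmn]
    · simp [hmn]
  · simp [div_eq_inv_mul, mul_comm]

theorem casimir : ∑ a : Ix N, Tf a * Tf a = -(((N : ℝ) - (N : ℝ)⁻¹) • (1 : Mat N)) := by
  have := fierz (1 : Mat N)
  simp only [mul_one, trace_one, Fintype.card_fin] at this
  rw [this, ← Complex.coe_smul]
  push_cast
  module

theorem sum_norm_mul_Tf (G : Mat N) :
    ∑ a : Ix N, ‖G * Tf a‖ ^ 2 = ((N : ℝ) - (N : ℝ)⁻¹) * ‖G‖ ^ 2 := by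
  have : ∀ a : Ix N, ‖G * Tf a‖ ^ 2 = -rt (Gᴴ * G * (Tf a * Tf a)) := by
    intro a
    rw [norm_sq_rt, conjTranspose_mul, (isSu_Tf a).1, Matrix.neg_mul, Matrix.neg_mul, map_neg,
      mul_assoc, rt_comm]
    simp only [mul_assoc]
  simp only [this, Finset.sum_neg_distrib, ← map_sum, ← Finset.mul_sum, casimir]
  rw [norm_sq_rt, mul_neg, map_neg, mul_smul_comm, map_smul, mul_one, neg_neg, smul_eq_mul]

theorem sum_norm_Tf_mul (G : Mat N) :
    ∑ a : Ix N, ‖Tf a * G‖ ^ 2 = ((N : ℝ) - (N : ℝ)⁻¹) * ‖G‖ ^ 2 := by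
  rw [← frobenius_norm_conjTranspose G, ← sum_norm_mul_Tf]
  refine Finset.sum_congr rfl fun a _ => ?_
  rw [← frobenius_norm_conjTranspose, conjTranspose_mul, (isSu_Tf a).1, Matrix.mul_neg, norm_neg]

/-- structure constants -/
def fsc (a b c : Ix N) : ℝ := co (Tf a * Tf b - Tf b * Tf a) c

theorem fsc_expand (a b : Ix N) : Tf a * Tf b - Tf b * Tf a = ∑ c, fsc a b c • Tf c :=
  ((isSu_Tf a).brk (isSu_Tf b)).expand.symm

theorem fsc_eq (a b c : Ix N) : fsc a b c = rt (Tf b * Tf a * Tf c) - rt (Tf a * Tf b * Tf c) := by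
  have := ((isSu_Tf a).brk (isSu_Tf b)).rt_Tf c
  rw [sub_mul, map_sub] at this
  unfold fsc
  linarith

theorem fsc_cyc (a b c : Ix N) : fsc a b c = fsc b c a := by
  rw [fsc_eq, fsc_eq, rt_comm (Tf b * Tf a), rt_comm (Tf b * Tf c)]
  simp only [mul_assoc]

theorem fsc_anti (a b c : Ix N) : fsc a b c = -fsc b a c := by
  rw [fsc_eq, fsc_eq, neg_sub]

theorem killing (l : Mat N →ₗ[ℝ] ℝ) : 4 * ((N : ℝ) / 2) * ∑ a, l (Tf a) ^ 2 ≤
    ∑ a, ∑ b, l (Tf a * Tf b - Tf b * Tf a) ^ 2 := by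
  set Y : Mat N := ∑ a, l (Tf a) • Tf a with hY
  have hYs : IsSu Y := isSu_sum _
  have h1 : ∀ X, IsSu X → l X = -rt (X * Y) := by
    intro X hX
    conv_lhs => rw [← hX.expand]
    simp only [hY, map_sum, map_smul, Finset.mul_sum, mul_smul_comm, hX.rt_Tf, smul_eq_mul,
      ← Finset.sum_neg_distrib]
    exact Finset.sum_congr rfl fun a _ => by ring
  have h2 : ∑ a, l (Tf a) ^ 2 = -rt (Y * Y) := by
    rw [← hYs.norm_sq, ← sum_co_sq]
    refine Finset.sum_congr rfl fun a _ => ?_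
    rw [h1 _ (isSu_Tf a), rt_comm, hYs.rt_Tf, neg_neg]
  have h3 : ∀ a, ∑ b, l (Tf a * Tf b - Tf b * Tf a) ^ 2 =
      2 * -rt (Y * (Tf a * Y * Tf a)) + 2 * rt (Y * Y * (Tf a * Tf a)) := by
    intro a
    have hs := hYs.brk (isSu_Tf a)
    have : -rt ((Y * Tf a - Tf a * Y) * (Y * Tf a - Tf a * Y)) =
        2 * -rt (Y * (Tf a * Y * Tf a)) + 2 * rt (Y * Y * (Tf a * Tf a)) := by
      simp only [sub_mul, mul_sub, map_sub]
      have e1 : rt (Tf a * Y * (Tf a * Y)) = rt (Y * (Tf a * Y * Tf a)) := by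
        rw [← mul_assoc, rt_comm]
      have e2 : rt (Y * Tf a * (Y * Tf a)) = rt (Y * (Tf a * Y * Tf a)) := by
        simp only [mul_assoc]
      have e3 : rt (Tf a * Y * (Y * Tf a)) = rt (Y * Y * (Tf a * Tf a)) := by
        rw [mul_assoc, rt_comm]
        simp only [mul_assoc]
      have e4 : rt (Y * Tf a * (Tf a * Y)) = rt (Y * Y * (Tf a * Tf a)) := by
        rw [← mul_assoc, rt_comm]
        simp only [mul_assoc]
      rw [e1, e2, e3, e4]
      ring
    rw [← this, ← hs.norm_sq, ← sum_co_sq]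
    refine Finset.sum_congr rfl fun b _ => ?_
    rw [h1 _ ((isSu_Tf a).brk (isSu_Tf b)), ← neg_neg (co _ b), ← hs.rt_Tf]
    simp only [sub_mul, map_sub]
    rw [rt_comm (Tf a * Tf b), rt_comm (Tf a * Y)]
    simp only [mul_assoc]
  simp only [h3, Finset.sum_add_distrib, ← Finset.mul_sum, Finset.sum_neg_distrib, ← map_sum,
    fierz, casimir, hYs.2, zero_smul, neg_zero, zero_add, h2]
  have h4 : ((N : ℂ)⁻¹) • Y = ((N : ℝ)⁻¹) • Y := by
    rw [← Complex.coe_smul]
    push_cast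
    rfl
  rw [h4]
  simp only [mul_neg, mul_smul_comm, map_neg, map_smul, mul_one, smul_eq_mul]
  apply le_of_eq
  ring

end Pool.Agent.H419Z
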