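import Pool.Agent.H419Z.Calc

/-! Haar expectation, integration by parts, crude Poincare inequality, Gibbs expectation. -/

open scoped ContDiff
open MeasureTheory

noncomputable section

namespace Pool.Agent.H419Z

variable {V : Type*} [NormedRing V] [NormedAlgebra ℝ V]

/-- composition with a continuous linear map -/
def Sm.compL (L : V →L[ℝ] V) : Sm V →ₐ[ℝ] Sm V where
  toFun F := Sm.mk (fun U => (F : V → ℝ) (L U)) ((Sm.smooth F).comp L.contDiff)
  map_one' := rfl
  map_mul' _ _ := rfl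
  map_zero' := rfl
  map_add' _ _ := rfl
  commutes' _ := rfl

/-- left translate -/
def lsh (a : V) : Sm V →ₐ[ℝ] Sm V := Sm.compL (ContinuousLinearMap.mul ℝ V a)

/-- right translate -/
def rsh (a : V) : Sm V →ₐ[ℝ] Sm V := Sm.compL ((ContinuousLinearMap.mul ℝ V).flip a)

theorem lsh_apply (a : V) (F : Sm V) (U : V) : (lsh a F : V → ℝ) U = (F : V → ℝ) (a * U) := rfl

theorem rsh_apply (a : V) (F : Sm V) (U : V) : (rsh a F : V → ℝ) U = (F : V → ℝ) (U * a) := rfl

theorem DD_rsh (X a : V) (F : Sm V) : DD X (rsh a F) = rsh a (DD X F) := by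
  ext U
  rw [rsh_apply, DD_apply, DD_apply]
  have h := (Sm.diff F (U * a)).hasFDerivAt.comp U
    ((ContinuousLinearMap.mul ℝ V).flip a).hasFDerivAt
  change fderiv ℝ ((F : V → ℝ) ∘ ((ContinuousLinearMap.mul ℝ V).flip a)) U (X * U) = _
  rw [h.fderiv]
  simp [mul_assoc]

variable {Ω : Type*} [Group Ω] [TopologicalSpace Ω] [CompactSpace Ω]
  [MeasurableSpace Ω] [BorelSpace Ω] (μ : Measure Ω) [IsProbabilityMeasure μ]
  (emb : Ω →ₜ* V)

omit [Group Ω] in
theorem integrable_cont {f : Ω → ℝ} (hf : Continuous f) : Integrable f μ :=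
  hf.integrable_of_hasCompactSupport (HasCompactSupport.of_compactSpace _)

omit [CompactSpace Ω] [MeasurableSpace Ω] [BorelSpace Ω] in
theorem cont_emb (F : Sm V) : Continuous fun g => (F : V → ℝ) (emb g) :=
  (Sm.cont F).comp emb.continuous

/-- Haar expectation -/
def E0 : Sm V →ₗ[ℝ] ℝ where
  toFun F := ∫ g, (F : V → ℝ) (emb g) ∂μ
  map_add' F G := integral_add (integrable_cont μ (cont_emb emb F))
    (integrable_cont μ (cont_emb emb G))
  map_smul' c F := integral_const_mul c fun g => (F : V → ℝ) (emb g)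

theorem E0_apply (F : Sm V) : E0 μ emb F = ∫ g, (F : V → ℝ) (emb g) ∂μ := rfl

theorem E0_mono {F G : Sm V} (h : ∀ g, (F : V → ℝ) (emb g) ≤ (G : V → ℝ) (emb g)) :
    E0 μ emb F ≤ E0 μ emb G :=
  integral_mono (integrable_cont μ (cont_emb emb F)) (integrable_cont μ (cont_emb emb G)) h

theorem E0_one : E0 μ emb 1 = 1 := by simp [E0_apply]

theorem E0_pos (F : Sm V) : 0 ≤ E0 μ emb (F * F) :=
  integral_nonneg fun _ => mul_self_nonneg _

omit [MeasurableSpace Ω] [BorelSpace Ω] in
theorem exists_bound (F : Sm V) : ∃ C, 0 ≤ C ∧ ∀ g, |(F : V → ℝ) (emb g)| ≤ C := by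
  obtain ⟨C, hC⟩ := isCompact_univ.exists_bound_of_continuousOn (cont_emb emb F).continuousOn
  exact ⟨C, (norm_nonneg _).trans (hC 1 trivial), fun g => hC g trivial⟩

theorem eq_zero_of_E0 [μ.IsOpenPosMeasure] {F : Sm V} (h : E0 μ emb (F * F) = 0) (g : Ω) :
    (F : V → ℝ) (emb g) = 0 := by
  by_contra hne
  have := (cont_emb emb (F * F)).integral_pos_of_hasCompactSupport_nonneg_nonzero (μ := μ)
    (x := g) (HasCompactSupport.of_compactSpace _) (fun _ => mul_self_nonneg _)
    (mul_ne_zero hne hne)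
  exact this.ne' h

/-- tangent directions -/
def Tan (X : V) : Prop := ∀ t : ℝ, ∃ g, emb g = NormedSpace.exp (t • X)

variable [IsTopologicalGroup Ω] [μ.IsMulLeftInvariant]

theorem E0_lsh (h : Ω) (F : Sm V) : E0 μ emb (lsh (emb h) F) = E0 μ emb F := by
  simp only [E0_apply, lsh_apply, ← map_mul]
  exact integral_mul_left_eq_self (fun g => (F : V → ℝ) (emb g)) h

theorem nr_lsh (h : Ω) (F : Sm V) : nr (E0 μ emb) (lsh (emb h) F) = nr (E0 μ emb) F := by
  unfold nr
  rw [← map_mul, E0_lsh]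

variable [CompleteSpace V]

omit [IsTopologicalGroup Ω] [μ.IsMulLeftInvariant] in
theorem hasDerivAt_E0 {X : V} (hX : Tan emb X) (F G : Sm V) (t : ℝ) :
    HasDerivAt (fun t : ℝ => E0 μ emb (lsh (NormedSpace.exp (t • X)) F * G))
      (E0 μ emb (lsh (NormedSpace.exp (t • X)) (DD X F) * G)) t := by
  obtain ⟨C, hC0, hC⟩ := exists_bound emb (DD X F)
  obtain ⟨B, hB0, hB⟩ := exists_bound emb G
  have := hasDerivAt_integral_of_dominated_loc_of_deriv_le (μ := μ) (x₀ := t) (s := Set.univ)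
    (F := fun t g => ((lsh (NormedSpace.exp (t • X)) F * G : Sm V) : V → ℝ) (emb g))
    (F' := fun t g => ((lsh (NormedSpace.exp (t • X)) (DD X F) * G : Sm V) : V → ℝ) (emb g))
    (bound := fun _ => C * B) Filter.univ_mem
    (Filter.Eventually.of_forall fun t => (cont_emb emb _).aestronglyMeasurable)
    (integrable_cont μ (cont_emb emb _)) (cont_emb emb _).aestronglyMeasurable
    (Filter.Eventually.of_forall fun g s _ => by
      obtain ⟨h, hh⟩ := hX s
      simp only [Sm.coe_mul, Pi.mul_apply, lsh_apply, Real.norm_eq_abs, abs_mul]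
      rw [← hh, ← map_mul]
      exact mul_le_mul (hC _) (hB _) (abs_nonneg _) hC0)
    (integrable_const _)
    (Filter.Eventually.of_forall fun g s _ => by
      simp only [Sm.coe_mul, Pi.mul_apply, lsh_apply]
      exact (hasDerivAt_flow X (emb g) F s).mul_const _)
  exact this.2

theorem E0_DD {X : V} (hX : Tan emb X) (F : Sm V) : E0 μ emb (DD X F) = 0 := by
  have h := hasDerivAt_E0 μ emb hX F 1 0
  have e : (fun t : ℝ => E0 μ emb (lsh (NormedSpace.exp (t • X)) F * 1)) =
      fun _ => E0 μ emb F := by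
    funext t
    obtain ⟨h, hh⟩ := hX t
    rw [mul_one, ← hh, E0_lsh]
  rw [e] at h
  have h2 := h.unique (hasDerivAt_const _ _)
  obtain ⟨h, hh⟩ := hX 0
  rwa [mul_one, ← hh, E0_lsh] at h2

theorem nr_lsh_sub {X : V} (hX : Tan emb X) (u : Sm V) :
    nr (E0 μ emb) (lsh (NormedSpace.exp X) u - u) ≤ nr (E0 μ emb) (DD X u) := by
  set v := lsh (NormedSpace.exp X) u - u with hv
  have h := norm_image_sub_le_of_norm_deriv_le_segment_01'
    (f := fun t : ℝ => E0 μ emb (lsh (NormedSpace.exp (t • X)) u * v))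
    (C := nr (E0 μ emb) (DD X u) * nr (E0 μ emb) v)
    (fun t _ => (hasDerivAt_E0 μ emb hX u v t).hasDerivWithinAt)
    (fun t _ => by
      obtain ⟨h, hh⟩ := hX t
      rw [← hh, ← nr_lsh μ emb h (DD X u)]
      exact abs_le_nr (E0_pos μ emb) _ _)
  have e0 : lsh (1 : V) u = u := by
    ext U
    rw [lsh_apply, one_mul]
  simp only [one_smul, zero_smul, NormedSpace.exp_zero, e0] at h
  rw [← map_sub, ← sub_mul, ← hv, ← nr_sq (E0_pos μ emb), Real.norm_eq_abs, abs_sq] at h
  have h0 := nr_nonneg (E0 μ emb) v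
  have h1 := nr_nonneg (E0 μ emb) (DD X u)
  by_contra hc
  push Not at hc
  nlinarith

omit [CompleteSpace V] in
theorem var_le [SecondCountableTopology Ω] [μ.IsMulRightInvariant] (u : Sm V) {C : ℝ}
    (hC : ∀ h, nr (E0 μ emb) (lsh (emb h) u - u) ≤ C) :
    nr (E0 μ emb) (u - algebraMap ℝ _ (E0 μ emb u)) ≤ C := by
  have hC0 : 0 ≤ C := (nr_nonneg _ _).trans (hC 1)
  have hc : Continuous (Function.uncurry fun h g : Ω =>
      (u : V → ℝ) (emb (h * g)) * (u : V → ℝ) (emb g)) :=
    ((cont_emb emb u).comp continuous_mul).mul ((cont_emb emb u).comp continuous_snd)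
  have hi : Integrable (Function.uncurry fun h g : Ω =>
      (u : V → ℝ) (emb (h * g)) * (u : V → ℝ) (emb g)) (μ.prod μ) :=
    integrable_cont _ hc
  have h1 : ∫ h, E0 μ emb (lsh (emb h) u * u) ∂μ = E0 μ emb u * E0 μ emb u := by
    have := integral_integral_swap hi
    simp only [E0_apply, Sm.coe_mul, Pi.mul_apply, lsh_apply, ← map_mul]
    rw [this]
    simp only [integral_mul_const]
    simp only [integral_mul_right_eq_self (fun g => (u : V → ℝ) (emb g))]
    rw [integral_const_mul]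
  have h2 : ∀ h, E0 μ emb (u * u) - C ^ 2 / 2 ≤ E0 μ emb (lsh (emb h) u * u) := by
    intro h
    have h3 := hC h
    have h4 := nr_sq (E0_pos μ emb) (lsh (emb h) u - u)
    have h5 : nr (E0 μ emb) (lsh (emb h) u - u) ^ 2 ≤ C ^ 2 :=
      pow_le_pow_left₀ (nr_nonneg _ _) h3 2
    have e : (lsh (emb h) u - u) * (lsh (emb h) u - u) =
        lsh (emb h) (u * u) + u * u - (2:ℝ) • (lsh (emb h) u * u) := by
      simp only [Algebra.smul_def, map_ofNat, map_mul]
      ring
    rw [e, map_sub, map_add, map_smul, E0_lsh, smul_eq_mul] at h4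
    linarith
  have h3 : E0 μ emb (u * u) - C ^ 2 / 2 ≤ E0 μ emb u * E0 μ emb u := by
    rw [← h1]
    have := integral_mono (μ := μ) (integrable_const (E0 μ emb (u * u) - C ^ 2 / 2))
      (g := fun h => E0 μ emb (lsh (emb h) u * u)) (by
        have := hi.integral_prod_left
        simp only [E0_apply, Sm.coe_mul, Pi.mul_apply, lsh_apply, ← map_mul]
        exact this) h2
    simpa using this
  apply Real.sqrt_le_iff.2 ⟨hC0, ?_⟩
  set m := E0 μ emb u with hm
  have e : (u - algebraMap ℝ _ m) * (u - algebraMap ℝ _ m) =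
      u * u - (2 * m) • u + (m * m) • (1 : Sm V) := by
    simp only [Algebra.smul_def, map_ofNat, map_mul]
    ring
  rw [e, map_add, map_sub, map_smul, map_smul, E0_one, ← hm]
  simp only [smul_eq_mul]
  nlinarith

omit [IsTopologicalGroup Ω] [μ.IsMulLeftInvariant] [CompleteSpace V] in
theorem E0_exp_pos (S : Sm V) : 0 < E0 μ emb (Sm.exp S) := by
  obtain ⟨C, -, hC⟩ := exists_bound emb S
  have : E0 μ emb (Real.exp (-C) • (1 : Sm V)) ≤ E0 μ emb (Sm.exp S) := by
    apply E0_mono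
    intro g
    change Real.exp (-C) * 1 ≤ Real.exp _
    rw [mul_one]
    exact Real.exp_le_exp.2 (neg_le_of_abs_le (hC g))
  rw [map_smul, E0_one, smul_eq_mul, mul_one] at this
  exact (Real.exp_pos _).trans_le this

/-- Gibbs expectation -/
def EG (S : Sm V) : Sm V →ₗ[ℝ] ℝ :=
  (E0 μ emb (Sm.exp S))⁻¹ • (E0 μ emb ∘ₗ LinearMap.mulRight ℝ (Sm.exp S))

omit [IsTopologicalGroup Ω] [μ.IsMulLeftInvariant] [CompleteSpace V] in
theorem EG_apply (S F : Sm V) :
    EG μ emb S F = E0 μ emb (F * Sm.exp S) / E0 μ emb (Sm.exp S) := by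
  simp [EG, div_eq_inv_mul]

omit [IsTopologicalGroup Ω] [μ.IsMulLeftInvariant] [CompleteSpace V] in
theorem EG_mono (S : Sm V) {F G : Sm V} (h : ∀ g, (F : V → ℝ) (emb g) ≤ (G : V → ℝ) (emb g)) :
    EG μ emb S F ≤ EG μ emb S G := by
  rw [EG_apply, EG_apply]
  apply div_le_div_of_nonneg_right _ (E0_exp_pos μ emb S).le
  apply E0_mono
  intro g
  exact mul_le_mul_of_nonneg_right (h g) (Real.exp_pos _).le

omit [IsTopologicalGroup Ω] [μ.IsMulLeftInvariant] [CompleteSpace V] in
theorem EG_one (S : Sm V) : EG μ emb S 1 = 1 := by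
  rw [EG_apply, one_mul, div_self (E0_exp_pos μ emb S).ne']

omit [IsTopologicalGroup Ω] [μ.IsMulLeftInvariant] [CompleteSpace V] in
theorem EG_pos (S F : Sm V) : 0 ≤ EG μ emb S (F * F) := by
  have := EG_mono μ emb S (F := 0) (G := F * F) fun _ => mul_self_nonneg _
  rwa [map_zero] at this

theorem EG_DD {X : V} (hX : Tan emb X) (S F : Sm V) :
    EG μ emb S (DD X F) = -EG μ emb S (DD X S * F) := by
  have h := E0_DD μ emb hX (F * Sm.exp S)
  rw [DD_mul, DD_exp, map_add] at h
  rw [EG_apply, EG_apply, ← neg_div]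
  congr 1
  have e : DD X S * F * Sm.exp S = F * (DD X S * Sm.exp S) := by ring
  rw [e]
  linarith

omit [IsTopologicalGroup Ω] [μ.IsMulLeftInvariant] [CompleteSpace V] in
theorem nr_equiv (S : Sm V) : ∃ C, 0 < C ∧ (∀ F, nr (EG μ emb S) F ≤ C * nr (E0 μ emb) F) ∧
    ∀ F, nr (E0 μ emb) F ≤ C * nr (EG μ emb S) F := by
  obtain ⟨C, hC0, hC⟩ := exists_bound emb S
  have hZ := E0_exp_pos μ emb S
  set Z := E0 μ emb (Sm.exp S)
  have a1 : ∀ F : Sm V, E0 μ emb (F * F * Sm.exp S) ≤ Real.exp C * E0 μ emb (F * F) := by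
    intro F
    rw [← smul_eq_mul (Real.exp C), ← map_smul]
    apply E0_mono
    intro g
    change _ * _ * Real.exp _ ≤ Real.exp C * (_ * _)
    rw [mul_comm]
    exact mul_le_mul_of_nonneg_right (Real.exp_le_exp.2 (le_of_abs_le (hC g))) (mul_self_nonneg _)
  have a2 : ∀ F : Sm V, Real.exp (-C) * E0 μ emb (F * F) ≤ E0 μ emb (F * F * Sm.exp S) := by
    intro F
    rw [← smul_eq_mul, ← map_smul]
    apply E0_mono
    intro g
    change Real.exp (-C) * (_ * _) ≤ _ * _ * Real.exp _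
    rw [mul_comm]
    exact mul_le_mul_of_nonneg_left (Real.exp_le_exp.2 (neg_le_of_abs_le (hC g)))
      (mul_self_nonneg _)
  have hE := Real.exp_pos C
  refine ⟨Real.sqrt (Real.exp C / Z + Real.exp C * Z), by positivity, fun F => ?_, fun F => ?_⟩
  · unfold nr
    rw [← Real.sqrt_mul (by positivity), EG_apply]
    apply Real.sqrt_le_sqrt
    have h1 := a1 F
    have h2 := E0_pos μ emb F
    rw [add_mul]
    have h3 : 0 ≤ Real.exp C * Z * E0 μ emb (F * F) := by positivity
    have h4 : E0 μ emb (F * F * Sm.exp S) / Z ≤ Real.exp C / Z * E0 μ emb (F * F) := by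
      rw [div_mul_eq_mul_div]
      exact div_le_div_of_nonneg_right h1 hZ.le
    linarith
  · unfold nr
    rw [← Real.sqrt_mul (by positivity)]
    apply Real.sqrt_le_sqrt
    have h2 := EG_pos μ emb S F
    rw [add_mul]
    have h3 : 0 ≤ Real.exp C / Z * EG μ emb S (F * F) := by positivity
    have h4 : E0 μ emb (F * F) ≤ Real.exp C * Z * EG μ emb S (F * F) := by
      rw [EG_apply, mul_assoc, mul_div_cancel₀ _ hZ.ne']
      have h5 := mul_le_mul_of_nonneg_left (a2 F) hE.le
      rwa [← mul_assoc, ← Real.exp_add, add_neg_cancel, Real.exp_zero, one_mul] at h5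
    linarith

end Pool.Agent.H419Z
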