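import Pool.Agent.H419Z.SUMain

/-! Combinatorics of the cubic lattice and translation to the abstract setting. -/

open Matrix MeasureTheory
open scoped Matrix.Norms.Frobenius ContDiff

set_option maxHeartbeats 400000

noncomputable section

namespace Pool.Agent.H419Z

variable {d N : ℕ}

/-- the four links of a plaquette -/
def pl (p : Plaq d) : Fin 4 → Link d :=
  ![(p.1.1, p.1.2.1), (p.1.1 + Pi.single p.1.2.1 1, p.1.2.2),
    (p.1.1 + Pi.single p.1.2.2 1, p.1.2.1), (p.1.1, p.1.2.2)]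

theorem single_ne_zero' (i : Fin d) : (Pi.single i 1 : Site d) ≠ 0 := fun h => by
  simpa using congrFun h i

theorem pl_inj (p : Plaq d) : Function.Injective (pl p) := by
  obtain ⟨⟨x, i, j⟩, hij⟩ := p
  have h1 : i ≠ j := ne_of_lt hij
  have h2 := single_ne_zero' i
  have h3 := single_ne_zero' j
  intro a b
  fin_cases a <;> fin_cases b <;> simp [pl, h1, h1.symm, h2, h3]

theorem pl_cases {x : Site d} {i j : Fin d} {h : i < j} {e : Link d} {k : Fin 4}
    (hk : pl ⟨(x, i, j), h⟩ k = e) :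
    (e.2 = i ∧ (e.1 = x ∨ e.1 = x + Pi.single j 1)) ∨
      (e.2 = j ∧ (e.1 = x ∨ e.1 = x + Pi.single i 1)) := by
  subst hk
  fin_cases k <;> simp [pl]

theorem card_pl (P : Finset (Plaq d)) (e : Link d) [∀ p, Decidable (∃ k, pl p k = e)] :
    (P.filter fun p => ∃ k, pl p k = e).card ≤ 2 * (d - 1) := by
  classical
  have h1 : (P.filter fun p => ∃ k, pl p k = e).map ⟨Subtype.val, Subtype.val_injective⟩ ⊆
      ((Finset.univ : Finset Bool) ×ˢ (Finset.univ.erase e.2)).image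
        fun q : Bool × Fin d => ((if q.1 then e.1 else e.1 - Pi.single q.2 1 : Site d),
          min e.2 q.2, max e.2 q.2) := by
    intro y hy
    obtain ⟨⟨⟨x, i, j⟩, hij⟩, hp, rfl⟩ := Finset.mem_map.1 hy
    obtain ⟨k, hk⟩ := (Finset.mem_filter.1 hp).2
    have hij' : i < j := hij
    rw [Finset.mem_image]
    rcases pl_cases hk with ⟨h, h' | h'⟩ | ⟨h, h' | h'⟩
    · exact ⟨(true, j), by simp [h, hij'.ne'], by simp [h, h', hij'.le]⟩
    · exact ⟨(false, j), by simp [h, hij'.ne'], by simp [h, h', hij'.le]⟩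
    · exact ⟨(true, i), by simp [h, hij'.ne], by simp [h, h', hij'.le]⟩
    · exact ⟨(false, i), by simp [h, hij'.ne], by simp [h, h', hij'.le]⟩
  have h2 := (Finset.card_le_card h1).trans Finset.card_image_le
  simpa [Finset.card_erase_of_mem] using h2

theorem pl_key {x : Site d} {i j : Fin d} {h : i < j} {e f : Link d} {k l : Fin 4}
    (hk : pl ⟨(x, i, j), h⟩ k = e) (hl : pl ⟨(x, i, j), h⟩ l = f) (hef : e ≠ f) :
    (e.2 ≠ f.2 ∧ x = Function.update f.1 e.2 (e.1 e.2) ∧ i = min e.2 f.2 ∧ j = max e.2 f.2) ∨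
    (e.2 = f.2 ∧ x = e.1 ⊓ f.1 ∧ ∃ m, Pi.single m 1 = e.1 ⊔ f.1 - e.1 ⊓ f.1 ∧ i = min e.2 m ∧
      j = max e.2 m) := by
  obtain ⟨y, a⟩ := e
  obtain ⟨z, b⟩ := f
  have hs : ∀ m : Fin d, x ≤ x + Pi.single m 1 := fun m =>
    le_add_of_nonneg_right (Pi.single_nonneg.2 zero_le_one)
  have hu : ∀ m : Fin d, Function.update (x + Pi.single m 1) m (x m) = x := by
    intro m
    funext t
    by_cases ht : t = m
    · subst ht
      simp
    · simp [ht]
  rcases pl_cases hk with ⟨h1, h2 | h2⟩ | ⟨h1, h2 | h2⟩ <;>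
  rcases pl_cases hl with ⟨h3, h4 | h4⟩ | ⟨h3, h4 | h4⟩ <;>
  simp only at h1 h2 h3 h4 <;> subst h1 h2 h3 <;> (try subst h4) <;>
  first
    | exact absurd rfl hef
    | exact Or.inr ⟨rfl, by simp [hs], j, by simp [hs], by simp [h.le], by simp [h.le]⟩
    | exact Or.inr ⟨rfl, by simp [hs], i, by simp [hs], by simp [h.le], by simp [h.le]⟩
    | exact Or.inl ⟨by simp [h.ne, h.ne'], by simp [hu, h.ne, h.ne'], by simp [h.le],
        by simp [h.le]⟩

theorem card_pl2 (P : Finset (Plaq d)) {e f : Link d} (hef : e ≠ f)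
    [∀ p, Decidable ((∃ k, pl p k = e) ∧ ∃ k, pl p k = f)] :
    (P.filter fun p => (∃ k, pl p k = e) ∧ ∃ k, pl p k = f).card ≤ 1 := by
  rw [Finset.card_le_one]
  rintro ⟨⟨x, i, j⟩, h⟩ hp ⟨⟨x', i', j'⟩, h'⟩ hp'
  obtain ⟨⟨k, hk⟩, l, hl⟩ := (Finset.mem_filter.1 hp).2
  obtain ⟨⟨k', hk'⟩, l', hl'⟩ := (Finset.mem_filter.1 hp').2
  apply Subtype.ext
  rcases pl_key hk hl hef with ⟨a1, a2, a3, a4⟩ | ⟨a1, a2, m, a3, a4, a5⟩ <;>
  rcases pl_key hk' hl' hef with ⟨b1, b2, b3, b4⟩ | ⟨b1, b2, m', b3, b4, b5⟩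
  · simp only [Prod.mk.injEq]
    exact ⟨a2.trans b2.symm, a3.trans b3.symm, a4.trans b4.symm⟩
  · exact absurd b1 a1
  · exact absurd a1 b1
  · have : m = m' := by
      by_contra hm
      have := congrFun (a3.trans b3.symm) m
      simp [hm] at this
    subst this
    simp only [Prod.mk.injEq]
    exact ⟨a2.trans b2.symm, a4.trans b4.symm, a5.trans b5.symm⟩

theorem dist_pl (p : Plaq d) (k l : Fin 4) : dist (pl p k).1 (pl p l).1 ≤ 1 := by
  obtain ⟨⟨x, i, j⟩, h⟩ := p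
  have h1 : ∀ k, ∀ t, (pl ⟨(x, i, j), h⟩ k).1 t = x t ∨ (pl ⟨(x, i, j), h⟩ k).1 t = x t + 1 := by
    intro k t
    rcases pl_cases (k := k) rfl with ⟨-, h2 | h2⟩ | ⟨-, h2 | h2⟩ <;> rw [h2] <;>
      simp [Pi.single_apply, em']
  rw [dist_pi_le_iff zero_le_one]
  intro t
  rcases h1 k t with h2 | h2 <;> rcases h1 l t with h3 | h3 <;> rw [h2, h3] <;> simp

/-- the slot of a link -/
def sl (Λ : Finset (Link d)) (η : Link d → SU N) (e : Link d) : Λ ⊕ SU N :=
  if h : e ∈ Λ then Sum.inl ⟨e, h⟩ else Sum.inr (η e)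

variable (Λ : Finset (Link d)) (η : Link d → SU N)

theorem sl_eq_inl {e : Link d} {f : Λ} : sl Λ η e = Sum.inl f ↔ e = f := by
  unfold sl
  split_ifs with h
  · simp [Subtype.ext_iff]
  · simp only [false_iff]
    rintro rfl
    exact h f.2

theorem Lk_sl (e : Link d) (U : Λ → SU N) : Lk (sl Λ η e) (embSU U) = glue Λ η U e := by
  unfold sl glue
  split_ifs <;> rfl

theorem inj_sl (p : Plaq d) : Inj fun k => sl Λ η (pl p k) := fun _ _ _ hi hj =>
  pl_inj p (((sl_eq_inl Λ η).1 hi).trans ((sl_eq_inl Λ η).1 hj).symm)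

theorem mem_lks_sl {p : Plaq d} {e : Λ} :
    e ∈ lks (fun k => sl Λ η (pl p k)) ↔ ∃ k, pl p k = e := by
  simp only [mem_lks, sl_eq_inl]

/-- the action as a smooth function -/
def actS (b : ℝ) (P : Finset (Plaq d)) : Sm (Λ → Mat N) :=
  b • ∑ p ∈ P, Psi (fun k => sl Λ η (pl p k)) 1

theorem actS_apply (b : ℝ) (P : Finset (Plaq d)) (U : Λ → SU N) :
    actS Λ η b P (embSU U) = action b P (glue Λ η U) := by
  simp only [actS, Sm.coe_smul, Pi.smul_apply, Sm.sum_apply, Psi_apply, Lk_sl, smul_eq_mul,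
    action, Pi.one_apply, one_mul]
  rfl

theorem gibbs_eq (b : ℝ) (P : Finset (Plaq d)) (F : (Link d → SU N) → ℝ) (F' : Sm (Λ → Mat N))
    (h : ∀ U, F' (embSU U) = F (glue Λ η U)) :
    gibbs b P Λ η F = EG (haarPi Λ N) embSU (actS Λ η b P) F' := by
  rw [EG_apply, gibbs]
  simp only [← h, ← actS_apply]
  rfl

theorem obs_lift {A : Finset (Link d)} {a : Link d → ℝ} {F : (Link d → SU N) → ℝ}
    (h : IsObs A a F) : ∃ F' : Sm (Λ → Mat N), (∀ U, F' (embSU U) = F (glue Λ η U)) ∧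
      ∀ (e : Λ) (U : Λ → SU N) (X : Mat N), IsSu X →
        |D1 e X F' (embSU U)| ≤ (if e.1 ∈ A then a e else 0) * ‖X‖ := by
  obtain ⟨φ, hφ, h1, h2⟩ := h
  refine ⟨Sm.mk (fun U => φ fun e => Lk (sl Λ η e) U)
    (hφ.comp (contDiff_pi.2 fun e => smooth_Lk _)), fun U => by simp only [h1, Sm.coe_mk, Lk_sl],
    fun e U X hX => ?_⟩
  set L : A → Mat N := fun e => glue Λ η U e with hL
  set ξ : A → Mat N := fun e' => Sum.elim (Pi.single e X : Λ → Mat N) 0 (sl Λ η e') * L e'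
    with hξ
  have e1 : D1 e X (Sm.mk (fun U => φ fun e => Lk (sl Λ η e) U)
      (hφ.comp (contDiff_pi.2 fun e => smooth_Lk _))) (embSU U) = fderiv ℝ φ L ξ := by
    apply DD_eq_of_hasDerivAt
    simp only [Sm.coe_mk, Lk_line, Lk_sl]
    have h3 : HasDerivAt (fun t : ℝ => L + t • ξ) ξ 0 := by
      have := ((hasDerivAt_id (0:ℝ)).smul_const ξ).const_add L
      rwa [one_smul] at this
    have h4 := ((hφ.differentiable (by simp)) (L + (0:ℝ) • ξ)).hasFDerivAt.comp_hasDerivAt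
      (0:ℝ) h3
    rw [zero_smul, add_zero] at h4
    exact h4
  rw [e1]
  have e2 : ∀ e' : A, e'.1 ≠ e.1 → ξ e' = 0 := by
    intro e' he'
    have : Sum.elim (Pi.single e X : Λ → Mat N) 0 (sl Λ η e') = 0 := by
      cases hs : sl Λ η e' with
      | inl f =>
        have : f ≠ e := fun h => he' (by rw [(sl_eq_inl Λ η).1 hs, h])
        simp [this]
      | inr g => simp
    simp only [hξ, this, zero_mul]
  split_ifs with he
  · have : ξ = Pi.single (⟨e.1, he⟩ : A) (X * glue Λ η U e) := by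
      funext e'
      by_cases h : e' = ⟨e.1, he⟩
      · subst h
        have : sl Λ η e.1 = Sum.inl e := (sl_eq_inl Λ η).2 rfl
        simp [hξ, this, hL]
      · rw [e2 e' fun h' => h (Subtype.ext h'), Pi.single_eq_of_ne h]
    rw [this]
    exact h2 (glue Λ η U) ⟨e.1, he⟩ X hX.1 hX.2
  · have : ξ = 0 := funext fun e' => e2 e' fun h => he (h ▸ e'.2)
    simp [this]

theorem sum_ite_le (A : Finset (Link d)) (a : Link d → ℝ) :
    ∑ e : Λ, (if e.1 ∈ A then a e else 0) ^ 2 ≤ ∑ e ∈ A, a e ^ 2 := by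
  rw [Finset.sum_coe_sort Λ fun e => (if e ∈ A then a e else 0) ^ 2]
  simp only [ite_pow, ne_eq, OfNat.ofNat_ne_zero, not_false_eq_true, zero_pow,
    ← Finset.sum_filter]
  exact Finset.sum_le_sum_of_subset_of_nonneg (fun e he => (Finset.mem_filter.1 he).2)
    fun _ _ _ => sq_nonneg _

end Pool.Agent.H419Z
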