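import Pool.Agent.H419Z.Word
import Pool.Agent.H419Z.Abs

/-! Plaquette functions and their derivatives. -/

open Matrix
open scoped Matrix.Norms.Frobenius ContDiff

set_option maxHeartbeats 400000

noncomputable section

namespace Pool.Agent.H419Z

variable {N : ℕ} {ι : Type*} [Fintype ι] [DecidableEq ι]

/-- value of a slot -/
def Lk (s : ι ⊕ SU N) (U : ι → Mat N) : Mat N := Sum.elim U (fun g : SU N => (g : Mat N)) s

/-- real part of the trace as a continuous linear map -/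
def rtL : Mat N →L[ℝ] ℝ := LinearMap.toContinuousLinearMap rt

/-- adjoint as a continuous linear map -/
def stL : Mat N →L[ℝ] Mat N := LinearMap.toContinuousLinearMap
  { toFun := fun A => Aᴴ
    map_add' := conjTranspose_add
    map_smul' := fun c A => by simp }

omit [DecidableEq ι] in
theorem smooth_Lk (s : ι ⊕ SU N) : ContDiff ℝ ∞ (Lk s) := by
  cases s with
  | inl e => exact contDiff_apply ℝ _ e
  | inr g => exact contDiff_const

/-- plaquette function with insertions -/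
def Psi (s : Fin 4 → ι ⊕ SU N) (Z : Fin 4 → Mat N) : Sm (ι → Mat N) :=
  Sm.mk (fun U => wd fun i => Z i * Lk (s i) U) (rtL.contDiff.comp
    ((((contDiff_const.mul (smooth_Lk _)).mul (contDiff_const.mul (smooth_Lk _))).mul
      (stL.contDiff.comp (contDiff_const.mul (smooth_Lk _)))).mul
      (stL.contDiff.comp (contDiff_const.mul (smooth_Lk _)))))

omit [DecidableEq ι] in
theorem Psi_apply (s : Fin 4 → ι ⊕ SU N) (Z : Fin 4 → Mat N) (U : ι → Mat N) :
    Psi s Z U = wd fun i => Z i * Lk (s i) U := rfl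

omit [DecidableEq ι] in
theorem Psi_update (s : Fin 4 → ι ⊕ SU N) (Z : Fin 4 → Mat N) (i : Fin 4) (M : Mat N)
    (U : ι → Mat N) : Psi s (Function.update Z i M) U =
      rt (M * (Lk (s i) U * rot i fun j => Z j * Lk (s j) U)) := by
  rw [Psi_apply, ← mul_assoc, ← wd_update]
  congr 1
  funext j
  by_cases h : j = i
  · subst h
    simp
  · simp [h]

theorem hasDerivAt_wd {Y : ℝ → Fin 4 → Mat N} {Y' : Fin 4 → Mat N}
    (h : ∀ i, HasDerivAt (fun t => Y t i) (Y' i) 0) :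
    HasDerivAt (fun t => wd (Y t)) (∑ i, wd (Function.update (Y 0) i (Y' i))) 0 := by
  have hs : ∀ i, HasDerivAt (fun t => (Y t i)ᴴ) (Y' i)ᴴ 0 := fun i =>
    stL.hasFDerivAt.comp_hasDerivAt (0 : ℝ) (h i)
  have := rtL.hasFDerivAt.comp_hasDerivAt (0 : ℝ) ((((h 0).mul (h 1)).mul (hs 2)).mul (hs 3))
  refine HasDerivAt.congr_deriv this ?_
  change rt _ = _
  simp [Fin.sum_univ_four, wd, add_mul]

omit [DecidableEq ι] [Fintype ι] in
theorem Lk_line (s : ι ⊕ SU N) (X U : ι → Mat N) (t : ℝ) :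
    Lk s (U + t • (X * U)) = Lk s U + t • (Sum.elim X 0 s * Lk s U) := by
  cases s with
  | inl e => rfl
  | inr g => simp only [Lk, Sum.elim_inr, Pi.zero_apply, zero_mul, smul_zero, add_zero]

theorem hasDerivAt_line (Z L M : Mat N) : HasDerivAt (fun t : ℝ => Z * (L + t • M)) (Z * M) 0 := by
  have := (((hasDerivAt_id (0:ℝ)).smul_const M).const_add L).const_mul Z
  rwa [one_smul] at this

omit [DecidableEq ι] in
theorem DD_Psi (s : Fin 4 → ι ⊕ SU N) (Z : Fin 4 → Mat N) (X : ι → Mat N) :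
    DD X (Psi s Z) = ∑ i, Psi s (Function.update Z i (Z i * Sum.elim X 0 (s i))) := by
  ext U
  apply DD_eq_of_hasDerivAt
  simp only [Psi_apply, Lk_line]
  have h := hasDerivAt_wd (Y := fun t i => Z i * (Lk (s i) U + t • (Sum.elim X 0 (s i) * Lk (s i) U)))
    (fun i => hasDerivAt_line _ _ _)
  refine h.congr_deriv ?_
  rw [Sm.sum_apply]
  refine Finset.sum_congr rfl fun i _ => ?_
  rw [Psi_update, wd_update]
  simp only [zero_smul, add_zero, mul_assoc]

/-- derivative in one link -/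
def D1 (e : ι) : Mat N →ₗ[ℝ] Sm (ι → Mat N) →ₗ[ℝ] Sm (ι → Mat N) :=
  DD ∘ₗ LinearMap.single ℝ (fun _ => Mat N) e

theorem D1_apply (e : ι) (A : Mat N) : D1 e A = DD (Pi.single e A : ι → Mat N) := rfl

/-- the frame on the product -/
def TT (e : ι) (a : Ix N) : ι → Mat N := Pi.single e (Tf a)

theorem DD_TT (e : ι) (a : Ix N) : DD (TT e a) = D1 e (Tf a) := rfl

omit [DecidableEq ι] in
theorem Psi_zero (s : Fin 4 → ι ⊕ SU N) (Z : Fin 4 → Mat N) (i : Fin 4) :
    Psi s (Function.update Z i 0) = 0 := by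
  ext U
  simp [Psi_update]

theorem D1_Psi_zero (s : Fin 4 → ι ⊕ SU N) (Z : Fin 4 → Mat N) {e : ι}
    (h : ∀ i, s i ≠ Sum.inl e) (A : Mat N) : D1 e A (Psi s Z) = 0 := by
  rw [D1_apply, DD_Psi]
  refine Finset.sum_eq_zero fun i _ => ?_
  have : Sum.elim (Pi.single e A : ι → Mat N) 0 (s i) = 0 := by
    have := h i
    cases hs : s i with
    | inl f =>
      have : f ≠ e := fun h => this (by rw [hs, h])
      simp [this]
    | inr g => simp
  rw [this, mul_zero, Psi_zero]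

/-- the dynamic links of a plaquette are distinct -/
def Inj (s : Fin 4 → ι ⊕ SU N) : Prop := ∀ i j e, s i = Sum.inl e → s j = Sum.inl e → i = j

theorem D1_Psi {s : Fin 4 → ι ⊕ SU N} (hs : Inj s) (Z : Fin 4 → Mat N) {e : ι} {i : Fin 4}
    (h : s i = Sum.inl e) (A : Mat N) :
    D1 e A (Psi s Z) = Psi s (Function.update Z i (Z i * A)) := by
  rw [D1_apply, DD_Psi, Finset.sum_eq_single i]
  · simp [h]
  · intro j _ hj
    have : Sum.elim (Pi.single e A : ι → Mat N) 0 (s j) = 0 := by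
      cases hs' : s j with
      | inl f =>
        have : f ≠ e := fun h' => hj (hs j i e (by rw [hs', h']) h)
        simp [this]
      | inr g => simp
    rw [this, mul_zero, Psi_zero]
  · simp

theorem D1_D1_Psi {s : Fin 4 → ι ⊕ SU N} (hs : Inj s) {e f : ι} {i j : Fin 4}
    (hi : s i = Sum.inl e) (hj : s j = Sum.inl f) (A B : Mat N) :
    D1 e A (D1 f B (Psi s 1)) = Psi s (Z2 i j A B) := by
  rw [D1_Psi hs _ hj, D1_Psi hs _ hi]
  simp [Z2]

/-- points of the group -/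
def embSU : (ι → SU N) →ₜ* (ι → Mat N) where
  toFun g e := g e
  map_one' := rfl
  map_mul' _ _ := rfl
  continuous_toFun := continuous_pi fun e => continuous_subtype_val.comp (continuous_apply e)

omit [DecidableEq ι] [Fintype ι] in
theorem uni_Lk {U : ι → Mat N} (hU : U ∈ Set.range embSU) (s : ι ⊕ SU N) : Uni (Lk s U) := by
  obtain ⟨g, rfl⟩ := hU
  cases s with
  | inl e => exact uni_SU _
  | inr g => exact uni_SU _

theorem D3_Psi {s : Fin 4 → ι ⊕ SU N} (hs : Inj s) {e f g : ι} {i j k : Fin 4}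
    (hi : s i = Sum.inl e) (hj : s j = Sum.inl f) (hk : s k = Sum.inl g) (h1 : g ≠ e) (h2 : g ≠ f)
    {U : ι → Mat N} (hU : U ∈ Set.range embSU) : ∃ R, Kind true true R ∧
      ∀ X A B, D1 g X (D1 e A (D1 f B (Psi s 1))) U = rt (X * R A B) := by
  have hki : k ≠ i := fun h => h1 (Sum.inl_injective (by rw [← hk, h, hi]))
  have hkj : k ≠ j := fun h => h2 (Sum.inl_injective (by rw [← hk, h, hj]))
  refine ⟨_, (Kind.const (uni_Lk hU (s k))).mul
    (kind_rot hki hkj (kind_Z2 i j fun i => uni_Lk hU (s i))) rfl rfl, fun X A B => ?_⟩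
  rw [D1_D1_Psi hs hi hj, D1_Psi hs _ hk, Psi_update]
  simp [Z2, hki, hkj]

/-- dynamic links of a plaquette -/
def lks (s : Fin 4 → ι ⊕ SU N) : Finset ι := Finset.univ.filter fun e => ∃ i, s i = Sum.inl e

theorem mem_lks {s : Fin 4 → ι ⊕ SU N} {e : ι} : e ∈ lks s ↔ ∃ i, s i = Sum.inl e := by
  simp [lks]

theorem card_lks (s : Fin 4 → ι ⊕ SU N) : (lks s).card ≤ 4 := by
  classical
  have : (lks s).map ⟨Sum.inl, Sum.inl_injective⟩ ⊆ Finset.univ.image s := by
    intro x hx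
    obtain ⟨e, he, rfl⟩ := Finset.mem_map.1 hx
    obtain ⟨i, hi⟩ := mem_lks.1 he
    exact Finset.mem_image.2 ⟨i, Finset.mem_univ _, hi⟩
  have h2 := (Finset.card_le_card this).trans Finset.card_image_le
  simpa using h2

theorem D1_sum (e : ι) (y : Ix N → ℝ) (F : Sm (ι → Mat N)) (U : ι → Mat N) :
    D1 e (∑ a, y a • Tf a) F U = ∑ a, y a * D1 e (Tf a) F U := by
  simp only [map_sum, map_smul, LinearMap.sum_apply, LinearMap.smul_apply, Sm.sum_apply,
    Sm.coe_smul, Pi.smul_apply, smul_eq_mul]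

theorem D2_sum (L : Sm (ι → Mat N) →ₗ[ℝ] Sm (ι → Mat N)) (e f : ι) (y z : Ix N → ℝ)
    (F : Sm (ι → Mat N)) (U : ι → Mat N) :
    L (D1 e (∑ a, y a • Tf a) (D1 f (∑ a, z a • Tf a) F)) U =
      ∑ a, ∑ b, L (D1 e (Tf a) (D1 f (Tf b) F)) U * y a * z b := by
  simp only [map_sum, map_smul, LinearMap.sum_apply, LinearMap.smul_apply, Sm.sum_apply,
    Sm.coe_smul, Pi.smul_apply, smul_eq_mul, Finset.mul_sum]
  rw [Finset.sum_comm]
  exact Finset.sum_congr rfl fun a _ => Finset.sum_congr rfl fun b _ => by ring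

variable [NeZero N]

theorem drift_bound {π : Type*} (P : Finset π) (s : π → Fin 4 → ι ⊕ SU N) (hs : ∀ p ∈ P, Inj (s p))
    (β : ℝ) {M : ℝ} {g : ι} (hM : ((P.filter fun p => g ∈ lks (s p)).card : ℝ) ≤ M)
    {U : ι → Mat N} (hU : U ∈ Set.range embSU) (C : Mat N) :
    ‖(∑ k, D1 g (Tf k) (β • ∑ p ∈ P, Psi (s p) 1) U • Tf k) * C‖ ≤
      |β| * M * (2 - 2 / N) * ‖C‖ := by
  have hN1 : (1 : ℝ) ≤ N := Nat.one_le_cast.2 (Nat.pos_of_ne_zero (NeZero.ne N))
  have hτ : 0 ≤ 2 - 2 / (N : ℝ) := by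
    rw [sub_nonneg, div_le_iff₀ (by linarith)]
    linarith
  have e1 : ∑ k, D1 g (Tf k) (β • ∑ p ∈ P, Psi (s p) 1) U • Tf k =
      β • ∑ p ∈ P, ∑ k, D1 g (Tf k) (Psi (s p) 1) U • (Tf k : Mat N) := by
    simp only [map_smul, map_sum, Sm.coe_smul, Pi.smul_apply, Sm.sum_apply, smul_eq_mul,
      mul_smul, ← Finset.smul_sum, Finset.sum_smul]
    rw [Finset.sum_comm]
  have e2 : ∀ p ∈ P, ‖(∑ k, D1 g (Tf k) (Psi (s p) 1) U • (Tf k : Mat N)) * C‖ ≤
      if g ∈ lks (s p) then (2 - 2 / N) * ‖C‖ else 0 := by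
    intro p hp
    split_ifs with h
    · obtain ⟨i, hi⟩ := mem_lks.1 h
      simp only [D1_Psi (hs p hp) _ hi, Psi_update, Pi.one_apply, one_mul, sum_rt_Tf,
        Matrix.neg_mul, norm_neg]
      exact norm_Pr_mul ((uni_Lk hU _).mul (uni_rot _ fun j => uni_Lk hU _)) C
    · have : ∀ i, s p i ≠ Sum.inl g := fun i hi => h (mem_lks.2 ⟨i, hi⟩)
      simp [D1_Psi_zero _ _ this]
  rw [e1, smul_mul_assoc, norm_smul, Finset.sum_mul, mul_assoc, mul_assoc, Real.norm_eq_abs]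
  refine mul_le_mul_of_nonneg_left ?_ (abs_nonneg _)
  refine (norm_sum_le _ _).trans ((Finset.sum_le_sum e2).trans ?_)
  rw [← Finset.sum_filter, Finset.sum_const, nsmul_eq_mul]
  exact mul_le_mul_of_nonneg_right hM (by positivity)

theorem plaqOK {s : Fin 4 → ι ⊕ SU N} (hs : Inj s) (S : Sm (ι → Mat N)) {σ : ℝ} (hσ : 0 ≤ σ)
    (hS : ∀ g, ∀ U ∈ Set.range embSU, ∀ C : Mat N,
      ‖(∑ k, D1 g (Tf k) S U • Tf k) * C‖ ≤ σ * ‖C‖) :
    PlaqOK (Set.range embSU) TT S (Psi s 1) (lks s) ((N : ℝ) - (N : ℝ)⁻¹) σ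
      √((N : ℝ) - (N : ℝ)⁻¹) where
  card := card_lks s
  zero e he a := D1_Psi_zero _ _ (fun i hi => he (mem_lks.2 ⟨i, hi⟩)) _
  H1 e he f hf U hU y z := by
    obtain ⟨i, hi⟩ := mem_lks.1 he
    obtain ⟨j, hj⟩ := mem_lks.1 hf
    have := D2_sum LinearMap.id e f y z (Psi s 1) U
    simp only [LinearMap.id_apply] at this
    simp only [DD_TT]
    rw [← this, D1_D1_Psi hs hi hj, Psi_apply, one_mul]
    exact (wd_le (kind_Z2 i j fun i => uni_Lk hU (s i)) _ _).trans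
      (mul_le_mul (norm_sum_Tf y) (norm_sum_Tf z) (norm_nonneg _) (Real.sqrt_nonneg _))
  H2 e he f hf g hg h1 h2 a b := by
    obtain ⟨i, hi⟩ := mem_lks.1 he
    obtain ⟨j, hj⟩ := mem_lks.1 hf
    obtain ⟨k, hk⟩ := mem_lks.1 hg
    have hki : k ≠ i := fun h => h1 (Sum.inl_injective (by rw [← hk, h, hi]))
    have hkj : k ≠ j := fun h => h2 (Sum.inl_injective (by rw [← hk, h, hj]))
    simp only [DD_TT]
    rw [D1_D1_Psi hs hi hj]
    have h3 : Z2 i j (Tf a) (Tf b) k = 1 := by simp [Z2, hki, hkj]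
    simp only [D1_Psi hs _ hk, Function.update_self, Function.update_idem, h3, one_mul]
    conv_rhs => rw [← Function.update_eq_self k (Z2 i j (Tf a) (Tf b)), h3]
    ext U
    simp only [Sm.sum_apply, Psi_update, Sm.coe_smul, Pi.smul_apply, ← map_sum,
      ← Finset.sum_mul, casimir, one_mul, Matrix.neg_mul, map_neg, smul_mul_assoc, map_smul,
      neg_smul, Sm.coe_neg, Pi.neg_apply]
  H3 e he f hf g hg h1 h2 U hU y z := by
    obtain ⟨i, hi⟩ := mem_lks.1 he
    obtain ⟨j, hj⟩ := mem_lks.1 hf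
    obtain ⟨k, hk⟩ := mem_lks.1 hg
    obtain ⟨R, hR, h⟩ := D3_Psi hs hi hj hk h1 h2 hU
    have e1 : ∑ k, ∑ a, ∑ b, DD (TT g k) (DD (TT e a) (DD (TT f b) (Psi s 1))) U *
        DD (TT g k) S U * y a * z b = rt ((∑ k, D1 g (Tf k) S U • Tf k) *
          R (∑ a, y a • Tf a) (∑ a, z a • Tf a)) := by
      rw [← h, D1_sum]
      refine Finset.sum_congr rfl fun k _ => ?_
      rw [D2_sum, Finset.mul_sum]
      refine Finset.sum_congr rfl fun a _ => ?_
      rw [Finset.mul_sum]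
      refine Finset.sum_congr rfl fun b _ => ?_
      simp only [DD_TT]
      ring
    rw [e1]
    exact (hR.op_le hσ (hS g U hU) _ _).trans (mul_le_mul_of_nonneg_left
      (mul_le_mul (norm_sum_Tf y) (norm_sum_Tf z) (norm_nonneg _) (Real.sqrt_nonneg _)) hσ)
  H4 e he f hf g hg h1 h2 U hU y z := by
    obtain ⟨i, hi⟩ := mem_lks.1 he
    obtain ⟨j, hj⟩ := mem_lks.1 hf
    obtain ⟨k, hk⟩ := mem_lks.1 hg
    obtain ⟨R, hR, h⟩ := D3_Psi hs hi hj hk h1 h2 hU
    simp only [DD_TT]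
    rw [Finset.sum_congr rfl fun k _ =>
      (D2_sum (D1 g (Tf k)) e f (fun a => y (k, a)) z (Psi s 1) U).symm]
    simp only [h]
    refine (hR.sum_le _ _).trans (mul_le_mul_of_nonneg_left (mul_le_mul ?_ (norm_sum_Tf z)
      (norm_nonneg _) (Real.sqrt_nonneg _)) (Real.sqrt_nonneg _))
    apply Real.sqrt_le_sqrt
    rw [Fintype.sum_prod_type (f := fun p => y p ^ 2)]
    refine Finset.sum_le_sum fun k _ => ?_
    rw [← Real.sq_sqrt (x := ∑ a, y (k, a) ^ 2) (by positivity)]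
    exact pow_le_pow_left₀ (norm_nonneg _) (norm_sum_Tf _) 2
  H5 e he f hf g hg h1 h2 U hU y z := by
    obtain ⟨i, hi⟩ := mem_lks.1 he
    obtain ⟨j, hj⟩ := mem_lks.1 hf
    obtain ⟨k, hk⟩ := mem_lks.1 hg
    obtain ⟨R, hR, h⟩ := D3_Psi hs hi hj hk h1 h2 hU
    simp only [DD_TT]
    rw [Finset.sum_congr rfl fun k _ =>
      (D2_sum (D1 g (Tf k)) e f y (fun b => z (k, b)) (Psi s 1) U).symm]
    simp only [h]
    rw [mul_comm √(∑ a, y a ^ 2)]
    refine (hR.swap.sum_le (fun k => ∑ b, z (k, b) • Tf b) _).trans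
      (mul_le_mul_of_nonneg_left (mul_le_mul ?_ (norm_sum_Tf y)
      (norm_nonneg _) (Real.sqrt_nonneg _)) (Real.sqrt_nonneg _))
    apply Real.sqrt_le_sqrt
    rw [Fintype.sum_prod_type (f := fun p => z p ^ 2)]
    refine Finset.sum_le_sum fun k _ => ?_
    rw [← Real.sq_sqrt (x := ∑ a, z (k, a) ^ 2) (by positivity)]
    exact pow_le_pow_left₀ (norm_nonneg _) (norm_sum_Tf _) 2

end Pool.Agent.H419Z
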