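import Pool.Agent.H419Z.Haar

/-! The generator and density of the range of `λ - L`. -/

open scoped ContDiff
open MeasureTheory

noncomputable section

namespace Pool.Agent.H419Z

variable {V : Type*} [NormedRing V] [NormedAlgebra ℝ V]

/-- minus the adjoint of `DD X` -/
def Ds (S : Sm V) (X : V) : Sm V →ₗ[ℝ] Sm V := DD X + LinearMap.mulLeft ℝ (DD X S)

theorem Ds_apply (S : Sm V) (X : V) (F : Sm V) : Ds S X F = DD X F + DD X S * F := rfl

/-- the generator -/
def Gen {κ : Type*} [Fintype κ] (S : Sm V) (T : κ → V) : Sm V →ₗ[ℝ] Sm V :=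
  ∑ a, Ds S (T a) ∘ₗ DD (T a)

theorem Gen_apply {κ : Type*} [Fintype κ] (S : Sm V) (T : κ → V) (u : Sm V) :
    Gen S T u = ∑ a, Ds S (T a) (DD (T a) u) := by
  simp [Gen, LinearMap.sum_apply]

theorem Ds_adj {E : Sm V →ₗ[ℝ] ℝ} {S : Sm V} {X : V} (hI : ∀ F, E (DD X F) = -E (DD X S * F))
    (F G : Sm V) : E (Ds S X F * G) = -E (F * DD X G) := by
  have h := hI (F * G)
  rw [DD_mul, map_add] at h
  rw [Ds_apply, add_mul, map_add, mul_assoc]
  linarith

theorem Gen_adj {κ : Type*} [Fintype κ] {E : Sm V →ₗ[ℝ] ℝ} {S : Sm V} {T : κ → V}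
    (hI : ∀ a F, E (DD (T a) F) = -E (DD (T a) S * F)) (u v : Sm V) :
    E (Gen S T u * v) = -∑ a, E (DD (T a) u * DD (T a) v) := by
  rw [Gen_apply, Finset.sum_mul, map_sum, ← Finset.sum_neg_distrib]
  exact Finset.sum_congr rfl fun a _ => Ds_adj (hI a) _ _

/-- resolvent operator `λ - L` -/
def Res {κ : Type*} [Fintype κ] (S : Sm V) (T : κ → V) (l : ℝ) : Sm V →ₗ[ℝ] Sm V :=
  l • LinearMap.id - Gen S T

theorem Res_apply {κ : Type*} [Fintype κ] (S : Sm V) (T : κ → V) (l : ℝ) (u : Sm V) :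
    Res S T l u = l • u - Gen S T u := rfl

theorem Res_form {κ : Type*} [Fintype κ] {E : Sm V →ₗ[ℝ] ℝ} {S : Sm V} {T : κ → V}
    (hI : ∀ a F, E (DD (T a) F) = -E (DD (T a) S * F)) (l : ℝ) (u v : Sm V) :
    E (Res S T l u * v) = l * E (u * v) + ∑ a, E (DD (T a) u * DD (T a) v) := by
  rw [Res_apply, sub_mul, map_sub, Gen_adj hI, smul_mul_assoc, map_smul, smul_eq_mul]
  ring

theorem nr_le_Res {κ : Type*} [Fintype κ] {E : Sm V →ₗ[ℝ] ℝ} (hE : ∀ F, 0 ≤ E (F * F))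
    {S : Sm V} {T : κ → V}
    (hI : ∀ a F, E (DD (T a) F) = -E (DD (T a) S * F)) (l : ℝ) (u : Sm V) :
    l * nr E u ≤ nr E (Res S T l u) := by
  have h1 := Res_form hI l u u
  have h2 := le_nr hE (Res S T l u) u
  have h3 : 0 ≤ ∑ a, E (DD (T a) u * DD (T a) u) := Finset.sum_nonneg fun a _ => hE _
  have h4 := nr_sq hE u
  have h5 := nr_nonneg E u
  have h6 := nr_nonneg E (Res S T l u)
  rcases h5.eq_or_lt with h | h
  · rw [← h, mul_zero]
    exact h6
  · apply le_of_mul_le_mul_right _ h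
    rw [← h4] at h1
    nlinarith

theorem grad_le_Res {κ : Type*} [Fintype κ] {E : Sm V →ₗ[ℝ] ℝ} (hE : ∀ F, 0 ≤ E (F * F))
    {S : Sm V} {T : κ → V}
    (hI : ∀ a F, E (DD (T a) F) = -E (DD (T a) S * F)) {l : ℝ} (hl : 0 < l) (u : Sm V) :
    4 * l * ∑ a, E (DD (T a) u * DD (T a) u) ≤ nr E (Res S T l u) ^ 2 := by
  have h1 := Res_form hI l u u
  have h2 := le_nr hE (Res S T l u) u
  have h4 := nr_sq hE u
  rw [← h4] at h1
  have h5 : ∑ a, E (DD (T a) u * DD (T a) u) ≤ nr E (Res S T l u) * nr E u - l * nr E u ^ 2 := by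
    linarith
  have h6 := mul_le_mul_of_nonneg_left h5 (by positivity : 0 ≤ 4 * l)
  nlinarith [sq_nonneg (nr E (Res S T l u) - 2 * l * nr E u)]

/-- linear functionals as smooth functions -/
def dualSm : (V →L[ℝ] ℝ) →ₗ[ℝ] Sm V where
  toFun φ := Sm.mk φ φ.contDiff
  map_add' _ _ := rfl
  map_smul' _ _ := rfl

theorem DD_dualSm (X : V) (φ : V →L[ℝ] ℝ) :
    DD X (dualSm φ) = dualSm (φ.comp (ContinuousLinearMap.mul ℝ V X)) := by
  ext U
  rw [DD_apply]
  change fderiv ℝ φ U (X * U) = _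
  rw [φ.fderiv]
  rfl

variable (V) in
/-- affine functions -/
def Aff : Submodule ℝ (Sm V) := Submodule.span ℝ {1} ⊔ LinearMap.range dualSm

theorem one_mem_Aff : (1 : Sm V) ∈ Aff V :=
  Submodule.mem_sup_left (Submodule.mem_span_singleton_self _)

theorem DD_mem_Aff (X : V) {F : Sm V} (hF : F ∈ Aff V) : DD X F ∈ Aff V := by
  obtain ⟨y, hy, z, ⟨φ, rfl⟩, rfl⟩ := Submodule.mem_sup.1 hF
  obtain ⟨c, rfl⟩ := Submodule.mem_span_singleton.1 hy
  rw [map_add, map_smul, DD_one, smul_zero, zero_add, DD_dualSm]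
  exact Submodule.mem_sup_right ⟨_, rfl⟩

theorem DD_mem_pow (X : V) {n : ℕ} {F : Sm V} (hF : F ∈ Aff V ^ n) : DD X F ∈ Aff V ^ n := by
  refine Submodule.pow_induction_on_left' (Aff V) (C := fun n F _ => DD X F ∈ Aff V ^ n)
    (fun r => ?_) (fun x y i _ _ hx hy => ?_) (fun m hm i x hx h => ?_) hF
  · rw [DD_algebraMap]
    exact zero_mem _
  · rw [map_add]
    exact add_mem hx hy
  · rw [DD_mul, pow_succ']
    exact add_mem (Submodule.mul_mem_mul (DD_mem_Aff X hm) hx) (Submodule.mul_mem_mul hm h)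

theorem mem_pow_mono {n m : ℕ} (h : n ≤ m) {F : Sm V} (hF : F ∈ Aff V ^ n) : F ∈ Aff V ^ m := by
  induction h with
  | refl => exact hF
  | step _ ih =>
    rw [pow_succ, ← mul_one F]
    exact Submodule.mul_mem_mul ih one_mem_Aff

variable (V) in
/-- polynomial functions -/
def Poly : Subalgebra ℝ (Sm V) where
  carrier := {F | ∃ n, F ∈ Aff V ^ n}
  mul_mem' := fun ⟨n, hn⟩ ⟨m, hm⟩ => ⟨n + m, by
    rw [pow_add]
    exact Submodule.mul_mem_mul hn hm⟩
  add_mem' := fun ⟨n, hn⟩ ⟨m, hm⟩ => ⟨n + m,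
    add_mem (mem_pow_mono (Nat.le_add_right n m) hn) (mem_pow_mono (Nat.le_add_left m n) hm)⟩
  algebraMap_mem' := fun r => ⟨0, Submodule.algebraMap_mem r⟩

theorem fg_Aff [FiniteDimensional ℝ V] : (Aff V).FG :=
  Submodule.FG.sup (Submodule.fg_span_singleton _) (by
    rw [LinearMap.range_eq_map]
    exact (Module.Finite.fg_top).map _)

variable {Ω : Type*} [Group Ω] [TopologicalSpace Ω] [CompactSpace Ω]
  [MeasurableSpace Ω] [BorelSpace Ω] (μ : Measure Ω) [IsProbabilityMeasure μ]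
  (emb : Ω →ₜ* V)

/-- restriction to the group -/
def resC : Sm V →ₐ[ℝ] C(Ω, ℝ) where
  toFun F := ⟨fun g => (F : V → ℝ) (emb g), cont_emb emb F⟩
  map_one' := rfl
  map_mul' _ _ := rfl
  map_zero' := rfl
  map_add' _ _ := rfl
  commutes' _ := rfl

theorem poly_dense (hinj : Function.Injective emb) (f : Sm V) {ε : ℝ} (hε : 0 < ε) :
    ∃ p ∈ Poly V, nr (E0 μ emb) (f - p) ≤ ε := by
  have hs : ((Poly V).map (resC emb)).SeparatesPoints := by
    intro x y hxy
    obtain ⟨φ, hφ⟩ := SeparatingDual.exists_separating_of_ne (R := ℝ) (hinj.ne hxy)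
    refine ⟨_, ⟨resC emb (dualSm φ), ⟨dualSm φ, ⟨1, ?_⟩, rfl⟩, rfl⟩, hφ⟩
    rw [pow_one]
    exact Submodule.mem_sup_right ⟨_, rfl⟩
  obtain ⟨⟨_, p, hp, rfl⟩, h⟩ :=
    ContinuousMap.exists_mem_subalgebra_near_continuous_of_separatesPoints _ hs _
      (cont_emb emb f) ε hε
  refine ⟨p, hp, Real.sqrt_le_iff.2 ⟨hε.le, ?_⟩⟩
  have : E0 μ emb ((f - p) * (f - p)) ≤ E0 μ emb (ε ^ 2 • (1 : Sm V)) := by
    apply E0_mono
    intro g
    have h1 := h g
    change ‖(p : V → ℝ) (emb g) - (f : V → ℝ) (emb g)‖ < ε at h1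
    change ((f : V → ℝ) (emb g) - (p : V → ℝ) (emb g)) *
      ((f : V → ℝ) (emb g) - (p : V → ℝ) (emb g)) ≤ ε ^ 2 * 1
    rw [Real.norm_eq_abs, abs_lt] at h1
    nlinarith [h1.1, h1.2]
  rwa [map_smul, E0_one, smul_eq_mul, mul_one] at this

variable [IsTopologicalGroup Ω] [μ.IsMulLeftInvariant] [μ.IsOpenPosMeasure]
  [FiniteDimensional ℝ V] {κ : Type*} [Fintype κ] {T : κ → V}

omit [μ.IsOpenPosMeasure] [Fintype κ] in
theorem E0_ibp (hT : ∀ a, Tan emb (T a)) (a : κ) (F : Sm V) :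
    E0 μ emb (DD (T a) F) = -E0 μ emb (DD (T a) 0 * F) := by
  have : CompleteSpace V := FiniteDimensional.complete ℝ V
  rw [E0_DD μ emb (hT a), map_zero, zero_mul, map_zero, neg_zero]

include μ in
theorem Res0_inj (hT : ∀ a, Tan emb (T a)) {l : ℝ} (hl : 0 < l) {u : Sm V}
    (hu : Res 0 T l u = 0) : u = 0 := by
  ext W
  have h1 : Res 0 T l (rsh W u) = 0 := by
    have : Res 0 T l (rsh W u) = rsh W (Res 0 T l u) := by
      simp only [Res_apply, Gen_apply, Ds_apply, map_zero, zero_mul, add_zero, map_sub, map_smul,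
        map_sum, DD_rsh]
    rw [this, hu, map_zero]
  have h2 := nr_le_Res (E0_pos μ emb) (E0_ibp μ emb hT) l (rsh W u)
  rw [h1] at h2
  have h3 : nr (E0 μ emb) (0 : Sm V) = 0 := by simp [nr]
  have h4 := nr_nonneg (E0 μ emb) (rsh W u)
  have h5 : nr (E0 μ emb) (rsh W u) = 0 := by nlinarith
  have h6 := nr_sq (E0_pos μ emb) (rsh W u)
  rw [h5] at h6
  have h7 := eq_zero_of_E0 μ emb (F := rsh W u) (by rw [← h6]; simp) 1
  rwa [rsh_apply, map_one, one_mul] at h7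

include μ in
theorem Res0_surj (hT : ∀ a, Tan emb (T a)) {l : ℝ} (hl : 0 < l) {p : Sm V} (hp : p ∈ Poly V) :
    ∃ u, Res 0 T l u = p := by
  obtain ⟨n, hn⟩ := hp
  have : FiniteDimensional ℝ (Aff V ^ n : Submodule ℝ (Sm V)) :=
    Module.Finite.iff_fg.2 (fg_Aff.pow n)
  have hm : ∀ x ∈ Aff V ^ n, Res 0 T l x ∈ Aff V ^ n := by
    intro x hx
    simp only [Res_apply, Gen_apply, Ds_apply, map_zero, zero_mul, add_zero]
    exact sub_mem (Submodule.smul_mem _ _ hx)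
      (Submodule.sum_mem _ fun a _ => DD_mem_pow _ (DD_mem_pow _ hx))
  have hi : Function.Injective ((Res 0 T l).restrict hm) := by
    rw [← LinearMap.ker_eq_bot, LinearMap.ker_eq_bot']
    intro m h
    exact Subtype.ext (Res0_inj μ emb hT hl (congrArg Subtype.val h))
  obtain ⟨u, hu⟩ := LinearMap.injective_iff_surjective.1 hi ⟨p, hn⟩
  exact ⟨u, congrArg Subtype.val hu⟩

omit [IsTopologicalGroup Ω] [μ.IsMulLeftInvariant] [μ.IsOpenPosMeasure] [FiniteDimensional ℝ V] in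
theorem nr_mul_le {G : Sm V} {C : ℝ} (hC0 : 0 ≤ C) (hC : ∀ g, |(G : V → ℝ) (emb g)| ≤ C)
    (F : Sm V) : nr (E0 μ emb) (G * F) ≤ C * nr (E0 μ emb) F := by
  rw [← abs_of_nonneg hC0, ← nr_smul]
  apply Real.sqrt_le_sqrt
  apply E0_mono
  intro g
  simp only [Sm.coe_mul, Sm.coe_smul, Pi.mul_apply, Pi.smul_apply, smul_eq_mul]
  have h := sq_le_sq' (neg_le_of_abs_le (hC g)) (le_of_abs_le (hC g))
  nlinarith [mul_self_nonneg ((F : V → ℝ) (emb g))]

theorem range_dense (hinj : Function.Injective emb) (hT : ∀ a, Tan emb (T a)) (S : Sm V) :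
    ∃ l0 : ℝ, 0 < l0 ∧ ∀ l, 0 < l → l ≤ l0 → ∀ f ε, 0 < ε →
      ∃ u, nr (EG μ emb S) (f - Res S T l u) ≤ ε := by
  have : CompleteSpace V := FiniteDimensional.complete ℝ V
  choose C hC0 hC using fun a => exists_bound emb (DD (T a) S)
  have hs : 0 ≤ ∑ a, C a := Finset.sum_nonneg fun a _ => hC0 a
  set c := ∑ a, C a + 1 with hc
  have hc0 : 0 < c := by positivity
  refine ⟨c ^ 2, by positivity, fun l hl hl0 => ?_⟩
  have h0 : ∀ f ε, 0 < ε → ∃ u, nr (E0 μ emb) (f - Res 0 T (c ^ 2) u) ≤ ε := by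
    intro f ε hε
    obtain ⟨p, hp, h⟩ := poly_dense μ emb hinj f hε
    obtain ⟨u, rfl⟩ := Res0_surj μ emb hT (l := c ^ 2) (by positivity) hp
    exact ⟨u, h⟩
  have h1 := dense_perturb (E0_pos μ emb) (Res 0 T (c ^ 2)) (Res S T (c ^ 2) - Res 0 T (c ^ 2))
    (θ := 1 / 2) (by norm_num) (by norm_num) (fun u => by
      have e : (Res S T (c ^ 2) - Res 0 T (c ^ 2)) u = -∑ a, DD (T a) S * DD (T a) u := by
        simp only [LinearMap.sub_apply, Res_apply, Gen_apply, Ds_apply, map_zero, zero_mul,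
          add_zero, Finset.sum_add_distrib]
        ring
      rw [e, nr_neg]
      refine (nr_sum_le (E0_pos μ emb) _ _).trans ?_
      have hg := grad_le_Res (E0_pos μ emb) (E0_ibp μ emb hT) (l := c ^ 2) (by positivity) u
      set R := nr (E0 μ emb) (Res 0 T (c ^ 2) u)
      have hR : 0 ≤ R := nr_nonneg _ _
      have hb : ∀ a, nr (E0 μ emb) (DD (T a) u) ≤ R / (2 * c) := by
        intro a
        apply Real.sqrt_le_iff.2 ⟨by positivity, ?_⟩
        have := Finset.single_le_sum (f := fun a => E0 μ emb (DD (T a) u * DD (T a) u))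
          (fun a _ => E0_pos μ emb _) (Finset.mem_univ a)
        rw [div_pow, le_div_iff₀ (by positivity)]
        nlinarith [sq_nonneg c]
      calc _ ≤ ∑ a, C a * (R / (2 * c)) := Finset.sum_le_sum fun a _ =>
            (nr_mul_le μ emb (hC0 a) (hC a) _).trans (mul_le_mul_of_nonneg_left (hb a) (hC0 a))
        _ ≤ c * (R / (2 * c)) := by
            rw [← Finset.sum_mul]
            exact mul_le_mul_of_nonneg_right (by linarith) (by positivity)
        _ = 1 / 2 * R := by field_simp) h0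
  rw [add_sub_cancel] at h1
  obtain ⟨K, hK, hK1, -⟩ := nr_equiv μ emb S
  have h2 : ∀ f ε, 0 < ε → ∃ u, nr (EG μ emb S) (f - Res S T (c ^ 2) u) ≤ ε := by
    intro f ε hε
    obtain ⟨u, hu⟩ := h1 f (ε / K) (by positivity)
    refine ⟨u, (hK1 _).trans ?_⟩
    rwa [← le_div_iff₀' hK]
  have h3 := dense_perturb (EG_pos μ emb S) (Res S T (c ^ 2)) (Res S T l - Res S T (c ^ 2))
    (θ := (c ^ 2 - l) / c ^ 2) (div_nonneg (by linarith) (by positivity))
    (by rw [div_lt_one (by positivity)]; linarith) (fun u => by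
      have e : (Res S T l - Res S T (c ^ 2)) u = (l - c ^ 2) • u := by
        simp only [LinearMap.sub_apply, Res_apply, sub_smul]
        ring
      rw [e, nr_smul, abs_of_nonpos (by linarith)]
      have := nr_le_Res (EG_pos μ emb S) (fun a => EG_DD μ emb (hT a) S) (c ^ 2) u
      rw [div_mul_eq_mul_div, le_div_iff₀ (by positivity)]
      nlinarith) h2
  rwa [add_sub_cancel] at h3

end Pool.Agent.H419Z
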