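import Pool.Agent.H419Z.Plaq

/-! The covariance bound for products of `SU(N)`. -/

open Matrix MeasureTheory
open scoped Matrix.Norms.Frobenius ContDiff

set_option maxHeartbeats 400000

noncomputable section

namespace Pool.Agent.H419Z

instance instSecondSU (N : ℕ) : SecondCountableTopology (SU N) :=
  have : SecondCountableTopology (Mat N) :=
    inferInstanceAs (SecondCountableTopology (Fin N → Fin N → ℂ))
  TopologicalSpace.Subtype.secondCountableTopology _

instance instHaarSU (N : ℕ) : (haar N).IsHaarMeasure := by unfold haar; infer_instance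

instance instProbSU (N : ℕ) : IsProbabilityMeasure (haar N) := by
  constructor
  have := Measure.haarMeasure_self (K₀ := (⊤ : TopologicalSpace.PositiveCompacts (SU N)))
  simpa [haar] using this

instance instRightSU (N : ℕ) : (haar N).IsMulRightInvariant := by
  constructor
  intro g
  have h1 : (Measure.map (· * g) (haar N)).IsHaarMeasure := by infer_instance
  have h2 : IsProbabilityMeasure (Measure.map (· * g) (haar N)) :=
    Measure.isProbabilityMeasure_map (measurable_mul_const g).aemeasurable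
  exact Measure.isHaarMeasure_eq_of_isProbabilityMeasure _ _

variable {N : ℕ} {ι : Type*} [Fintype ι] [DecidableEq ι]

/-- product Haar measure -/
abbrev haarPi (ι : Type*) [Fintype ι] (N : ℕ) : Measure (ι → SU N) := Measure.pi fun _ => haar N

omit [DecidableEq ι] in
theorem tan_of_su {X : ι → Mat N} (h : ∀ e, IsSu (X e)) : Tan embSU X := fun t =>
  ⟨fun e => ⟨NormedSpace.exp (t • X e), ((h e).smul t).exp_mem⟩, by
    funext e
    rw [Pi.coe_exp]
    rfl⟩

theorem sum_TT (x : ι → Ix N → ℝ) : ∑ e, ∑ a, x e a • TT e a = fun e => ∑ a, x e a • Tf a := by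
  funext e
  simp only [Finset.sum_apply, TT, Pi.smul_apply]
  rw [Finset.sum_eq_single e]
  · simp
  · intro f _ hf
    simp [hf.symm]
  · simp

omit [Fintype ι] in
theorem TT_brk (e : ι) (a b : Ix N) : TT e a * TT e b - TT e b * TT e a =
    Pi.single e (Tf a * Tf b - Tf b * Tf a) := by
  simp only [TT, ← Pi.single_mul, ← Pi.single_sub]

variable [NeZero N]

theorem tan_TT (e : ι) (a : Ix N) : Tan embSU (TT e a) := by
  apply tan_of_su
  intro f
  by_cases h : f = e
  · subst h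
    simpa [TT] using isSu_Tf a
  · simp [TT, h, IsSu]

theorem su_main (hN : 2 ≤ N) {π : Type*} (P : Finset π) (s : π → Fin 4 → ι ⊕ SU N)
    (hs : ∀ p ∈ P, Inj (s p)) (β : ℝ) {M : ℝ} (hM0 : 0 ≤ M)
    (hM : ∀ e, ((P.filter fun p => e ∈ lks (s p)).card : ℝ) ≤ M)
    (hM1 : ∀ e f, e ≠ f → (P.filter fun p => e ∈ lks (s p) ∧ f ∈ lks (s p)).card ≤ 1)
    {w : ι → ℝ} (hw : ∀ e, 0 < w e) {r : ℝ} (hr0 : 0 ≤ r)
    (hr : ∀ p ∈ P, ∀ e ∈ lks (s p), ∀ f ∈ lks (s p), w e ≤ r * w f) {θ c σ : ℝ}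
    (hc : c = (N : ℝ) - (N : ℝ)⁻¹) (hσ : σ = |β| * M * (2 - 2 / N))
    (hθ4 : 4 * (|β| * r * σ / c) + 16 / 3 * (|β| * r * √c / c) ^ 2 ≤ θ)
    (hθ2 : |β| * r + |β| * r * σ / c + (|β| * r * √c / c) ^ 2 ≤ θ)
    (hpos : 0 < (N : ℝ) / 2 - M * θ) {S : Sm (ι → Mat N)} (hS : S = β • ∑ p ∈ P, Psi (s p) 1)
    (f g : Sm (ι → Mat N)) :
    |EG (haarPi ι N) embSU S (f * g) - EG (haarPi ι N) embSU S f * EG (haarPi ι N) embSU S g| ≤
      √(∑ e, w e ^ 2 * gr (EG (haarPi ι N) embSU S) TT f e) *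
        √(∑ e, (w e)⁻¹ ^ 2 * gr (EG (haarPi ι N) embSU S) TT g e) / ((N : ℝ) / 2 - M * θ) := by
  have hN2 : (2 : ℝ) ≤ N := by exact_mod_cast hN
  have hτ : 0 ≤ 2 - 2 / (N : ℝ) := by
    rw [sub_nonneg, div_le_iff₀ (by linarith)]
    linarith
  have hσ0 : 0 ≤ σ := by rw [hσ]; positivity
  have hc0 : 0 < c := by
    have : (N : ℝ)⁻¹ ≤ 1 := inv_le_one_of_one_le₀ (by linarith)
    linarith
  refine abs_main (haarPi ι N) embSU (R := (N + 1) * Real.pi * ‖(1 : Mat N)‖)
    (fun g h hgh => funext fun e => Subtype.ext (congrFun hgh e)) tan_TT (fun h => ?_)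
    (fun e f hef a b => ?_) fsc (fun e a b => ?_) fsc_cyc fsc_anti (fun e l => ?_) P
    (fun p => Psi (s p) 1) (fun p => lks (s p)) hS hc0 hσ0 (Real.sqrt_nonneg c) (fun p hp => ?_)
    hM hM1 hw hr0 hr hθ4 hθ2 hpos f g
  · choose X hX hXn hXe using fun e => exists_su_exp (h e)
    have e1 : ∑ e, ∑ a, co (X e) a • TT e a = X := by
      rw [sum_TT]
      funext e
      exact (hX e).expand
    refine ⟨fun e => co (X e), fun e a => ?_, ?_, ?_⟩
    · refine (abs_le_sqrt_sum _ a).trans ?_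
      rw [sum_co_sq, Real.sqrt_sq (norm_nonneg _)]
      exact hXn e
    · rw [e1]
      exact tan_of_su hX
    · rw [e1]
      funext e
      rw [Pi.coe_exp]
      exact (hXe e).symm
  · funext g
    by_cases h : g = e
    · subst h
      simp [TT, hef]
    · simp [TT, h]
  · rw [TT_brk, fsc_expand]
    exact (map_sum (LinearMap.single ℝ (fun _ => Mat N) e) _ _).trans
      (Finset.sum_congr rfl fun c _ => map_smul _ _ _)
  · simp only [TT_brk]
    exact killing (l ∘ₗ LinearMap.single ℝ (fun _ => Mat N) e)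
  · rw [hc]
    refine plaqOK (hs p hp) S hσ0 fun g U hU C => ?_
    rw [hS, hσ]
    exact drift_bound P s hs β (hM g) hU C

theorem sum_sq_le_of_bound (l : Mat N →ₗ[ℝ] ℝ) {a : ℝ} (h : ∀ X, IsSu X → |l X| ≤ a * ‖X‖) :
    ∑ k, l (Tf k) ^ 2 ≤ a ^ 2 := by
  have h1 := h _ (isSu_sum fun k => l (Tf k))
  have h2 := norm_sum_Tf fun k => l (Tf k)
  have h3 : l (∑ k, l (Tf k) • Tf k) = ∑ k, l (Tf k) ^ 2 := by
    simp only [map_sum, map_smul, smul_eq_mul, sq]
  have h0 : 0 ≤ ∑ k, l (Tf k) ^ 2 := by positivity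
  rw [h3, abs_of_nonneg h0] at h1
  have h4 := mul_le_mul (le_abs_self a) h2 (norm_nonneg _) (abs_nonneg a)
  have h5 := Real.sq_sqrt h0
  have h6 := sq_abs a
  nlinarith [sq_nonneg (|a| - √(∑ k, l (Tf k) ^ 2))]

theorem gr_le (S F : Sm (ι → Mat N)) (e : ι) {a : ℝ}
    (h : ∀ U : ι → SU N, ∀ X, IsSu X → |D1 e X F (embSU U)| ≤ a * ‖X‖) :
    gr (EG (haarPi ι N) embSU S) TT F e ≤ a ^ 2 := by
  have : gr (EG (haarPi ι N) embSU S) TT F e ≤ EG (haarPi ι N) embSU S (a ^ 2 • 1) := by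
    rw [gr, ← map_sum]
    apply EG_mono
    intro U
    have := sum_sq_le_of_bound
      { toFun := fun X => D1 e X F (embSU U)
        map_add' := fun X Y => by simp
        map_smul' := fun c X => by simp } (h U)
    simp only [Sm.sum_apply, sq, DD_TT, Sm.coe_mul, Pi.mul_apply, Sm.coe_smul, Pi.smul_apply,
      Sm.coe_one, Pi.one_apply, smul_eq_mul, mul_one] at this ⊢
    exact this
  rwa [map_smul, EG_one, smul_eq_mul, mul_one] at this

end Pool.Agent.H419Z
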