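import Pool.Agent.H419Z.Frame

/-! Spectral facts on `SU(N)`. -/

open Matrix

noncomputable section

namespace Pool.Agent.H419Z

variable {N : ℕ}

section L2

open scoped Matrix.Norms.L2Operator
open Complex

theorem exists_herm_exp (u : Matrix.unitaryGroup (Fin N) ℂ) :
    ∃ H : Mat N, H.IsHermitian ∧ NormedSpace.exp (I • H) = (u : Mat N) := by
  refine ⟨cfc (arg · : ℂ → ℂ) (u : Mat N), IsSelfAdjoint.cfc_arg (u : Mat N), ?_⟩
  have hc : ∀ f : ℂ → ℂ, ContinuousOn f (spectrum ℂ (u : Mat N)) := fun f =>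
    (Matrix.finite_spectrum _).continuousOn f
  have hn : IsStarNormal (u : Mat N) := inferInstance
  rw [← CFC.exp_eq_normedSpace_exp (𝕜 := ℂ), ← cfc_comp_smul _ _ _ (by fun_prop),
    ← cfc_comp' _ _ _ (by fun_prop) (hc _)]
  conv_rhs => rw [← cfc_id' ℂ (u : Mat N)]
  refine cfc_congr fun y hy ↦ ?_
  have hy₁ : ‖y‖ = 1 := spectrum.norm_eq_one_of_unitary u.2 hy
  have : I * y.arg = log y :=
    Complex.ext (by simp [log_re, hy₁]) (by simp [log_im])
  simpa [← exp_eq_exp_ℂ, this] using exp_log (by aesop)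

end L2

open scoped Matrix.Norms.Frobenius

theorem herm_diag {H : Mat N} (hH : H.IsHermitian) :
    ∃ (V : Mat N) (l : Fin N → ℝ), Uni V ∧ H = V * diagonal (fun i => (l i : ℂ)) * Vᴴ := by
  refine ⟨hH.eigenvectorUnitary, hH.eigenvalues, uni_of_mem hH.eigenvectorUnitary.2, ?_⟩
  have h1 := hH.spectral_theorem
  rw [Unitary.conjStarAlgAut_apply] at h1
  exact h1

theorem Uni.exp_diag {V : Mat N} (hV : Uni V) (d : Fin N → ℂ) :
    NormedSpace.exp (V * diagonal d * Vᴴ) = V * diagonal (fun i => Complex.exp (d i)) * Vᴴ := by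
  have h2 := Matrix.exp_units_conj (⟨V, Vᴴ, hV.2, hV.1⟩ : (Mat N)ˣ) (diagonal d)
  rw [Matrix.exp_diagonal] at h2
  refine h2.trans ?_
  congr 3
  funext i
  rw [Pi.coe_exp, Complex.exp_eq_exp_ℂ]

theorem Uni.det_diag {V : Mat N} (hV : Uni V) (d : Fin N → ℂ) :
    (V * diagonal d * Vᴴ).det = ∏ i, d i := by
  rw [det_mul, det_mul, mul_comm, ← mul_assoc, ← det_mul, hV.1, det_one, one_mul, det_diagonal]

theorem Uni.trace_diag {V : Mat N} (hV : Uni V) (d : Fin N → ℂ) :
    (V * diagonal d * Vᴴ).trace = ∑ i, d i := by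
  rw [trace_mul_comm, ← mul_assoc, hV.1, one_mul, trace_diagonal]

theorem smul_diag (V : Mat N) (c : ℂ) (d : Fin N → ℂ) :
    c • (V * diagonal d * Vᴴ) = V * diagonal (fun i => c * d i) * Vᴴ := by
  rw [← Matrix.smul_mul, ← Matrix.mul_smul, ← Matrix.diagonal_smul]
  rfl

theorem IsSu.exp_mem {A : Mat N} (hA : IsSu A) :
    NormedSpace.exp A ∈ Matrix.specialUnitaryGroup (Fin N) ℂ := by
  rw [Matrix.mem_specialUnitaryGroup_iff]
  refine ⟨?_, ?_⟩
  · rw [Matrix.mem_unitaryGroup_iff, star_eq_conjTranspose, ← Matrix.exp_conjTranspose, hA.1,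
      Matrix.exp_neg]
    exact Matrix.mul_nonsing_inv _ ((Matrix.isUnit_iff_isUnit_det _).1 (Matrix.isUnit_exp _))
  · have hH : ((Complex.I) • A).IsHermitian := by
      rw [Matrix.IsHermitian, conjTranspose_smul, hA.1, smul_neg]
      simp
    obtain ⟨V, l, hV, h⟩ := herm_diag hH
    have h0 : A = (-Complex.I) • (Complex.I • A) := by
      rw [smul_smul]
      simp
    rw [h, smul_diag] at h0
    have h1 := hA.2
    rw [h0, hV.trace_diag] at h1
    rw [h0, hV.exp_diag, hV.det_diag, ← Complex.exp_sum, h1, Complex.exp_zero]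

theorem norm_diag_mul (d : Fin N → ℂ) {τ : ℝ} (hτ : 0 ≤ τ) (h : ∀ i, ‖d i‖ ≤ τ) (M : Mat N) :
    ‖diagonal d * M‖ ≤ τ * ‖M‖ := by
  rw [← sq_le_sq₀ (norm_nonneg _) (by positivity), mul_pow, norm_sq_sum, norm_sq_sum,
    Finset.mul_sum]
  refine Finset.sum_le_sum fun i _ => ?_
  rw [Finset.mul_sum]
  refine Finset.sum_le_sum fun j _ => ?_
  rw [diagonal_mul, norm_mul, mul_pow]
  exact mul_le_mul_of_nonneg_right (pow_le_pow_left₀ (norm_nonneg _) (h i) 2) (sq_nonneg _)

theorem exists_su_exp [NeZero N] (g : SU N) :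
    ∃ X : Mat N, IsSu X ∧ ‖X‖ ≤ (N + 1) * Real.pi * ‖(1 : Mat N)‖ ∧
      NormedSpace.exp X = (g : Mat N) := by
  obtain ⟨H, hH, he⟩ := exists_herm_exp (N := N) ⟨g.1, g.2.1⟩
  obtain ⟨V, l, hV, h⟩ := herm_diag hH
  rw [h, smul_diag, hV.exp_diag] at he
  set z : Fin N → ℂ := fun i => Complex.exp (Complex.I * l i) with hz
  have hz1 : ∀ i, Complex.exp (Complex.I * (z i).arg) = z i := by
    intro i
    have h1 : ‖z i‖ = 1 := by
      rw [hz]
      simp only [mul_comm Complex.I]
      exact Complex.norm_exp_ofReal_mul_I _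
    have := Complex.norm_mul_exp_arg_mul_I (z i)
    rwa [h1, Complex.ofReal_one, one_mul, mul_comm] at this
  have hdet : ∏ i, z i = 1 := by
    rw [← hV.det_diag, he]
    exact g.2.2
  set s : ℝ := ∑ i, (z i).arg with hs
  have hs1 : Complex.exp (Complex.I * s) = 1 := by
    rw [hs, Complex.ofReal_sum, Finset.mul_sum, Complex.exp_sum, ← hdet]
    exact Finset.prod_congr rfl fun i _ => hz1 i
  set θ : Fin N → ℝ := fun i => (z i).arg - if i = 0 then s else 0 with hθ
  refine ⟨V * diagonal (fun i => Complex.I * θ i) * Vᴴ, ⟨?_, ?_⟩, ?_, ?_⟩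
  · rw [conjTranspose_mul, conjTranspose_mul, conjTranspose_conjTranspose, diagonal_conjTranspose,
      ← mul_assoc, ← Matrix.neg_mul, ← Matrix.mul_neg, diagonal_neg]
    congr 3
    funext i
    simp
  · rw [hV.trace_diag, ← Finset.mul_sum, ← Complex.ofReal_sum]
    simp [hθ, hs]
  · rw [hV.star.mul_norm, hV.norm_mul, ← mul_one (diagonal _)]
    apply norm_diag_mul _ (by positivity)
    intro i
    rw [norm_mul, Complex.norm_I, one_mul, Complex.norm_real, Real.norm_eq_abs]
    have h1 : |s| ≤ N * Real.pi := by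
      refine (Finset.abs_sum_le_sum_abs _ _).trans ?_
      refine (Finset.sum_le_sum fun i _ => Complex.abs_arg_le_pi (z i)).trans ?_
      simp
    have h2 := Complex.abs_arg_le_pi (z i)
    refine (abs_sub _ _).trans ?_
    split_ifs
    · linarith
    · have : 0 ≤ N * Real.pi := by positivity
      rw [abs_zero]
      linarith
  · rw [hV.exp_diag]
    refine Eq.trans ?_ he
    congr 3
    funext i
    simp only [hθ]
    rw [Complex.ofReal_sub, mul_sub, Complex.exp_sub, hz1]
    split_ifs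
    · rw [hs1, div_one]
    · simp

theorem norm_Pr_mul [NeZero N] {W : Mat N} (hW : Uni W) (M : Mat N) :
    ‖Pr W * M‖ ≤ (2 - 2 / N) * ‖M‖ := by
  have hN : (N : ℂ) ≠ 0 := Nat.cast_ne_zero.2 (NeZero.ne N)
  have hN1 : (1 : ℝ) ≤ N := Nat.one_le_cast.2 (Nat.pos_of_ne_zero (NeZero.ne N))
  have hH : ((-Complex.I / 2) • (W - Wᴴ)).IsHermitian := by
    rw [Matrix.IsHermitian, conjTranspose_smul, conjTranspose_sub, conjTranspose_conjTranspose]
    simp only [star_div₀, star_neg, Complex.star_def, Complex.conj_I, map_ofNat]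
    module
  obtain ⟨V, l, hV, h⟩ := herm_diag hH
  have hl : ∀ i, |l i| ≤ 1 := by
    intro i
    have h1 : diagonal (fun i => (l i : ℂ)) =
        (-Complex.I / 2) • (Vᴴ * W * V - (Vᴴ * W * V)ᴴ) := by
      have : diagonal (fun i => (l i : ℂ)) = Vᴴ * (V * diagonal (fun i => (l i : ℂ)) * Vᴴ) * V := by
        rw [← mul_assoc, ← mul_assoc, hV.1, one_mul, mul_assoc, hV.1, mul_one]
      rw [this, ← h]
      simp only [conjTranspose_mul, conjTranspose_conjTranspose, mul_smul_comm, smul_mul_assoc,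
        mul_sub, sub_mul, mul_assoc]
    have h2 := congrFun (congrFun h1 i) i
    have h3 : Vᴴ * W * V ∈ Matrix.unitaryGroup (Fin N) ℂ := (hV.star.mul hW).mul hV
    have h4 := entry_norm_bound_of_unitary h3 i i
    simp only [diagonal_apply_eq, Matrix.smul_apply, Matrix.sub_apply, conjTranspose_apply,
      smul_eq_mul] at h2
    have h5 : l i = ((Vᴴ * W * V) i i).im := by
      have := congrArg Complex.re h2
      simp at this
      linarith
    rw [h5]
    exact (Complex.abs_im_le_norm _).trans h4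
  have h1 : W - Wᴴ = V * diagonal (fun i => 2 * Complex.I * l i) * Vᴴ := by
    rw [← smul_diag, ← h, smul_smul]
    have : 2 * Complex.I * (-Complex.I / 2) = 1 := by
      ring_nf
      simp
    rw [this, one_smul]
  have h2 : Pr W = V * diagonal (fun i => Complex.I * ((l i - (∑ j, l j) / N : ℝ) : ℂ)) * Vᴴ := by
    have e1 : (1 : Mat N) = V * diagonal (fun _ => (1 : ℂ)) * Vᴴ := by
      rw [diagonal_one, mul_one, hV.2]
    rw [Pr_apply, h1, hV.trace_diag, e1, smul_diag, smul_diag, ← sub_mul, ← mul_sub, diagonal_sub]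
    congr 3
    funext i
    rw [← Finset.mul_sum]
    push_cast
    field_simp
  have hτ : 0 ≤ 2 - 2 / (N : ℝ) := by
    rw [sub_nonneg, div_le_iff₀ (by linarith)]
    linarith
  rw [h2, mul_assoc, mul_assoc, hV.norm_mul, ← hV.star.norm_mul M]
  apply norm_diag_mul _ hτ
  intro i
  rw [norm_mul, Complex.norm_I, one_mul, Complex.norm_real, Real.norm_eq_abs]
  have e : l i - (∑ j, l j) / N = (∑ j ∈ Finset.univ.erase i, (l i - l j)) / N := by
    rw [Finset.sum_erase _ (by simp), Finset.sum_sub_distrib]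
    simp only [Finset.sum_const, Finset.card_univ, Fintype.card_fin, nsmul_eq_mul]
    field_simp
  rw [e, abs_div, abs_of_pos (by linarith : (0 : ℝ) < N), div_le_iff₀ (by linarith)]
  refine (Finset.abs_sum_le_sum_abs _ _).trans ?_
  have : ∀ j ∈ Finset.univ.erase i, |l i - l j| ≤ 2 := fun j _ =>
    (abs_sub _ _).trans (by linarith [hl i, hl j])
  refine (Finset.sum_le_sum this).trans (le_of_eq ?_)
  rw [Finset.sum_const, Finset.card_erase_of_mem (Finset.mem_univ i), Finset.card_univ,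
    Fintype.card_fin, nsmul_eq_mul, Nat.cast_sub (Nat.pos_of_ne_zero (NeZero.ne N))]
  field_simp
  push_cast
  ring

end Pool.Agent.H419Z
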