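import Pool.Agent.H419Z.Spec

/-! Estimates for traces of words of length four. -/

open Matrix
open scoped Matrix.Norms.Frobenius

noncomputable section

namespace Pool.Agent.H419Z

variable {N : ℕ}

/-- contractions -/
def Contr (F : Mat N → Mat N) : Prop := ∀ A, ‖F A‖ ≤ ‖A‖

/-- how a matrix valued function depends on two matrix arguments -/
def Kind : Bool → Bool → (Mat N → Mat N → Mat N) → Prop
  | false, false, R => ∃ M, Uni M ∧ ∀ A B, R A B = M
  | true, false, R => ∃ F, Contr F ∧ ∀ A B, R A B = F A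
  | false, true, R => ∃ G, Contr G ∧ ∀ A B, R A B = G B
  | true, true, R => ∃ F G, Contr F ∧ Contr G ∧
      ((∀ A B, R A B = F A * G B) ∨ ∀ A B, R A B = G B * F A)

theorem Contr.star {F : Mat N → Mat N} (h : Contr F) : Contr fun A => (F A)ᴴ := fun A => by
  rw [frobenius_norm_conjTranspose]
  exact h A

theorem Contr.mulL {F : Mat N → Mat N} (h : Contr F) {M : Mat N} (hM : Uni M) :
    Contr fun A => M * F A := fun A => by
  rw [hM.norm_mul]
  exact h A

theorem Contr.mulR {F : Mat N → Mat N} (h : Contr F) {M : Mat N} (hM : Uni M) :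
    Contr fun A => F A * M := fun A => by
  rw [hM.mul_norm]
  exact h A

theorem contr_id : Contr (fun A : Mat N => A) := fun _ => le_rfl

theorem Kind.star {p q : Bool} {R : Mat N → Mat N → Mat N} (h : Kind p q R) :
    Kind p q fun A B => (R A B)ᴴ := by
  cases p <;> cases q
  · obtain ⟨M, hM, h⟩ := h
    exact ⟨Mᴴ, hM.star, fun A B => by simp only [h]⟩
  · obtain ⟨F, hF, h⟩ := h
    exact ⟨_, hF.star, fun A B => by simp only [h]⟩
  · obtain ⟨F, hF, h⟩ := h
    exact ⟨_, hF.star, fun A B => by simp only [h]⟩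
  · obtain ⟨F, G, hF, hG, h | h⟩ := h
    · exact ⟨_, _, hF.star, hG.star, Or.inr fun A B => by simp only [h, conjTranspose_mul]⟩
    · exact ⟨_, _, hF.star, hG.star, Or.inl fun A B => by simp only [h, conjTranspose_mul]⟩

theorem Kind.mul {p q p' q' : Bool} {R R' : Mat N → Mat N → Mat N} (h : Kind p q R)
    (h' : Kind p' q' R') (hp : (p && p') = false) (hq : (q && q') = false) :
    Kind (p || p') (q || q') fun A B => R A B * R' A B := by
  cases p <;> cases q <;> cases p' <;> cases q' <;> simp only [Bool.and_self, Bool.and_true,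
    Bool.and_false, Bool.true_eq_false] at hp hq
  · obtain ⟨M, hM, h⟩ := h
    obtain ⟨M', hM', h'⟩ := h'
    exact ⟨_, hM.mul hM', fun A B => by simp only [h, h']⟩
  · obtain ⟨M, hM, h⟩ := h
    obtain ⟨M', hM', h'⟩ := h'
    exact ⟨_, hM'.mulL hM, fun A B => by simp only [h, h']⟩
  · obtain ⟨M, hM, h⟩ := h
    obtain ⟨M', hM', h'⟩ := h'
    exact ⟨_, hM'.mulL hM, fun A B => by simp only [h, h']⟩
  · obtain ⟨M, hM, h⟩ := h
    obtain ⟨F, G, hF, hG, h' | h'⟩ := h'
    · exact ⟨_, _, hF.mulL hM, hG, Or.inl fun A B => by simp only [h, h', mul_assoc]⟩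
    · exact ⟨_, _, hF, hG.mulL hM, Or.inr fun A B => by simp only [h, h', mul_assoc]⟩
  · obtain ⟨M, hM, h⟩ := h
    obtain ⟨M', hM', h'⟩ := h'
    exact ⟨_, hM.mulR hM', fun A B => by simp only [h, h']⟩
  · obtain ⟨M, hM, h⟩ := h
    obtain ⟨M', hM', h'⟩ := h'
    exact ⟨_, _, hM', hM, Or.inr fun A B => by simp only [h, h']⟩
  · obtain ⟨M, hM, h⟩ := h
    obtain ⟨M', hM', h'⟩ := h'
    exact ⟨_, hM.mulR hM', fun A B => by simp only [h, h']⟩
  · obtain ⟨M, hM, h⟩ := h
    obtain ⟨M', hM', h'⟩ := h'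
    exact ⟨_, _, hM, hM', Or.inl fun A B => by simp only [h, h']⟩
  · obtain ⟨M, hM, h'⟩ := h'
    obtain ⟨F, G, hF, hG, h | h⟩ := h
    · exact ⟨_, _, hF, hG.mulR hM, Or.inl fun A B => by simp only [h, h', mul_assoc]⟩
    · exact ⟨_, _, hF.mulR hM, hG, Or.inr fun A B => by simp only [h, h', mul_assoc]⟩

theorem Kind.const {M : Mat N} (hM : Uni M) : Kind false false fun _ _ : Mat N => M :=
  ⟨M, hM, fun _ _ => rfl⟩

theorem Kind.cast {p q p' q' : Bool} {R : Mat N → Mat N → Mat N} (h : Kind p q R)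
    (hp : p = p') (hq : q = q') : Kind p' q' R := hp ▸ hq ▸ h

theorem Kind.rt_le {R : Mat N → Mat N → Mat N} (h : Kind true true R) (A B : Mat N) :
    |rt (R A B)| ≤ ‖A‖ * ‖B‖ := by
  obtain ⟨F, G, hF, hG, h | h⟩ := h
  · rw [h]
    exact (abs_rt_mul _ _).trans (mul_le_mul (hF A) (hG B) (norm_nonneg _) (norm_nonneg _))
  · rw [h, rt_comm]
    exact (abs_rt_mul _ _).trans (mul_le_mul (hF A) (hG B) (norm_nonneg _) (norm_nonneg _))

theorem Kind.op_le {R : Mat N → Mat N → Mat N} (h : Kind true true R) {Y : Mat N} {σ : ℝ}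
    (hσ : 0 ≤ σ) (hY : ∀ M : Mat N, ‖Y * M‖ ≤ σ * ‖M‖) (A B : Mat N) :
    |rt (Y * R A B)| ≤ σ * (‖A‖ * ‖B‖) := by
  have h1 : ∀ C D : Mat N, |rt (Y * (C * D))| ≤ σ * (‖C‖ * ‖D‖) := by
    intro C D
    rw [← mul_assoc, ← mul_assoc]
    exact (abs_rt_mul _ _).trans (mul_le_mul_of_nonneg_right (hY C) (norm_nonneg _))
  obtain ⟨F, G, hF, hG, h | h⟩ := h
  · rw [h]
    exact (h1 _ _).trans (mul_le_mul_of_nonneg_left
      (mul_le_mul (hF A) (hG B) (norm_nonneg _) (norm_nonneg _)) hσ)
  · rw [h, mul_comm ‖A‖]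
    exact (h1 _ _).trans (mul_le_mul_of_nonneg_left
      (mul_le_mul (hG B) (hF A) (norm_nonneg _) (norm_nonneg _)) hσ)

theorem Kind.swap {R : Mat N → Mat N → Mat N} (h : Kind true true R) :
    Kind true true fun A B => R B A := by
  obtain ⟨F, G, hF, hG, h | h⟩ := h
  · exact ⟨G, F, hG, hF, Or.inr fun A B => h B A⟩
  · exact ⟨G, F, hG, hF, Or.inl fun A B => h B A⟩

theorem Kind.sum_le [NeZero N] {R : Mat N → Mat N → Mat N} (h : Kind true true R)
    (A : Ix N → Mat N) (B : Mat N) : |∑ k, rt (Tf k * R (A k) B)| ≤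
      √((N : ℝ) - (N : ℝ)⁻¹) * (√(∑ k, ‖A k‖ ^ 2) * ‖B‖) := by
  obtain ⟨F, G, hF, hG, h⟩ := h
  obtain ⟨C, hC, hC2⟩ : ∃ C : Ix N → Mat N,
      (∀ k, |rt (Tf k * R (A k) B)| ≤ ‖C k‖ * ‖A k‖) ∧
        ∑ k, ‖C k‖ ^ 2 = ((N : ℝ) - (N : ℝ)⁻¹) * ‖G B‖ ^ 2 := by
    rcases h with h | h
    · refine ⟨fun k => G B * Tf k, fun k => ?_, sum_norm_mul_Tf _⟩
      rw [h, ← mul_assoc, rt_comm, ← mul_assoc]
      exact (abs_rt_mul _ _).trans (mul_le_mul_of_nonneg_left (hF _) (norm_nonneg _))
    · refine ⟨fun k => Tf k * G B, fun k => ?_, sum_norm_Tf_mul _⟩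
      rw [h, ← mul_assoc]
      exact (abs_rt_mul _ _).trans (mul_le_mul_of_nonneg_left (hF _) (norm_nonneg _))
  refine (Finset.abs_sum_le_sum_abs _ _).trans ((Finset.sum_le_sum fun k _ => hC k).trans ?_)
  refine (Real.sum_mul_le_sqrt_mul_sqrt _ _ _).trans ?_
  rw [hC2, Real.sqrt_mul' _ (sq_nonneg _), Real.sqrt_sq (norm_nonneg _), mul_assoc,
    mul_comm ‖G B‖]
  exact mul_le_mul_of_nonneg_left (mul_le_mul_of_nonneg_left (hG B) (Real.sqrt_nonneg _))
    (Real.sqrt_nonneg _)

/-- the plaquette word -/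
def wd (Y : Fin 4 → Mat N) : ℝ := rt (Y 0 * Y 1 * (Y 2)ᴴ * (Y 3)ᴴ)

/-- the rest of the word, seen from the slot `g` -/
def rot (g : Fin 4) (Y : Fin 4 → Mat N) : Mat N :=
  ![Y 1 * (Y 2)ᴴ * (Y 3)ᴴ, (Y 2)ᴴ * (Y 3)ᴴ * Y 0, (Y 1)ᴴ * (Y 0)ᴴ * Y 3,
    Y 2 * (Y 1)ᴴ * (Y 0)ᴴ] g

theorem wd_eq_rot (g : Fin 4) (Y : Fin 4 → Mat N) : wd Y = rt (Y g * rot g Y) := by
  fin_cases g
  · simp [wd, rot, mul_assoc]
  · simp only [wd, rot, mul_assoc]
    rw [rt_comm]
    simp [mul_assoc]
  · simp only [wd, rot]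
    rw [← rt_star]
    simp only [conjTranspose_mul, conjTranspose_conjTranspose]
    rw [rt_comm]
    simp [mul_assoc]
  · simp only [wd, rot]
    rw [← rt_star]
    simp [mul_assoc]

theorem rot_update (g : Fin 4) (Y : Fin 4 → Mat N) (M : Mat N) :
    rot g (Function.update Y g M) = rot g Y := by
  fin_cases g <;> simp [rot]

theorem wd_update (g : Fin 4) (Y : Fin 4 → Mat N) (M : Mat N) :
    wd (Function.update Y g M) = rt (M * rot g Y) := by
  rw [wd_eq_rot g, rot_update, Function.update_self]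

theorem uni_rot (g : Fin 4) {Y : Fin 4 → Mat N} (h : ∀ i, Uni (Y i)) : Uni (rot g Y) := by
  fin_cases g
  · exact ((h 1).mul (h 2).star).mul (h 3).star
  · exact ((h 2).star.mul (h 3).star).mul (h 0)
  · exact ((h 1).star.mul (h 0).star).mul (h 3)
  · exact ((h 2).mul (h 1).star).mul (h 0).star

theorem kind_rot {g e f : Fin 4} (he : g ≠ e) (hf : g ≠ f) {Y : Mat N → Mat N → Fin 4 → Mat N}
    (h : ∀ j, Kind (decide (j = e)) (decide (j = f)) fun A B => Y A B j) :
    Kind true true fun A B => rot g (Y A B) := by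
  fin_cases g
  · exact (((h 1).mul (h 2).star (by clear h hf; revert e; decide) (by clear h he; revert f; decide)).mul (h 3).star
      (by clear h hf; revert e; decide) (by clear h he; revert f; decide)).cast
      (by clear h hf; revert e; decide) (by clear h he; revert f; decide)
  · exact (((h 2).star.mul (h 3).star (by clear h hf; revert e; decide) (by clear h he; revert f; decide)).mul (h 0)
      (by clear h hf; revert e; decide) (by clear h he; revert f; decide)).cast
      (by clear h hf; revert e; decide) (by clear h he; revert f; decide)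
  · exact (((h 1).star.mul (h 0).star (by clear h hf; revert e; decide) (by clear h he; revert f; decide)).mul (h 3)
      (by clear h hf; revert e; decide) (by clear h he; revert f; decide)).cast
      (by clear h hf; revert e; decide) (by clear h he; revert f; decide)
  · exact (((h 2).mul (h 1).star (by clear h hf; revert e; decide) (by clear h he; revert f; decide)).mul (h 0).star
      (by clear h hf; revert e; decide) (by clear h he; revert f; decide)).cast
      (by clear h hf; revert e; decide) (by clear h he; revert f; decide)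

theorem wd_le {e f : Fin 4} {Y : Mat N → Mat N → Fin 4 → Mat N}
    (h : ∀ j, Kind (decide (j = e)) (decide (j = f)) fun A B => Y A B j) (A B : Mat N) :
    |wd (Y A B)| ≤ ‖A‖ * ‖B‖ :=
  (((((h 0).mul (h 1) (by clear h; revert e; decide) (by clear h; revert f; decide)).mul (h 2).star
    (by clear h; revert e; decide) (by clear h; revert f; decide)).mul (h 3).star
    (by clear h; revert e; decide) (by clear h; revert f; decide)).cast
    (by clear h; revert e; decide) (by clear h; revert f; decide)).rt_le A B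

/-- the slots after two derivatives -/
def Z2 (e f : Fin 4) (A B : Mat N) : Fin 4 → Mat N :=
  Function.update (Function.update 1 f B) e (Function.update (1 : Fin 4 → Mat N) f B e * A)

theorem kind_Z2 (e f : Fin 4) {L : Fin 4 → Mat N} (hL : ∀ i, Uni (L i)) (j : Fin 4) :
    Kind (decide (j = e)) (decide (j = f)) fun A B => Z2 e f A B j * L j := by
  by_cases h1 : j = e
  · subst h1
    by_cases h2 : j = f
    · subst h2
      simp only [decide_true]
      exact ⟨_, _, contr_id.mulR (hL j), contr_id, Or.inr fun A B => by simp [Z2, mul_assoc]⟩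
    · simp only [decide_true, h2, decide_false]
      exact ⟨_, contr_id.mulR (hL j), fun A B => by simp [Z2, h2]⟩
  · by_cases h2 : j = f
    · subst h2
      simp only [decide_true, h1, decide_false]
      exact ⟨_, contr_id.mulR (hL j), fun A B => by simp [Z2, h1]⟩
    · simp only [h1, h2, decide_false]
      exact ⟨_, hL j, fun A B => by simp [Z2, h1, h2]⟩

end Pool.Agent.H419Z
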